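import Mathlib

/-!
# Chains (abstract form)

`T` is the set of the sides of the paths, `out τ` the outer end, `inn τ` the inner end (the
neighbour of the centre), `A` the set of the neighbours of the centre, `ε w` a side with outer end `w`
(for `w` in `A` but not in the set `Z` of bad vertices).  The chain of a side `τ₀`: the inner end of `τ₀`,
the inner end of `ε w` for a vertex `w` of the chain that is not bad.

`absC_inj`: induction on `h` (for all `τ'`... in fact `τ'` is fixed, generalise `z`), cases on `h'`: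
base/base: `hinj`; base/step: `τ = ε w` with `A w` (`absC_A`) and `w ∉ Z`, so `out τ = some w`, `w = v`, contradiction
to `¬A v`; step/base: symmetric; step/step: `ε w = ε w'`, so `w = w'` (both have `out (ε w) = some w`), induction
hypothesis.

`absC_main`: Let `C` be the finset of all `z` with `AbsC z`, `F = insert τ₀ ((C \ Z).image ε)`.
* every `w ∈ C` has `A w` (`hinn`); for `w ∈ C \ Z`: `out (ε w) = some w`, `w ≠ v`.  `ε` is injective on `C \ Z`,
  `τ₀ ∉ (C \ Z).image ε` (outer ends), so `F.card = (C \ Z).card + 1`.  This gives items 1, 2, 4.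
* every `z ∈ C` is `inn τ = some z` for some `τ ∈ F` (cases).  And `τ ∈ F`, `inn τ = some z` implies `z ∈ C`.
* item 3: `τ ∈ F`, `out τ = some a`, `inn τ' = some a`, `τ' ∉ F`: if `τ = τ₀` then `a = v`, contradiction to `A a`
  (`hinn`); otherwise `a ∈ C`, so some `σ ∈ F` has `inn σ = some a`, `σ = τ'` by `hinj`.
* item 5: `a` with `A a`, `inn τ = some a` (`hsur`); if `τ ∈ F` then `a ∈ C`, so `a ∉ Z` and `ε a ∈ F`.
* item 6: `z ∈ Z`, `z ∈ C`: some `σ ∈ F` has `inn σ = some z`, `σ = τ`.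
* `inn` is a bijection from the elements of `F` with `inn ≠ none` onto `C` (as `some`), so
  `F.card = (F.filter (inn = none)).card + C.card`, and `C.card = (C \ Z).card + (C ∩ Z).card`.  Hence
  `(F.filter (inn = none)).card + (C ∩ Z).card = 1`: items 7 and 8.
-/

namespace Pool.Agent.Lib.MP_94420a_co

/-- The chain of the side `τ₀`. -/
inductive AbsC {T V : Type} (inn : T → Option V) (ε : V → T) (Z : Finset V) (τ₀ : T) : V → Prop
  | base {z : V} (h : inn τ₀ = some z) : AbsC inn ε Z τ₀ z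
  | step {w z : V} (h : AbsC inn ε Z τ₀ w) (hw : w ∉ Z) (h' : inn (ε w) = some z) :
      AbsC inn ε Z τ₀ z

theorem absC_A {T V : Type} {inn : T → Option V} {A : V → Prop} {ε : V → T} {Z : Finset V}
    (hinn : ∀ τ z, inn τ = some z → A z) {τ : T} {z : V} (h : AbsC inn ε Z τ z) : A z := by
  cases h with
  | base h => exact hinn _ _ h
  | step _ _ h' => exact hinn _ _ h'

theorem absC_inj {T V : Type} {out inn : T → Option V} {A : V → Prop} {ε : V → T} {Z : Finset V}
    (hε : ∀ w, A w → w ∉ Z → out (ε w) = some w)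
    (hinn : ∀ τ z, inn τ = some z → A z)
    (hinj : ∀ τ τ' z, inn τ = some z → inn τ' = some z → τ = τ')
    {τ τ' : T} {v v' : V} (hτ : out τ = some v) (hτ' : out τ' = some v') (hv : ¬A v)
    (hv' : ¬A v') {z : V} (h : AbsC inn ε Z τ z) (h' : AbsC inn ε Z τ' z) : τ = τ' := by
  induction h with
  | base h1 =>
    cases h' with
    | base h1' => exact hinj _ _ _ h1 h1'
    | step hw' hwZ' h2' =>
      rename_i w'
      have h3 := hinj _ _ _ h1 h2'
      have h4 : out (ε w') = some w' := hε w' (absC_A hinn hw') hwZ'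
      rw [← h3, hτ] at h4
      exact absurd (absC_A hinn hw') (by rw [← Option.some.inj h4]; exact hv)
  | step hw hwZ h2 ih =>
    rename_i w z
    cases h' with
    | base h1' =>
      have h3 := hinj _ _ _ h1' h2
      have h4 : out (ε w) = some w := hε w (absC_A hinn hw) hwZ
      rw [← h3, hτ'] at h4
      exact absurd (absC_A hinn hw) (by rw [← Option.some.inj h4]; exact hv')
    | step hw' hwZ' h2' =>
      rename_i w'
      have h3 := hinj _ _ _ h2 h2'
      have h4 : out (ε w) = some w := hε w (absC_A hinn hw) hwZ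
      have h5 : out (ε w') = some w' := hε w' (absC_A hinn hw') hwZ'
      rw [← h3, h4] at h5
      have h6 := Option.some.inj h5
      subst h6
      exact ih hw'

theorem absC_main {T V : Type} [Fintype T] [DecidableEq T] [Fintype V] [DecidableEq V]
    {out inn : T → Option V} {A : V → Prop} {ε : V → T} {Z : Finset V}
    (hε : ∀ w, A w → w ∉ Z → out (ε w) = some w)
    (hinn : ∀ τ z, inn τ = some z → A z)
    (hinj : ∀ τ τ' z, inn τ = some z → inn τ' = some z → τ = τ')
    (hsur : ∀ a, A a → ∃ τ, inn τ = some a)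
    {τ₀ : T} {v : V} (hτ₀ : out τ₀ = some v) (hv : ¬A v) :
    ∃ F : Finset T,
      (∀ τ ∈ F, ∃ w, (w = v ∨ (A w ∧ w ∉ Z)) ∧ out τ = some w) ∧
      (∀ τ ∈ F, ∀ τ' ∈ F, out τ = out τ' → τ = τ') ∧
      (∀ τ ∈ F, ∀ τ' ∉ F, ∀ a, out τ = some a → inn τ' ≠ some a) ∧
      (∃ τ ∈ F, out τ = some v) ∧
      (∀ a, A a → ¬(a ∈ Z ∧ AbsC inn ε Z τ₀ a) →
        (∃ τ ∈ F, out τ = some a) ∨ ∃ τ, τ ∉ F ∧ inn τ = some a) ∧
      (∀ z ∈ Z, AbsC inn ε Z τ₀ z → ∀ τ, inn τ = some z → τ ∈ F) ∧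
      ((∀ z ∈ Z, ¬AbsC inn ε Z τ₀ z) → (F.filter fun τ => inn τ = none).card = 1) ∧
      (∀ z ∈ Z, AbsC inn ε Z τ₀ z → (F.filter fun τ => inn τ = none).card = 0 ∧
        ∀ z' ∈ Z, AbsC inn ε Z τ₀ z' → z' = z) := by
  obtain ⟨C, hC⟩ : ∃ C : Finset V, ∀ z, z ∈ C ↔ AbsC inn ε Z τ₀ z := by
    classical
    exact ⟨Finset.univ.filter (fun z => AbsC inn ε Z τ₀ z), fun z => by
      rw [Finset.mem_filter]
      exact ⟨fun h => h.2, fun h => ⟨Finset.mem_univ z, h⟩⟩⟩
  have hCA : ∀ w ∈ C, A w := fun w hw => absC_A hinn ((hC w).mp hw)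
  have hout : ∀ w ∈ C \ Z, out (ε w) = some w := fun w hw =>
    hε w (hCA w (Finset.mem_sdiff.mp hw).1) (Finset.mem_sdiff.mp hw).2
  have hne : ∀ w ∈ C, w ≠ v := fun w hw h => hv (h ▸ hCA w hw)
  have hF : ∀ τ, τ ∈ insert τ₀ ((C \ Z).image ε) ↔ τ = τ₀ ∨ ∃ w ∈ C \ Z, ε w = τ := by
    intro τ
    rw [Finset.mem_insert, Finset.mem_image]
  -- the inner ends
  have hin : ∀ z ∈ C, ∃ τ ∈ insert τ₀ ((C \ Z).image ε), inn τ = some z := by
    intro z hz
    have hz' := (hC z).mp hz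
    cases hz' with
    | base h => exact ⟨τ₀, (hF _).mpr (Or.inl rfl), h⟩
    | step hw hwZ h' =>
      exact ⟨_, (hF _).mpr (Or.inr ⟨_, Finset.mem_sdiff.mpr ⟨(hC _).mpr hw, hwZ⟩, rfl⟩), h'⟩
  have hin' : ∀ τ ∈ insert τ₀ ((C \ Z).image ε), ∀ z, inn τ = some z → z ∈ C := by
    intro τ hτ z hz
    rcases (hF τ).mp hτ with rfl | ⟨w, hw, rfl⟩
    · exact (hC z).mpr (AbsC.base hz)
    · exact (hC z).mpr (AbsC.step ((hC w).mp (Finset.mem_sdiff.mp hw).1)
        (Finset.mem_sdiff.mp hw).2 hz)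
  have hinjF : ∀ τ ∈ insert τ₀ ((C \ Z).image ε), ∀ τ' ∈ insert τ₀ ((C \ Z).image ε),
      out τ = out τ' → τ = τ' := by
    intro τ hτ τ' hτ' h
    rcases (hF τ).mp hτ with rfl | ⟨w, hw, rfl⟩
    · rcases (hF τ').mp hτ' with rfl | ⟨w', hw', rfl⟩
      · rfl
      · rw [hτ₀, hout w' hw'] at h
        exact absurd (Option.some.inj h).symm (hne w' (Finset.mem_sdiff.mp hw').1)
    · rcases (hF τ').mp hτ' with rfl | ⟨w', hw', rfl⟩
      · rw [hτ₀, hout w hw] at h
        exact absurd (Option.some.inj h) (hne w (Finset.mem_sdiff.mp hw).1)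
      · rw [hout w hw, hout w' hw'] at h
        rw [Option.some.inj h]
  have hcard : (insert τ₀ ((C \ Z).image ε)).card = (C \ Z).card + 1 := by
    rw [Finset.card_insert_of_notMem, Finset.card_image_of_injOn]
    · intro w hw w' hw' h
      have h1 := hout w hw
      have h2 := hout w' hw'
      have h3 : ε w = ε w' := h
      rw [h3, h2] at h1
      exact (Option.some.inj h1).symm
    · intro h
      obtain ⟨w, hw, h1⟩ := Finset.mem_image.mp h
      have h2 := hout w hw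
      rw [h1, hτ₀] at h2
      exact hne w (Finset.mem_sdiff.mp hw).1 (Option.some.inj h2).symm
  have hcard2 : ((insert τ₀ ((C \ Z).image ε)).filter fun τ => ¬ inn τ = none).card = C.card := by
    have h1 : ((insert τ₀ ((C \ Z).image ε)).filter fun τ => ¬ inn τ = none).image inn =
        C.image some := by
      ext o
      rw [Finset.mem_image, Finset.mem_image]
      constructor
      · rintro ⟨τ, hτ, rfl⟩
        have h2 := Finset.mem_filter.mp hτ
        obtain ⟨z, hz⟩ := Option.ne_none_iff_exists'.mp h2.2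
        exact ⟨z, hin' τ h2.1 z hz, hz.symm⟩
      · rintro ⟨z, hz, rfl⟩
        obtain ⟨τ, hτ, h3⟩ := hin z hz
        refine ⟨τ, Finset.mem_filter.mpr ⟨hτ, ?_⟩, h3⟩
        rw [h3]
        exact Option.some_ne_none z
    rw [← Finset.card_image_of_injective C (Option.some_injective V), ← h1,
      Finset.card_image_of_injOn]
    intro τ hτ τ' hτ' h
    have h2 := Finset.mem_filter.mp hτ
    obtain ⟨z, hz⟩ := Option.ne_none_iff_exists'.mp h2.2
    have h3 : inn τ = inn τ' := h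
    exact hinj τ τ' z hz (h3 ▸ hz)
  have hsum : ((insert τ₀ ((C \ Z).image ε)).filter fun τ => inn τ = none).card +
      (C ∩ Z).card = 1 := by
    have h1 := Finset.card_filter_add_card_filter_not (s := insert τ₀ ((C \ Z).image ε))
      (fun τ => inn τ = none)
    have h2 := Finset.card_sdiff_add_card_inter C Z
    rw [hcard2, hcard] at h1
    omega
  refine ⟨insert τ₀ ((C \ Z).image ε), ?_, hinjF, ?_, ?_, ?_, ?_, ?_, ?_⟩
  · intro τ hτ
    rcases (hF τ).mp hτ with rfl | ⟨w, hw, rfl⟩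
    · exact ⟨v, Or.inl rfl, hτ₀⟩
    · exact ⟨w, Or.inr ⟨hCA w (Finset.mem_sdiff.mp hw).1, (Finset.mem_sdiff.mp hw).2⟩,
        hout w hw⟩
  · intro τ hτ τ' hτ' a ha ha'
    rcases (hF τ).mp hτ with rfl | ⟨w, hw, rfl⟩
    · rw [hτ₀] at ha
      exact hv ((Option.some.inj ha) ▸ hinn τ' a ha')
    · rw [hout w hw] at ha
      have h1 := Option.some.inj ha
      subst h1
      obtain ⟨σ, hσ, h2⟩ := hin w (Finset.mem_sdiff.mp hw).1
      exact hτ' (hinj σ τ' w h2 ha' ▸ hσ)
  · exact ⟨τ₀, (hF _).mpr (Or.inl rfl), hτ₀⟩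
  · intro a ha hna
    obtain ⟨τ, hτ⟩ := hsur a ha
    by_cases h : τ ∈ insert τ₀ ((C \ Z).image ε)
    · left
      have h1 := hin' τ h a hτ
      have h2 : a ∉ Z := fun h2 => hna ⟨h2, (hC a).mp h1⟩
      have h3 : a ∈ C \ Z := Finset.mem_sdiff.mpr ⟨h1, h2⟩
      exact ⟨ε a, (hF _).mpr (Or.inr ⟨a, h3, rfl⟩), hout a h3⟩
    · exact Or.inr ⟨τ, h, hτ⟩
  · intro z hz hzC τ hτ
    obtain ⟨σ, hσ, h2⟩ := hin z ((hC z).mpr hzC)
    exact hinj σ τ z h2 hτ ▸ hσ
  · intro hno
    have h1 : C ∩ Z = ∅ := by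
      rw [Finset.eq_empty_iff_forall_notMem]
      intro z hz
      have h2 := Finset.mem_inter.mp hz
      exact hno z h2.2 ((hC z).mp h2.1)
    rw [h1, Finset.card_empty, add_zero] at hsum
    exact hsum
  · intro z hz hzC
    have h1 : z ∈ C ∩ Z := Finset.mem_inter.mpr ⟨(hC z).mpr hzC, hz⟩
    have h2 : 0 < (C ∩ Z).card := Finset.card_pos.mpr ⟨z, h1⟩
    refine ⟨by omega, fun z' hz' hz'C => ?_⟩
    have h3 : z' ∈ C ∩ Z := Finset.mem_inter.mpr ⟨(hC z').mpr hz'C, hz'⟩
    have h4 : (C ∩ Z).card ≤ 1 := by omega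
    exact Finset.card_le_one.mp h4 z' h3 z h1

end Pool.Agent.Lib.MP_94420a_co
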