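import Pool.Agent.Lib.MP_94420a_co_T.Chain

/-!
# Adding one edge, adding a star

`chain_add`: Let `Z` be the filter in the hypothesis.  For `w` with `s(c, w) ∈ H`, `w ∉ Z`: `dg H w < 2 * mc f w`
(`dg_le_mc`), so by `isEnd_iff_mc` and `out_of_isEnd` (`w ≠ c`: `H` has no loops, `Ll_le`) there is a side with outer end
`w`; choose `ε`.  Let `T₀` be the set of the sides with outer end `v`; `T₀.card + dg H v = 2 * mc f v` (`sides_card`),
so `Z.card < T₀.card`.  If for every `τ ∈ T₀` some `z ∈ Z` has `Chn f c ε Z τ z`, choose it: by `chain_inj` this is an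
injective map `T₀ → Z` (`Finset.card_le_card_of_injOn`), a contradiction.  So some `τ ∈ T₀` has none: `chain_succ`.

`star2`: Let `P A` be the statement `∃ g : Fin k → List V, PF (H ∪ st c A) g ∧ mc g c = mc f c + A.card ∧
∀ w, w ≠ c → mc g w = mc f w`.  `P ∅` holds.  Take `A ∈ S.powerset` with `P A` of maximal card
(`Finset.exists_max_image`), `g` for it, `HA = H ∪ st c A`.  For `w ≠ c`, `w ∉ A`: `dg HA w = dg H w`.
Let `Z = A.filter (dg HA w = 2 * mc g w)`.  If `s(c, w) ∈ HA`, `w ∉ Z`: then `dg HA w < 2 * mc g w` (`w ∈ A`: `dg_le_mc`;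
`w ∉ A`: `s(c, w) ∈ H` and `hend`).  Choose `ε` as above.  For `b ∈ S \ A`: `dg HA b = dg H b < 2 * mc f b = 2 * mc g b`, so
there is a side `τ b` with outer end `b`, and `s(c, b) ∉ HA`.  If no `z ∈ Z` is on its chain then `chain_succ` gives
`P (insert b A)`, contradiction to the maximality.  So choose `ζ b ∈ Z ⊆ A` on the chain of `τ b`.
`ζ` is injective on `S \ A` (`chain_inj`: `τ b = τ b'`, so `b = b'`).  So `(S \ A).card ≤ A.card`.  If equality holds and
`d ∈ A`: `ζ` is surjective onto `A` (`Finset.surj_on_of_inj_on_of_card_le` or `Finset.eq_of_subset_of_card_le` for the image),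
so `d = ζ b`, and `chain_stuck` gives a family for `(insert s(c, b) HA).erase s(c, d) = H ∪ st c (insert b (A.erase d))`.
-/

namespace Pool.Agent.Lib.MP_94420a_co

variable {V : Type} [DecidableEq V] [Fintype V]

theorem chain_add {k : ℕ} {H : Finset (Sym2 V)} {f : Fin k → List V} (hf : PF H f) {c v : V}
    (hvc : v ≠ c) (hv : s(c, v) ∉ H)
    (hlt : ((nb H c).filter fun w => dg H w = 2 * mc f w).card + dg H v < 2 * mc f v) :
    ∃ g : Fin k → List V, PF (insert s(c, v) H) g ∧ mc g c = mc f c + 1 ∧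
      ∀ w, w ≠ c → mc g w = mc f w := by
  classical
  obtain ⟨Z, hZ⟩ : ∃ Z : Finset V, Z = (nb H c).filter fun w => dg H w = 2 * mc f w := ⟨_, rfl⟩
  obtain ⟨T, hT⟩ : ∃ T : Finset (Fin k × Bool),
      T = Finset.univ.filter fun τ : Fin k × Bool => out c (f τ.1) τ.2 = some v := ⟨_, rfl⟩
  have h1 : T.card + dg H v = 2 * mc f v := by
    rw [hT]
    exact sides_card hf hvc
  have h2 : Z.card < T.card := by
    rw [← hZ] at hlt
    omega
  have hmT : ∀ {τ}, τ ∈ T → out c (f τ.1) τ.2 = some v := by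
    intro τ hτ
    rw [hT, Finset.mem_filter] at hτ
    exact hτ.2
  obtain ⟨τ₀, -⟩ : T.Nonempty := Finset.card_pos.1 (by omega)
  have hex : ∀ w, ∃ τ : Fin k × Bool, s(c, w) ∈ H → w ∉ Z → out c (f τ.1) τ.2 = some w := by
    intro w
    by_cases hw : s(c, w) ∈ H
    · by_cases hwZ : w ∈ Z
      · exact ⟨τ₀, fun _ h => absurd hwZ h⟩
      · have h3 : dg H w < 2 * mc f w := by
          refine lt_of_le_of_ne (dg_le_mc hf w) fun h => hwZ ?_
          rw [hZ, Finset.mem_filter, mem_nb]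
          exact ⟨hw, h⟩
        obtain ⟨i, hi⟩ := (isEnd_iff_mc hf w).2 h3
        have hwc : w ≠ c := by
          rintro rfl
          have h4 := hw
          rw [← hf.2.2, Finset.mem_biUnion] at h4
          obtain ⟨j, -, hj⟩ := h4
          exact Ll_le (hf.1 j) _ hj (Sym2.mk_isDiag_iff.2 rfl)
        obtain ⟨b, hb⟩ := out_of_isEnd (hf.1 i) hi hwc
        exact ⟨(i, b), fun _ _ => hb⟩
    · exact ⟨τ₀, fun h => absurd h hw⟩
  choose ε hε using hex
  by_cases hno : ∃ τ ∈ T, ∀ z ∈ Z, ¬ Chn f c ε Z τ z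
  · obtain ⟨τ, hτ, hno⟩ := hno
    exact chain_succ hf hε (hmT hτ) hv hno
  · exfalso
    have h3 : ∀ τ, ∃ z, τ ∈ T → z ∈ Z ∧ Chn f c ε Z τ z := by
      intro τ
      by_cases hτ : τ ∈ T
      · by_contra h4
        refine hno ⟨τ, hτ, fun z hz h5 => h4 ⟨z, fun _ => ⟨hz, h5⟩⟩⟩
      · exact ⟨v, fun h => absurd h hτ⟩
    choose ζ hζ using h3
    refine absurd (Finset.card_le_card_of_injOn ζ (fun τ hτ => (hζ τ hτ).1) ?_) (not_le.2 h2)
    intro τ hτ τ' hτ' h4
    have h5 := (hζ τ hτ).2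
    rw [h4] at h5
    exact chain_inj hf hε (hmT hτ) (hmT hτ') hv hv h5 (hζ τ' hτ').2

private theorem add_s_inj {c a b : V} (h : s(c, a) = s(c, b)) : a = b := by
  rcases Sym2.eq_iff.1 h with ⟨_, h2⟩ | ⟨h1, h2⟩
  · exact h2
  · exact h2.trans h1

private theorem add_dg {H : Finset (Sym2 V)} {c w : V} {A : Finset V} (hwc : w ≠ c) (hwA : w ∉ A) :
    dg (H ∪ st c A) w = dg H w := by
  unfold dg
  rw [Finset.filter_union]
  have h : (st c A).filter (fun e => w ∈ e) = ∅ := by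
    rw [Finset.filter_eq_empty_iff]
    intro e he hw
    obtain ⟨a, ha, rfl⟩ := mem_st.1 he
    rcases Sym2.mem_iff.1 hw with h1 | h1
    · exact hwc h1
    · exact hwA (h1 ▸ ha)
  rw [h, Finset.union_empty]

omit [Fintype V] in
private theorem add_Ll {k : ℕ} {H : Finset (Sym2 V)} {f : Fin k → List V} (hf : PF H f) : Ll H := by
  intro e he
  rw [← hf.2.2, Finset.mem_biUnion] at he
  obtain ⟨i, _, hi⟩ := he
  exact Ll_le (hf.1 i) e hi

omit [Fintype V] in
private theorem add_side {k : ℕ} {H : Finset (Sym2 V)} {f : Fin k → List V} (hf : PF H f) {c w : V}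
    (hwc : w ≠ c) (h : dg H w < 2 * mc f w) :
    ∃ τ : Fin k × Bool, out c (f τ.1) τ.2 = some w := by
  obtain ⟨i, hi⟩ := (isEnd_iff_mc hf w).2 h
  obtain ⟨b, hb⟩ := out_of_isEnd (hf.1 i) hi hwc
  exact ⟨(i, b), hb⟩

/-- The family obtained after adding the star with leaves `A`. -/
private def AddP {k : ℕ} (H : Finset (Sym2 V)) (f : Fin k → List V) (c : V) (A : Finset V) : Prop :=
  ∃ g : Fin k → List V, PF (H ∪ st c A) g ∧ mc g c = mc f c + A.card ∧
    ∀ w, w ≠ c → mc g w = mc f w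

theorem star2 {k : ℕ} {H : Finset (Sym2 V)} {f : Fin k → List V} (hf : PF H f) {c : V}
    {S : Finset V} (hcS : c ∉ S) (hS : ∀ a ∈ S, s(c, a) ∉ H)
    (hend : ∀ w, (s(c, w) ∈ H ∨ w ∈ S) → dg H w < 2 * mc f w) (d : V) :
    ∃ A ⊆ S, ∃ g : Fin k → List V, PF (H ∪ st c A) g ∧ mc g c = mc f c + A.card ∧
      (∀ w, w ≠ c → mc g w = mc f w) ∧ (S \ A).card ≤ A.card ∧
      ((S \ A).card = A.card → d ∉ A) := by
  classical
  rcases isEmpty_or_nonempty (Fin k × Bool) with hk | hk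
  · have hS0 : S = ∅ := by
      rw [Finset.eq_empty_iff_forall_notMem]
      intro b hb
      have h1 := hend b (Or.inr hb)
      have h2 : mc f b = 0 := by
        rw [mc, Finset.card_eq_zero, Finset.eq_empty_iff_forall_notMem]
        intro i _
        exact hk.false (i, true)
      rw [h2] at h1
      exact absurd h1 (Nat.not_lt_zero _)
    subst hS0
    exact ⟨∅, Finset.Subset.refl _, f, by simpa [st] using hf, by simp, fun _ _ => rfl,
      by simp, fun _ => by simp⟩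
  have hne : (S.powerset.filter fun A => AddP H f c A).Nonempty :=
    ⟨∅, Finset.mem_filter.2 ⟨Finset.empty_mem_powerset S, f, by simpa [st] using hf, by simp,
      fun _ _ => rfl⟩⟩
  obtain ⟨A, hA, hmax⟩ := Finset.exists_max_image _ Finset.card hne
  rw [Finset.mem_filter, Finset.mem_powerset] at hA
  obtain ⟨hAS, g, hg, hgc, hgw⟩ := hA
  set HA := H ∪ st c A with hHA
  have hcA : c ∉ A := fun h => hcS (hAS h)
  have hnst : ∀ w, w ∉ A → s(c, w) ∉ st c A := by
    intro w hw h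
    obtain ⟨a, ha, hwa⟩ := mem_st.1 h
    exact hw ((add_s_inj hwa) ▸ ha)
  set Z := A.filter fun w => dg HA w = 2 * mc g w with hZ
  have hlt : ∀ w, s(c, w) ∈ HA → w ∉ Z → w ≠ c ∧ dg HA w < 2 * mc g w := by
    intro w hw hwZ
    have hwc : w ≠ c := by
      rintro rfl
      exact add_Ll hg _ hw (by simp)
    refine ⟨hwc, ?_⟩
    by_cases hwA : w ∈ A
    · exact lt_of_le_of_ne (dg_le_mc hg w) fun h => hwZ (Finset.mem_filter.2 ⟨hwA, h⟩)
    · rw [hHA, add_dg hwc hwA, hgw w hwc]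
      refine hend w (Or.inl ?_)
      rcases Finset.mem_union.1 hw with h | h
      · exact h
      · exact absurd h (hnst w hwA)
  have hexε : ∀ w, ∃ τ : Fin k × Bool, s(c, w) ∈ HA → w ∉ Z →
      out c (g τ.1) τ.2 = some w := by
    intro w
    by_cases h : s(c, w) ∈ HA ∧ w ∉ Z
    · obtain ⟨τ, hτ⟩ := add_side hg (hlt w h.1 h.2).1 (hlt w h.1 h.2).2
      exact ⟨τ, fun _ _ => hτ⟩
    · exact ⟨Classical.arbitrary _, fun h1 h2 => absurd ⟨h1, h2⟩ h⟩
  choose ε hε using hexε
  have hnot : ∀ b ∈ S \ A, s(c, b) ∉ HA := by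
    intro b hb h
    rw [Finset.mem_sdiff] at hb
    rcases Finset.mem_union.1 h with h | h
    · exact hS b hb.1 h
    · exact hnst b hb.2 h
  have hins : ∀ b, insert s(c, b) HA = H ∪ st c (insert b A) := by
    intro b
    ext e
    simp only [hHA, Finset.mem_insert, Finset.mem_union, mem_st]
    constructor
    · rintro (h | h | ⟨a, ha, h⟩)
      · exact Or.inr ⟨b, Or.inl rfl, h⟩
      · exact Or.inl h
      · exact Or.inr ⟨a, Or.inr ha, h⟩
    · rintro (h | ⟨a, rfl | ha, h⟩)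
      · exact Or.inr (Or.inl h)
      · exact Or.inl h
      · exact Or.inr (Or.inr ⟨a, ha, h⟩)
  have hexζ : ∀ b, ∃ (τ : Fin k × Bool) (z : V), b ∈ S \ A →
      out c (g τ.1) τ.2 = some b ∧ z ∈ Z ∧ Chn g c ε Z τ z := by
    intro b
    by_cases hb : b ∈ S \ A
    swap
    · exact ⟨Classical.arbitrary _, c, fun h => absurd h hb⟩
    have hb' := Finset.mem_sdiff.1 hb
    have hbc : b ≠ c := fun h => hcS (h ▸ hb'.1)
    obtain ⟨τ, hτ⟩ := add_side (c := c) hg hbc (by
      rw [hHA, add_dg hbc hb'.2, hgw b hbc]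
      exact hend b (Or.inr hb'.1))
    by_contra hcon
    push Not at hcon
    have hno : ∀ z ∈ Z, ¬Chn g c ε Z τ z := fun z hz => (hcon τ z).2 hτ hz
    obtain ⟨g', h1, h2, h3⟩ := chain_succ hg hε hτ (hnot b hb) hno
    have hP : AddP H f c (insert b A) :=
      ⟨g', by rw [← hins b]; exact h1, by
        rw [h2, hgc, Finset.card_insert_of_notMem hb'.2, Nat.add_assoc],
        fun w hw => (h3 w hw).trans (hgw w hw)⟩
    have hle := hmax (insert b A) (Finset.mem_filter.2 ⟨Finset.mem_powerset.2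
      (Finset.insert_subset_iff.2 ⟨hb'.1, hAS⟩), hP⟩)
    rw [Finset.card_insert_of_notMem hb'.2] at hle
    exact absurd hle (Nat.not_succ_le_self _)
  choose τ ζ hτζ using hexζ
  have hinj : Set.InjOn ζ (S \ A : Finset V) := by
    intro b hb b' hb' hbb
    have hb := Finset.mem_coe.1 hb
    have hb' := Finset.mem_coe.1 hb'
    obtain ⟨h1, h2, h3⟩ := hτζ b hb
    obtain ⟨h1', h2', h3'⟩ := hτζ b' hb'
    rw [← hbb] at h3'
    have h4 := chain_inj hg hε h1 h1' (hnot b hb) (hnot b' hb') h3 h3'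
    rw [h4, h1'] at h1
    exact (Option.some.inj h1).symm
  have hmaps : ∀ b ∈ S \ A, ζ b ∈ A := fun b hb =>
    (Finset.mem_filter.1 (hτζ b hb).2.1).1
  have hcard : (S \ A).card ≤ A.card := Finset.card_le_card_of_injOn ζ hmaps hinj
  by_cases heq : (S \ A).card = A.card ∧ d ∈ A
  swap
  · exact ⟨A, hAS, g, hg, hgc, hgw, hcard, fun h hd => heq ⟨h, hd⟩⟩
  have himg : (S \ A).image ζ = A := by
    refine Finset.eq_of_subset_of_card_le ?_ ?_
    · intro z hz
      obtain ⟨b, hb, rfl⟩ := Finset.mem_image.1 hz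
      exact hmaps b hb
    · rw [Finset.card_image_of_injOn hinj, heq.1]
  obtain ⟨b, hb, hbd⟩ := Finset.mem_image.1 (himg.symm ▸ heq.2 : d ∈ (S \ A).image ζ)
  have hb' := Finset.mem_sdiff.1 hb
  have hdb : d ≠ b := fun h => hb'.2 (h ▸ heq.2)
  obtain ⟨h1, h2, h3⟩ := hτζ b hb
  rw [hbd] at h2 h3
  obtain ⟨g', k1, k2⟩ := chain_stuck hg hε h1 (hnot b hb) h2 h3
  have hset : (insert s(c, b) HA).erase s(c, d) = H ∪ st c (insert b (A.erase d)) := by
    ext e
    simp only [hHA, Finset.mem_insert, Finset.mem_union, Finset.mem_erase, mem_st]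
    constructor
    · rintro ⟨hne, h | h | ⟨a, ha, h⟩⟩
      · exact Or.inr ⟨b, Or.inl rfl, h⟩
      · exact Or.inl h
      · refine Or.inr ⟨a, Or.inr ⟨?_, ha⟩, h⟩
        rintro rfl
        exact hne h
    · rintro (h | ⟨a, rfl | ⟨had, ha⟩, h⟩)
      · exact ⟨fun he => hS d (hAS heq.2) (he ▸ h), Or.inr (Or.inl h)⟩
      · exact ⟨fun he => hdb (add_s_inj (he.symm.trans h)), Or.inl h⟩
      · exact ⟨fun he => had (add_s_inj (h.symm.trans he)), Or.inr (Or.inr ⟨a, ha, h⟩)⟩
  have hbA : b ∉ A.erase d := fun h => hb'.2 (Finset.mem_of_mem_erase h)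
  have hcA' : (insert b (A.erase d)).card = A.card := by
    rw [Finset.card_insert_of_notMem hbA, Finset.card_erase_add_one heq.2]
  have hA'S : insert b (A.erase d) ⊆ S :=
    Finset.insert_subset_iff.2 ⟨hb'.1, (Finset.erase_subset _ _).trans hAS⟩
  have hsd : (S \ insert b (A.erase d)).card = (S \ A).card := by
    rw [Finset.card_sdiff_of_subset hA'S, Finset.card_sdiff_of_subset hAS, hcA']
  refine ⟨insert b (A.erase d), hA'S, g', hset ▸ k1, ?_, ?_, ?_, fun _ => ?_⟩
  · rw [k2 c, hgc, hcA']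
  · intro w hw
    rw [k2 w, hgw w hw]
  · rw [hsd, hcA']
    exact hcard
  · rw [Finset.mem_insert, not_or]
    exact ⟨hdb, Finset.notMem_erase d A⟩

end Pool.Agent.Lib.MP_94420a_co
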