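import Pool.Agent.Lib.MP_94420a_co_T.Gd

/-!
# The star step at an arbitrary vertex

`E' = E \ st c (nb E c ∩ ev E)`, `s = (nb E c ∩ ev E).card ≥ 1`.  Degrees: `dg_sd_leaf`, `dg_sd_center`, `dg_sd_other`.
`bg_WW`: `WW_rem` with `R = ∅`, `S = nb E c ∩ ev E = nb E c ∩ fr E ∅`: `WW E' ∅ + s + wt E ∅ c = WW E ∅ + wt E' ∅ c`;
`c` is not isolated in `E`, so `wt E ∅ c` is `3` or `4`, and if `s` is even then `dg E' c` has the parity of `dg E c`.
`bg_od`: `od E' ⊆ od E ∪ S`, and if `s` is odd `od E' ⊆ od E ∪ S ∪ {c}`.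
`bg_np`: a vertex `v ≠ c` that is not isolated in `E` is not isolated in `E'` (`v ∈ S`: `dg E v` even and `≠ 0`, so
`dg E' v = dg E v - 1 ≠ 0`).  So `od E ∪ ev E ⊆ (od E' ∪ ev E') ∪ {c}`; `od`, `ev` are disjoint.
`bg_tri`: `tri E' ⊆ tri E`: let `nb E' v = {a, b}`, `nb E' a = {v, b}`, `nb E' b = {v, a}`, `a ≠ b`.  The three vertices are different
(`not_mem_nb_self`) and have degree `2` in `E'` (`card_nb`).  None is in `S` (the degree in `E'` would be odd).
None is `c`: if e.g. `v = c`, then `a ∈ nb E c`, `a ∉ S`, so `dg E a = dg E' a = 2` is even, so `a ∈ nb E c ∩ ev E = S`,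
contradiction.  So the degrees and (as `nb E' w ⊆ nb E w`, `card_nb`) the neighbourhoods in `E` are the same.
-/

namespace Pool.Agent.Lib.MP_94420a_co

variable {V : Type} [DecidableEq V] [Fintype V]

private theorem bigG_mem {E : Finset (Sym2 V)} {v : V} : v ∈ od E ∪ ev E ↔ dg E v ≠ 0 := by
  rw [Finset.mem_union, mem_od, mem_ev]
  constructor
  · rintro (h | h)
    · intro h0
      rw [h0] at h
      exact absurd h (by decide)
    · exact h.2
  · intro h
    rcases Nat.even_or_odd (dg E v) with h1 | h1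
    · exact Or.inr ⟨h1, h⟩
    · exact Or.inl h1

private theorem bigG_card (E : Finset (Sym2 V)) :
    (od E ∪ ev E).card = (od E).card + (ev E).card := by
  refine Finset.card_union_of_disjoint (Finset.disjoint_left.2 fun v h1 h2 => ?_)
  rw [mem_od] at h1
  rw [mem_ev] at h2
  exact (Nat.not_even_iff_odd.2 h1) h2.1

private theorem bigG_c {E : Finset (Sym2 V)} (hE : Ll E) (c : V) : c ∉ nb E c ∩ ev E := fun h =>
  not_mem_nb_self hE c (Finset.mem_inter.1 h).1

theorem bg_WW {E : Finset (Sym2 V)} (hE : Ll E) {c : V} (hs : (nb E c ∩ ev E).Nonempty) :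
    WW (E \ st c (nb E c ∩ ev E)) ∅ + (nb E c ∩ ev E).card ≤
      WW E ∅ + (nb E c ∩ ev E).card % 2 := by
  have hS : nb E c ∩ ev E ⊆ nb E c := Finset.inter_subset_left
  have hS' : nb E c ∩ ev E ⊆ fr E ∅ := by
    intro v hv
    rw [mem_fr]
    exact ⟨mem_ev.1 (Finset.mem_inter.1 hv).2, Finset.notMem_empty v⟩
  have h1 := WW_rem hE hS hS'
  have h2 := dg_sd_center hS (bigG_c hE c)
  obtain ⟨a, ha⟩ := hs
  have h3 := (dg_ne_zero (Finset.mem_inter.1 ha).1).1
  have h4 : wt (E \ st c (nb E c ∩ ev E)) ∅ c ≤ wt E ∅ c + (nb E c ∩ ev E).card % 2 := by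
    have h5 := wt_le_four (E := E \ st c (nb E c ∩ ev E)) (Finset.notMem_empty c)
    rcases Nat.even_or_odd (dg E c) with h6 | h6
    · have h7 : wt E ∅ c = 4 := wt_fr (mem_fr.2 ⟨⟨h6, h3⟩, Finset.notMem_empty c⟩)
      omega
    · rw [wt_odd h6]
      rcases Nat.even_or_odd (nb E c ∩ ev E).card with h8 | h8
      · have h9 : Odd (dg (E \ st c (nb E c ∩ ev E)) c) := by
          rw [← h2] at h6
          exact (Nat.odd_add.1 h6).2 h8
        rw [wt_odd h9]
        exact Nat.le_add_right _ _
      · rw [Nat.odd_iff.1 h8]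
        exact h5
  omega

theorem bg_od {E : Finset (Sym2 V)} (hE : Ll E) (c : V) :
    (od (E \ st c (nb E c ∩ ev E))).card ≤
      (od E).card + (nb E c ∩ ev E).card + (nb E c ∩ ev E).card % 2 := by
  have hS : nb E c ∩ ev E ⊆ nb E c := Finset.inter_subset_left
  have hc := bigG_c hE c
  have h2 := dg_sd_center hS hc
  rcases Nat.even_or_odd (nb E c ∩ ev E).card with h8 | h8
  · have h3 : od (E \ st c (nb E c ∩ ev E)) ⊆ od E ∪ (nb E c ∩ ev E) := by
      intro v hv
      rw [mem_od] at hv
      rw [Finset.mem_union]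
      by_cases hvS : v ∈ nb E c ∩ ev E
      · exact Or.inr hvS
      · left
        rw [mem_od]
        by_cases hvc : v = c
        · subst hvc
          rw [← h2]
          exact hv.add_even h8
        · rw [dg_sd_other hvc hvS] at hv
          exact hv
    have h4 := (Finset.card_le_card h3).trans (Finset.card_union_le _ _)
    rw [Nat.even_iff.1 h8]
    exact h4
  · have h3 : od (E \ st c (nb E c ∩ ev E)) ⊆ (od E ∪ (nb E c ∩ ev E)) ∪ {c} := by
      intro v hv
      rw [mem_od] at hv
      rw [Finset.mem_union, Finset.mem_union, Finset.mem_singleton]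
      by_cases hvc : v = c
      · exact Or.inr hvc
      · left
        by_cases hvS : v ∈ nb E c ∩ ev E
        · exact Or.inr hvS
        · left
          rw [mem_od]
          rw [dg_sd_other hvc hvS] at hv
          exact hv
    have h4 := (Finset.card_le_card h3).trans (Finset.card_union_le _ _)
    have h5 := Finset.card_union_le (od E) (nb E c ∩ ev E)
    rw [Finset.card_singleton] at h4
    rw [Nat.odd_iff.1 h8]
    omega

theorem bg_np {E : Finset (Sym2 V)} (hE : Ll E) (c : V) :
    (od E).card + (ev E).card ≤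
      (od (E \ st c (nb E c ∩ ev E))).card + (ev (E \ st c (nb E c ∩ ev E))).card + 1 := by
  have hS : nb E c ∩ ev E ⊆ nb E c := Finset.inter_subset_left
  have hc := bigG_c hE c
  rw [← bigG_card, ← bigG_card]
  have h3 : od E ∪ ev E ⊆
      insert c (od (E \ st c (nb E c ∩ ev E)) ∪ ev (E \ st c (nb E c ∩ ev E))) := by
    intro v hv
    rw [bigG_mem] at hv
    rw [Finset.mem_insert, bigG_mem]
    by_cases hvc : v = c
    · exact Or.inl hvc
    · right
      by_cases hvS : v ∈ nb E c ∩ ev E
      · have h4 := dg_sd_leaf hS hc hvS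
        have h5 := (mem_ev.1 (Finset.mem_inter.1 hvS).2).1
        intro h6
        rw [h6, Nat.zero_add] at h4
        rw [← h4] at h5
        exact absurd h5 (by decide)
      · rw [dg_sd_other hvc hvS]
        exact hv
  exact (Finset.card_le_card h3).trans (Finset.card_insert_le _ _)

end Pool.Agent.Lib.MP_94420a_co
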