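import Pool.Agent.Lib.MP_94420a_co_T.BigG

/-!
The proof of `bg_tri` is in the header of `BigG.lean`.
-/

namespace Pool.Agent.Lib.MP_94420a_co

variable {V : Type} [DecidableEq V] [Fintype V]

private theorem BigT_leaf {E : Finset (Sym2 V)} (hE : Ll E) (c : V) {w : V}
    (hw : (nb (E \ st c (nb E c ∩ ev E)) w).card = 2) : w ∉ nb E c ∩ ev E := by
  intro hwS
  have hc : c ∉ nb E c ∩ ev E := fun h => not_mem_nb_self hE c (Finset.mem_inter.1 h).1
  have h1 := dg_sd_leaf Finset.inter_subset_left hc hwS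
  rw [← card_nb (Ll_sd hE _) w, hw] at h1
  have h2 := (mem_ev.1 (Finset.mem_inter.1 hwS).2).1
  rw [← h1] at h2
  exact absurd h2 (by decide)

private theorem BigT_nb {E : Finset (Sym2 V)} (hE : Ll E) (c : V) {w x y : V} (hxy : x ≠ y)
    (hw : nb (E \ st c (nb E c ∩ ev E)) w = {x, y})
    (hx : (nb (E \ st c (nb E c ∩ ev E)) x).card = 2) : nb E w = {x, y} := by
  have hw2 : (nb (E \ st c (nb E c ∩ ev E)) w).card = 2 := by
    rw [hw]
    exact Finset.card_pair hxy
  have hwS := BigT_leaf hE c hw2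
  have hxS := BigT_leaf hE c hx
  have hsub : ∀ z, nb (E \ st c (nb E c ∩ ev E)) z ⊆ nb E z := by
    intro z a ha
    rw [mem_nb] at ha ⊢
    exact (Finset.mem_sdiff.1 ha).1
  have hxw : x ∈ nb (E \ st c (nb E c ∩ ev E)) w := by
    rw [hw]
    exact Finset.mem_insert_self x {y}
  have hwc : w ≠ c := by
    rintro rfl
    have h1 : x ∈ nb E w := hsub w hxw
    have h2 : x ≠ w := by
      rintro rfl
      exact not_mem_nb_self hE x h1
    have h3 := dg_sd_other (E := E) h2 hxS
    rw [← card_nb (Ll_sd hE _) x, hx] at h3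
    refine hxS (Finset.mem_inter.2 ⟨h1, mem_ev.2 ⟨?_, ?_⟩⟩)
    · rw [← h3]
      exact even_two
    · rw [← h3]
      exact two_ne_zero
  have h4 := dg_sd_other (E := E) hwc hwS
  rw [← card_nb (Ll_sd hE _) w, hw2, ← card_nb hE w] at h4
  rw [← hw]
  exact (Finset.eq_of_subset_of_card_le (hsub w) (by rw [hw2, h4])).symm

theorem bg_tri {E : Finset (Sym2 V)} (hE : Ll E) (c : V) :
    tri (E \ st c (nb E c ∩ ev E)) ⊆ tri E := by
  intro v hv
  obtain ⟨a, b, hab, h1, h2, h3⟩ := mem_tri.1 hv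
  have hE' : Ll (E \ st c (nb E c ∩ ev E)) := Ll_sd hE _
  have hva : v ≠ a := by
    rintro rfl
    refine not_mem_nb_self hE' v ?_
    rw [h1]
    exact Finset.mem_insert_self v {b}
  have hvb : v ≠ b := by
    rintro rfl
    refine not_mem_nb_self hE' v ?_
    rw [h1]
    exact Finset.mem_insert_of_mem (Finset.mem_singleton_self v)
  have c1 : (nb (E \ st c (nb E c ∩ ev E)) v).card = 2 := by
    rw [h1]
    exact Finset.card_pair hab
  have c2 : (nb (E \ st c (nb E c ∩ ev E)) a).card = 2 := by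
    rw [h2]
    exact Finset.card_pair hvb
  exact mem_tri.2 ⟨a, b, hab, BigT_nb hE c hab h1 c2, BigT_nb hE c hvb h2 c1,
    BigT_nb hE c hva h3 c1⟩

end Pool.Agent.Lib.MP_94420a_co
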