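import Pool.Agent.Lib.MP_94420a_co_T.Mc
import Pool.Agent.Lib.MP_94420a_co_T.Abs2

/-!
# Chains of sides of paths

`H` is a union of `k` edge-disjoint paths `f i`, `c` the centre, `v` a vertex with `s(c, v) ∉ H`, `τ` a side with
outer end `v`.  The chain of `τ` either meets no bad vertex and then `s(c, v)` can be added
(`chain_succ`), or it ends in a bad vertex `z` and `s(c, v)` can be exchanged for `s(c, z)`
(`chain_stuck`).

Proof.  Take `T = Fin k × Bool`, `out τ = out c (f τ.1) τ.2`, `inn τ = inn c (f τ.1) τ.2`, `A w = (s(c, w) ∈ H)`: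
`hinn`: `inn_mem`; `hinj`: both edges are `s(c, z)`, so the indices are equal (the sets `le (f i)` are
disjoint) and `inn_inj` gives the side (see `star_lemma`); `hsur`: `inn_of_mem`.
`chain_inj` is `absC_inj`.  For the others let `F` be as in `absC_main` and
`g i = md c (f i) (decide ((i, false) ∈ F)) (decide ((i, true) ∈ F))`.
* `mem_le_g` describes `le (g i)`; disjointness exactly as in `star_lemma`.
* union: let `B` be the set of the `z ∈ Z` on the chain (empty resp. `{z}`).  An edge of `le (g i)` with `c ∉ e` is in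
  `H`; `s(c, w)` with `τ ∈ F`, `out τ = some w`: `w = v` or `s(c, w) ∈ H` and `w ∉ Z` (item 1); `s(c, w)` with `τ ∉ F`,
  `inn τ = some w`: in `H`, and if `w ∈ Z` is on the chain then `τ ∈ F` by item 6.  Conversely `s(c, v)`: item 4,
  `s(c, w) ∈ H`: item 5.
* nodup: `md_nodup`; if `c ∉ f i` and both sides are in `F`, then both are in the filter `inn = none`, of card `≤ 1`.
* `mc g w = mc f w` for `w ≠ c`: `w ∈ md c l p q ↔ w ∈ l` (see `mem_md`).  For `c`: `c ∈ g i` iff `c ∈ f i` or `(i, false) ∈ F` or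
  `(i, true) ∈ F`.  If `τ ∈ F`, `inn τ = none` then `c ∉ f τ.1` (if `c ∈ f i` and `inn c (f i) b = none` then
  `out c (f i) b = none`); conversely `c ∉ f τ.1` implies `inn τ = none`.  So the `i` with `c ∈ g i`, `c ∉ f i` are the first
  components of the elements of the filter `inn = none`, whose card is `1` resp. `0` (for the injectivity: card `≤ 1`).
-/

namespace Pool.Agent.Lib.MP_94420a_co

variable {V : Type} [DecidableEq V] [Fintype V]

omit [Fintype V] in
theorem mem_md {x w : V} (hw : w ≠ x) (l : List V) (p q : Bool) : w ∈ md x l p q ↔ w ∈ l := by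
  unfold md
  by_cases hx : x ∈ l
  · rw [if_pos hx]
    conv_rhs => rw [← bf_af hx]
    cases p <;> cases q <;> simp
  · rw [if_neg hx]
    cases p <;> cases q <;> simp [hw]

omit [Fintype V] in
theorem self_mem_md {x : V} (l : List V) (p q : Bool) :
    x ∈ md x l p q ↔ x ∈ l ∨ p = true ∨ q = true := by
  unfold md
  by_cases hx : x ∈ l
  · rw [if_pos hx]
    simp [hx]
  · rw [if_neg hx]
    cases p <;> cases q <;> simp [hx]

/-- The chain of a side, for the family `f` and the centre `c`. -/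
def Chn {k : ℕ} (f : Fin k → List V) (c : V) (ε : V → Fin k × Bool) (Z : Finset V)
    (τ : Fin k × Bool) (z : V) : Prop :=
  AbsC (fun σ : Fin k × Bool => inn c (f σ.1) σ.2) ε Z τ z

omit [Fintype V] in
private theorem Chain_inn_none {x : V} {l : List V} {b : Bool} (h : x ∉ l) :
    inn x l b = none := by
  unfold inn
  rw [if_neg h]

omit [Fintype V] in
private theorem Chain_out_none {x : V} {l : List V} {b : Bool} (hx : x ∈ l)
    (h : inn x l b = none) : out x l b = none := by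
  unfold inn at h
  unfold out
  rw [if_pos hx] at h ⊢
  cases b
  · simp only [Bool.false_eq_true, if_false] at h ⊢
    rw [List.getLast?_eq_none_iff] at h
    rw [h]
    rfl
  · simp only [if_true] at h ⊢
    rw [List.head?_eq_none_iff] at h
    rw [h]
    rfl

omit [DecidableEq V] [Fintype V] in
private theorem Chain_sym {x v w : V} (h : s(x, v) = s(x, w)) : v = w := Sym2.congr_right.mp h

omit [Fintype V] in
private theorem Chain_hinn {k : ℕ} {H : Finset (Sym2 V)} {f : Fin k → List V} (hf : PF H f)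
    {c : V} : ∀ (τ : Fin k × Bool) z, inn c (f τ.1) τ.2 = some z → s(c, z) ∈ H := by
  intro τ z hz
  rw [← hf.2.2, Finset.mem_biUnion]
  exact ⟨τ.1, Finset.mem_univ _, inn_mem (hf.1 τ.1) hz⟩

omit [Fintype V] in
private theorem Chain_hinj {k : ℕ} {H : Finset (Sym2 V)} {f : Fin k → List V} (hf : PF H f)
    {c : V} : ∀ (τ τ' : Fin k × Bool) z, inn c (f τ.1) τ.2 = some z →
      inn c (f τ'.1) τ'.2 = some z → τ = τ' := by
  rintro ⟨i, b⟩ ⟨j, d⟩ z h h'
  have h1 := inn_mem (hf.1 i) h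
  have h2 := inn_mem (hf.1 j) h'
  have hij : i = j := by
    by_contra hij
    exact Finset.disjoint_left.mp (hf.2.1 i j hij) h1 h2
  subst hij
  have hbc : b = d := inn_inj (hf.1 i) h h'
  rw [hbc]

theorem chain_inj {k : ℕ} {H : Finset (Sym2 V)} {f : Fin k → List V} (hf : PF H f) {c : V}
    {ε : V → Fin k × Bool} {Z : Finset V}
    (hε : ∀ w, s(c, w) ∈ H → w ∉ Z → out c (f (ε w).1) (ε w).2 = some w)
    {τ τ' : Fin k × Bool} {v v' : V} (hτ : out c (f τ.1) τ.2 = some v)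
    (hτ' : out c (f τ'.1) τ'.2 = some v') (hv : s(c, v) ∉ H) (hv' : s(c, v') ∉ H) {z : V}
    (h : Chn f c ε Z τ z) (h' : Chn f c ε Z τ' z) : τ = τ' := by
  exact absC_inj (out := fun σ : Fin k × Bool => out c (f σ.1) σ.2)
    (inn := fun σ : Fin k × Bool => inn c (f σ.1) σ.2) (A := fun w => s(c, w) ∈ H)
    hε (Chain_hinn hf) (Chain_hinj hf) hτ hτ' hv hv' h h'

private theorem Chain_core {k : ℕ} {H : Finset (Sym2 V)} {f : Fin k → List V} (hf : PF H f)
    {c : V} {ε : V → Fin k × Bool} {Z : Finset V}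
    (hε : ∀ w, s(c, w) ∈ H → w ∉ Z → out c (f (ε w).1) (ε w).2 = some w)
    {τ : Fin k × Bool} {v : V} (hτ : out c (f τ.1) τ.2 = some v) (hv : s(c, v) ∉ H) :
    ∃ (g : Fin k → List V) (m : ℕ), (∀ i, (g i).Nodup) ∧
      (∀ i j, i ≠ j → Disjoint (le (g i)) (le (g j))) ∧
      (∀ e, (∃ i, e ∈ le (g i)) ↔ (e = s(c, v) ∨ e ∈ H) ∧
        ¬∃ z ∈ Z, Chn f c ε Z τ z ∧ e = s(c, z)) ∧
      (∀ w, w ≠ c → mc g w = mc f w) ∧ mc g c = mc f c + m ∧
      ((∀ z ∈ Z, ¬Chn f c ε Z τ z) → m = 1) ∧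
      (∀ z ∈ Z, Chn f c ε Z τ z → m = 0 ∧ ∀ z' ∈ Z, Chn f c ε Z τ z' → z' = z) := by
  obtain ⟨hn, hdis, hun⟩ := id hf
  have hleH : ∀ i, le (f i) ⊆ H := by
    intro i e he
    rw [← hun, Finset.mem_biUnion]
    exact ⟨i, Finset.mem_univ i, he⟩
  have hHle : ∀ e ∈ H, ∃ i, e ∈ le (f i) := by
    intro e he
    rw [← hun, Finset.mem_biUnion] at he
    obtain ⟨i, -, hi⟩ := he
    exact ⟨i, hi⟩
  have hinj := Chain_hinj hf (c := c)
  have hinn := Chain_hinn hf (c := c)
  have hsur : ∀ a, s(c, a) ∈ H → ∃ σ : Fin k × Bool, inn c (f σ.1) σ.2 = some a := by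
    intro a ha
    obtain ⟨i, hi⟩ := hHle _ ha
    obtain ⟨b, hb⟩ := inn_of_mem (hn i) hi
    exact ⟨(i, b), hb⟩
  obtain ⟨F, h1, h2, h3, h4, h5, h6, h7, h8⟩ := absC_main
    (out := fun σ : Fin k × Bool => out c (f σ.1) σ.2)
    (inn := fun σ : Fin k × Bool => inn c (f σ.1) σ.2) (A := fun w => s(c, w) ∈ H)
    hε hinn hinj hsur hτ hv
  have hF : ∀ σ ∈ F, ∃ v, out c (f σ.1) σ.2 = some v := by
    intro σ hσ
    obtain ⟨w, -, hw⟩ := h1 σ hσ
    exact ⟨w, hw⟩
  have hmem := mem_le_g hn c F hF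
  have hle1 : (F.filter fun σ : Fin k × Bool => inn c (f σ.1) σ.2 = none).card ≤ 1 := by
    by_cases hz : ∃ z ∈ Z, Chn f c ε Z τ z
    · obtain ⟨z, hz1, hz2⟩ := hz
      have := (h8 z hz1 hz2).1
      omega
    · push Not at hz
      have := h7 hz
      omega
  have hcf : ∀ σ ∈ F, inn c (f σ.1) σ.2 = none → c ∉ f σ.1 := by
    intro σ hσ hσ' hc
    obtain ⟨w, hw⟩ := hF σ hσ
    rw [Chain_out_none hc hσ'] at hw
    exact absurd hw (by simp)
  refine ⟨fun i => md c (f i) (decide ((i, false) ∈ F)) (decide ((i, true) ∈ F)),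
    (F.filter fun σ : Fin k × Bool => inn c (f σ.1) σ.2 = none).card, ?_, ?_, ?_, ?_, ?_, h7, h8⟩
  · intro i
    refine md_nodup (hn i) ?_
    by_contra hcon
    push Not at hcon
    obtain ⟨hc, hp, hq⟩ := hcon
    have hp' := of_decide_eq_true hp
    have hq' := of_decide_eq_true hq
    have h9 := Finset.card_le_one.1 hle1 (i, false)
      (Finset.mem_filter.2 ⟨hp', Chain_inn_none hc⟩) (i, true)
      (Finset.mem_filter.2 ⟨hq', Chain_inn_none hc⟩)
    exact absurd (congrArg Prod.snd h9) (by simp)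
  · intro i j hij
    rw [Finset.disjoint_left]
    intro e hei hej
    rw [hmem] at hei hej
    rcases hei with ⟨hei1, hei2⟩ | ⟨σ, hσ, hσi, u, hu, rfl⟩ | ⟨σ, hσ, hσi, z, hz, rfl⟩
    · rcases hej with ⟨hej1, hej2⟩ | ⟨σ', hσ', hσj, u', hu', rfl⟩ | ⟨σ', hσ', hσj, z', hz', rfl⟩
      · exact Finset.disjoint_left.mp (hdis i j hij) hei2 hej2
      · exact hei1 (Sym2.mem_mk_left _ _)
      · exact hei1 (Sym2.mem_mk_left _ _)
    · rcases hej with ⟨hej1, hej2⟩ | ⟨σ', hσ', hσj, u', hu', he⟩ | ⟨σ', hσ', hσj, z', hz', he⟩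
      · exact hej1 (Sym2.mem_mk_left _ _)
      · have := Chain_sym he
        subst this
        have h9 := h2 σ hσ σ' hσ' (hu.trans hu'.symm)
        exact hij (by rw [← hσi, ← hσj, h9])
      · have := Chain_sym he
        subst this
        exact h3 σ hσ σ' hσ' u hu hz'
    · rcases hej with ⟨hej1, hej2⟩ | ⟨σ', hσ', hσj, u', hu', he⟩ | ⟨σ', hσ', hσj, z', hz', he⟩
      · exact hej1 (Sym2.mem_mk_left _ _)
      · have := Chain_sym he
        subst this
        exact h3 σ' hσ' σ hσ z hu' hz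
      · have := Chain_sym he
        subst this
        have h9 := hinj σ σ' z hz hz'
        exact hij (by rw [← hσi, ← hσj, h9])
  · intro e
    constructor
    · rintro ⟨i, hi⟩
      rw [hmem] at hi
      rcases hi with ⟨hi1, hi2⟩ | ⟨σ, hσ, hσi, u, hu, rfl⟩ | ⟨σ, hσ, hσi, z, hz, rfl⟩
      · refine ⟨Or.inr (hleH i hi2), ?_⟩
        rintro ⟨z, -, -, rfl⟩
        exact hi1 (Sym2.mem_mk_left _ _)
      · obtain ⟨w, hw1, hw2⟩ := h1 σ hσ
        have h9 : w = u := Option.some_injective _ (hw2.symm.trans hu)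
        subst h9
        refine ⟨?_, ?_⟩
        · rcases hw1 with rfl | hw1
          · exact Or.inl rfl
          · exact Or.inr hw1.1
        · rintro ⟨z, hz1, hz2, hz3⟩
          have h10 := Chain_sym hz3
          subst h10
          rcases hw1 with rfl | hw1
          · exact hv (absC_A (A := fun w => s(c, w) ∈ H) hinn hz2)
          · exact hw1.2 hz1
      · refine ⟨Or.inr (hinn σ z hz), ?_⟩
        rintro ⟨z', hz1, hz2, hz3⟩
        have h10 := Chain_sym hz3
        subst h10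
        exact hσ (h6 z hz1 hz2 σ hz)
    · rintro ⟨he, hbad⟩
      rcases he with rfl | he
      · obtain ⟨σ, hσ, hσv⟩ := h4
        exact ⟨σ.1, (hmem σ.1 _).mpr (Or.inr (Or.inl ⟨σ, hσ, rfl, v, hσv, rfl⟩))⟩
      · by_cases hx : c ∈ e
        · obtain ⟨a, rfl⟩ := hx
          rcases h5 a he (fun h => hbad ⟨a, h.1, h.2, rfl⟩) with ⟨σ, hσ, hσa⟩ | ⟨σ, hσ, hσa⟩
          · exact ⟨σ.1, (hmem σ.1 _).mpr (Or.inr (Or.inl ⟨σ, hσ, rfl, a, hσa, rfl⟩))⟩
          · exact ⟨σ.1, (hmem σ.1 _).mpr (Or.inr (Or.inr ⟨σ, hσ, rfl, a, hσa, rfl⟩))⟩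
        · obtain ⟨i, hi⟩ := hHle e he
          exact ⟨i, (hmem i e).mpr (Or.inl ⟨hx, hi⟩)⟩
  · intro w hw
    unfold mc
    congr 1
    refine Finset.filter_congr fun i _ => ?_
    exact mem_md hw _ _ _
  · unfold mc
    have h9 : (Finset.univ.filter fun i : Fin k =>
        c ∈ md c (f i) (decide ((i, false) ∈ F)) (decide ((i, true) ∈ F))) =
        (Finset.univ.filter fun i => c ∈ f i) ∪
          (F.filter fun σ : Fin k × Bool => inn c (f σ.1) σ.2 = none).image Prod.fst := by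
      ext i
      rw [Finset.mem_filter, Finset.mem_union, Finset.mem_filter, Finset.mem_image, self_mem_md,
        decide_eq_true_iff, decide_eq_true_iff]
      constructor
      · rintro ⟨-, h | h | h⟩
        · exact Or.inl ⟨Finset.mem_univ i, h⟩
        · by_cases hc : c ∈ f i
          · exact Or.inl ⟨Finset.mem_univ i, hc⟩
          · exact Or.inr ⟨(i, false), Finset.mem_filter.2 ⟨h, Chain_inn_none hc⟩, rfl⟩
        · by_cases hc : c ∈ f i
          · exact Or.inl ⟨Finset.mem_univ i, hc⟩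
          · exact Or.inr ⟨(i, true), Finset.mem_filter.2 ⟨h, Chain_inn_none hc⟩, rfl⟩
      · rintro (h | ⟨⟨j, b⟩, h, rfl⟩)
        · exact ⟨Finset.mem_univ i, Or.inl h.2⟩
        · refine ⟨Finset.mem_univ _, Or.inr ?_⟩
          have h10 := (Finset.mem_filter.1 h).1
          cases b
          · exact Or.inl h10
          · exact Or.inr h10
    rw [h9, Finset.card_union_of_disjoint, Finset.card_image_of_injOn]
    · intro a ha b hb _
      exact Finset.card_le_one.1 hle1 a ha b hb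
    · rw [Finset.disjoint_left]
      intro i hi hi'
      rw [Finset.mem_image] at hi'
      obtain ⟨σ, hσ, rfl⟩ := hi'
      rw [Finset.mem_filter] at hσ
      exact hcf σ hσ.1 hσ.2 (Finset.mem_filter.1 hi).2

theorem chain_succ {k : ℕ} {H : Finset (Sym2 V)} {f : Fin k → List V} (hf : PF H f) {c : V}
    {ε : V → Fin k × Bool} {Z : Finset V}
    (hε : ∀ w, s(c, w) ∈ H → w ∉ Z → out c (f (ε w).1) (ε w).2 = some w)
    {τ : Fin k × Bool} {v : V} (hτ : out c (f τ.1) τ.2 = some v) (hv : s(c, v) ∉ H)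
    (hno : ∀ z ∈ Z, ¬Chn f c ε Z τ z) :
    ∃ g : Fin k → List V, PF (insert s(c, v) H) g ∧ mc g c = mc f c + 1 ∧
      ∀ w, w ≠ c → mc g w = mc f w := by
  obtain ⟨g, m, h1, h2, h3, h4, h5, h6, -⟩ := Chain_core hf hε hτ hv
  refine ⟨g, ⟨h1, h2, ?_⟩, ?_, h4⟩
  · ext e
    rw [Finset.mem_biUnion, Finset.mem_insert]
    constructor
    · rintro ⟨i, -, hi⟩
      exact ((h3 e).1 ⟨i, hi⟩).1
    · intro he
      obtain ⟨i, hi⟩ := (h3 e).2 ⟨he, by
        rintro ⟨z, hz1, hz2, -⟩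
        exact hno z hz1 hz2⟩
      exact ⟨i, Finset.mem_univ i, hi⟩
  · rw [h5, h6 hno]

theorem chain_stuck {k : ℕ} {H : Finset (Sym2 V)} {f : Fin k → List V} (hf : PF H f) {c : V}
    {ε : V → Fin k × Bool} {Z : Finset V}
    (hε : ∀ w, s(c, w) ∈ H → w ∉ Z → out c (f (ε w).1) (ε w).2 = some w)
    {τ : Fin k × Bool} {v : V} (hτ : out c (f τ.1) τ.2 = some v) (hv : s(c, v) ∉ H)
    {z : V} (hz : z ∈ Z) (hch : Chn f c ε Z τ z) :
    ∃ g : Fin k → List V, PF ((insert s(c, v) H).erase s(c, z)) g ∧ ∀ w, mc g w = mc f w := by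
  obtain ⟨g, m, h1, h2, h3, h4, h5, -, h7⟩ := Chain_core hf hε hτ hv
  obtain ⟨hm, huniq⟩ := h7 z hz hch
  refine ⟨g, ⟨h1, h2, ?_⟩, fun w => ?_⟩
  · ext e
    rw [Finset.mem_biUnion, Finset.mem_erase, Finset.mem_insert]
    constructor
    · rintro ⟨i, -, hi⟩
      have h8 := (h3 e).1 ⟨i, hi⟩
      exact ⟨fun h => h8.2 ⟨z, hz, hch, h⟩, h8.1⟩
    · rintro ⟨hez, he⟩
      obtain ⟨i, hi⟩ := (h3 e).2 ⟨he, by
        rintro ⟨z', hz1, hz2, hz3⟩
        rw [huniq z' hz1 hz2] at hz3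
        exact hez hz3⟩
      exact ⟨i, Finset.mem_univ i, hi⟩
  · by_cases hw : w = c
    · rw [hw, h5, hm, add_zero]
    · exact h4 w hw

end Pool.Agent.Lib.MP_94420a_co
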