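import Pool.Agent.Lib.MP_94420a_co_T.Rain4

/-!
# `k` edge-disjoint cycles through a common vertex are a union of `k + ⌈k / 4⌉` paths

Strong induction on `J.card`.  `J = ∅`: `PN_empty`.  Otherwise `rain4`: `J.biUnion E` is the disjoint union of
`P.biUnion E` and `(J \ P).biUnion E` (as in `ccost_split` of `CCost.lean`), `PN_union` with the induction hypothesis
for `J \ P` (smaller, as `P` is nonempty).  Left alternative:
`P.card + ((J \ P).card + ((J \ P).card + 3) / 4) ≤ J.card + (J.card + 3) / 4`.  Right alternative, `J.card ≤ 4`: `J \ P`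
is empty, `J.card + 1 ≤ J.card + (J.card + 3) / 4`; `J.card > 4`: `P.card = 4`,
`5 + (J.card - 4) + (J.card - 4 + 3) / 4 = J.card + (J.card + 3) / 4`.  `PN_mono`.
-/

namespace Pool.Agent.Lib.MP_94420a_co

variable {V : Type} [DecidableEq V]

private theorem cost4_split {ι : Type} [DecidableEq ι] (E : ι → Finset (Sym2 V)) (J P : Finset ι)
    (hP : P ⊆ J) (hd : ∀ i ∈ J, ∀ j ∈ J, i ≠ j → Disjoint (E i) (E j)) {k k' : ℕ}
    (h : PN (P.biUnion E) k) (h' : PN ((J \ P).biUnion E) k') : PN (J.biUnion E) (k + k') := by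
  have e : J.biUnion E = P.biUnion E ∪ (J \ P).biUnion E := by
    rw [← Finset.union_biUnion, Finset.union_sdiff_of_subset hP]
  rw [e]
  refine PN_union h h' ?_
  rw [Finset.disjoint_biUnion_left]
  intro i hi
  rw [Finset.disjoint_biUnion_right]
  intro j hj
  rw [Finset.mem_sdiff] at hj
  exact hd i (hP hi) j hj.1 fun hij => hj.2 (hij ▸ hi)

private theorem cost4_aux {ι : Type} [DecidableEq ι] (E : ι → Finset (Sym2 V)) (W : ι → Finset V)
    (x : V) (N : ℕ) : ∀ J : Finset ι, J.card = N → (∀ i ∈ J, Cyc (E i) (W i)) →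
      (∀ i ∈ J, ∀ j ∈ J, i ≠ j → Disjoint (E i) (E j)) → (∀ i ∈ J, x ∈ W i) →
      PN (J.biUnion E) (J.card + (J.card + 3) / 4) := by
  induction N using Nat.strong_induction_on with
  | _ N ihN =>
    intro J hN h1 h2 h3
    rcases J.eq_empty_or_nonempty with h0 | hJ
    · subst h0
      exact PN_empty _
    · have hJpos : 0 < J.card := Finset.card_pos.2 hJ
      rcases rain4 E W J x h1 h2 h3 hJ with ⟨P, hPJ, hPne, hP⟩ | ⟨P, hPJ, hPc, hP⟩
      · have hc : (J \ P).card + P.card = J.card := Finset.card_sdiff_add_card_eq_card hPJ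
        have hPpos : 0 < P.card := Finset.card_pos.2 hPne
        have h5 := ihN (J \ P).card (by omega) (J \ P) rfl
          (fun i hi => h1 i (Finset.mem_sdiff.1 hi).1)
          (fun i hi i' hi' => h2 i (Finset.mem_sdiff.1 hi).1 i' (Finset.mem_sdiff.1 hi').1)
          (fun i hi => h3 i (Finset.mem_sdiff.1 hi).1)
        exact PN_mono (by omega) (cost4_split E J P hPJ h2 hP h5)
      · have hc : (J \ P).card + P.card = J.card := Finset.card_sdiff_add_card_eq_card hPJ
        have hPpos : 0 < P.card := by omega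
        have h5 := ihN (J \ P).card (by omega) (J \ P) rfl
          (fun i hi => h1 i (Finset.mem_sdiff.1 hi).1)
          (fun i hi i' hi' => h2 i (Finset.mem_sdiff.1 hi).1 i' (Finset.mem_sdiff.1 hi').1)
          (fun i hi => h3 i (Finset.mem_sdiff.1 hi).1)
        exact PN_mono (by omega) (cost4_split E J P hPJ h2 hP h5)

theorem cyc_cost4 {ι : Type} [DecidableEq ι] (E : ι → Finset (Sym2 V)) (W : ι → Finset V)
    (J : Finset ι) (x : V) (hc : ∀ i ∈ J, Cyc (E i) (W i))
    (hd : ∀ i ∈ J, ∀ j ∈ J, i ≠ j → Disjoint (E i) (E j)) (hx : ∀ i ∈ J, x ∈ W i) :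
    PN (J.biUnion E) (J.card + (J.card + 3) / 4) := by
  exact cost4_aux E W x J.card J rfl hc hd hx

end Pool.Agent.Lib.MP_94420a_co
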