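import Pool.Agent.Lib.MP_94420a_co_T.DKa0

namespace Pool.Agent.Lib.MP_94420a_co

variable {V : Type} [DecidableEq V] [Fintype V]

/-- Case: some `x ∈ fr E R` has `d ≥ 5`, `d ≠ 10` neighbours in `fr E R`.  `S = nb E x ∩ fr E R`, `R' = R`, `star_cyc`;
`WW E' R + d + 4 = WW E R + wt E' R x`, and `wt E' R x ≤ 4`, `= 3` if `d` is odd (`dg_sd_center`).
`6 * ((d / 2 + 3) / 4) ≤ d` for `d` even, `≤ d + 1` for `d` odd. -/
theorem dk_cyc {E : Finset (Sym2 V)} (hE : Ll E) {R : Finset V} (hR : ∀ r ∈ R, Even (dg E r))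
    (ih : IH E) {x : V} (hx : x ∈ fr E R) (h5 : 5 ≤ (nb E x ∩ fr E R).card)
    (h10 : (nb E x ∩ fr E R).card ≠ 10) :
    ∃ N, Dec E R N ∧ 6 * N ≤ WW E R := by
  set S := nb E x ∩ fr E R with hSdef
  have hS : S ⊆ nb E x := Finset.inter_subset_left
  have hS' : S ⊆ fr E R := Finset.inter_subset_right
  have hxS : x ∉ S := fun h => not_mem_nb_self hE x (hS h)
  have hxR : x ∉ R := (mem_fr.1 hx).2
  have hSR : Disjoint S R := by
    rw [Finset.disjoint_left]
    intro a ha
    exact (mem_fr.1 (hS' ha)).2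
  have hne : S.Nonempty := Finset.card_pos.1 (by omega)
  have hRe : ∀ r ∈ R, Even (dg (E \ st x S) r) := by
    intro r hr
    have hrx : r ≠ x := fun h => hxR (by rw [← h]; exact hr)
    rw [dg_sd_other hrx (Finset.disjoint_right.1 hSR hr)]
    exact hR r hr
  obtain ⟨N, ⟨f, hf, hfR⟩, hN⟩ := ih (E \ st x S) R (Ll_sd hE _) hRe (card_sd_st hS hne)
  have hD := star_cyc hE hS hxR hSR hf (fun w hw => end_all hE hS hS' (Finset.erase_subset _ _) hf hfR
    hw (by
      by_cases hwf : w ∈ fr E R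
      · exact Or.inr (Or.inl (Finset.mem_inter.2 ⟨hw, hwf⟩))
      · exact Or.inl hwf)) hfR
  refine ⟨_, hD, ?_⟩
  have h1 := WW_rem hE hS hS' (R := R)
  have h2 := wt_fr hx
  have h3 := wt_le_four (E := E \ st x S) hxR
  have h4 := dg_sd_center hS hxS
  have h6 : Even (dg E x) := (mem_fr.1 hx).1.1
  rcases Nat.even_or_odd S.card with h5 | h5
  · obtain ⟨t, ht⟩ := h5
    omega
  · have h7 : Odd (dg (E \ st x S) x) := by
      rw [← h4] at h6
      rcases Nat.even_or_odd (dg (E \ st x S) x) with h8 | h8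
      · exact absurd (h8.add_odd h5) (Nat.not_odd_iff_even.2 h6)
      · exact h8
    have h8 := wt_odd (R := R) h7
    obtain ⟨t, ht⟩ := h5
    omega

/-- Case: some `x ∈ fr E R` has `10` neighbours in `fr E R`.  Let `r` be one of them, `S = (nb E x ∩ fr E R).erase r`
(`9` elements), `R' = insert r R`.  `star_cyc` (with `R' ` instead of `R`; `k + (9 / 2 + 3) / 4 = k + 1`), then forget `r`.
`WW E' R + 9 + 4 = WW E R + 3`, `WW E' R' = WW E' R + 2`. -/
theorem dk_ten {E : Finset (Sym2 V)} (hE : Ll E) {R : Finset V} (hR : ∀ r ∈ R, Even (dg E r))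
    (ih : IH E) {x : V} (hx : x ∈ fr E R) (h10 : (nb E x ∩ fr E R).card = 10) :
    ∃ N, Dec E R N ∧ 6 * N ≤ WW E R := by
  have hne : (nb E x ∩ fr E R).Nonempty := Finset.card_pos.1 (by omega)
  obtain ⟨r, hr⟩ := hne
  have hrn : r ∈ nb E x := (Finset.mem_inter.1 hr).1
  have hrf : r ∈ fr E R := (Finset.mem_inter.1 hr).2
  have hrR : r ∉ R := (mem_fr.1 hrf).2
  have hrx : r ≠ x := by
    rintro rfl
    exact not_mem_nb_self hE r hrn
  set S := (nb E x ∩ fr E R).erase r with hSdef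
  have hSc : S.card = 9 := by
    rw [hSdef, Finset.card_erase_of_mem hr, h10]
  have hS : S ⊆ nb E x := (Finset.erase_subset _ _).trans Finset.inter_subset_left
  have hS' : S ⊆ fr E R := (Finset.erase_subset _ _).trans Finset.inter_subset_right
  have hxS : x ∉ S := fun h => not_mem_nb_self hE x (hS h)
  have hrS : r ∉ S := Finset.notMem_erase r _
  have hxR : x ∉ R := (mem_fr.1 hx).2
  have hxR' : x ∉ insert r R := by
    rw [Finset.mem_insert]
    rintro (h | h)
    · exact hrx h.symm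
    · exact hxR h
  have hSR : Disjoint S (insert r R) := by
    rw [Finset.disjoint_left]
    intro a ha ha'
    rcases Finset.mem_insert.1 ha' with h | h
    · exact hrS (h ▸ ha)
    · exact (mem_fr.1 (hS' ha)).2 h
  have hne' : S.Nonempty := Finset.card_pos.1 (by omega)
  have hdr : dg (E \ st x S) r = dg E r := dg_sd_other hrx hrS
  have hRe : ∀ r' ∈ insert r R, Even (dg (E \ st x S) r') := by
    intro r' hr'
    have hrx' : r' ≠ x := fun h => hxR' (by rw [← h]; exact hr')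
    rw [dg_sd_other hrx' (Finset.disjoint_right.1 hSR hr')]
    rcases Finset.mem_insert.1 hr' with h | h
    · rw [h]
      exact (mem_fr.1 hrf).1.1
    · exact hR r' h
  obtain ⟨N, ⟨f, hf, hfR⟩, hN⟩ := ih (E \ st x S) (insert r R) (Ll_sd hE _) hRe
    (card_sd_st hS hne')
  have hD := star_cyc hE hS hxR' hSR hf (fun w hw => end_all hE hS hS' ((Finset.erase_subset _ _).trans
    (Finset.subset_insert _ _)) hf hfR hw (by
      by_cases hwf : w ∈ fr E R
      · by_cases hwr : w = r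
        · exact Or.inr (Or.inr (by rw [hwr]; exact Finset.mem_insert_self _ _))
        · exact Or.inr (Or.inl (Finset.mem_erase.2 ⟨hwr, Finset.mem_inter.2 ⟨hw, hwf⟩⟩))
      · exact Or.inl hwf)) hfR
  obtain ⟨g, hg, hgR⟩ := hD
  refine ⟨_, ⟨g, hg, fun r' hr' => hgR r' (Finset.mem_insert_of_mem hr')⟩, ?_⟩
  have h1 := WW_rem hE hS hS' (R := R)
  have h2 := wt_fr hx
  have h4 := dg_sd_center hS hxS
  have h6 : Even (dg E x) := (mem_fr.1 hx).1.1
  have h7 : Odd (dg (E \ st x S) x) := by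
    rw [← h4, hSc] at h6
    rcases Nat.even_or_odd (dg (E \ st x S) x) with h8 | h8
    · exact absurd (h8.add_odd (by decide : Odd 9)) (Nat.not_odd_iff_even.2 h6)
    · exact h8
  have h8 := wt_odd (R := R) h7
  have h9 : Even (dg (E \ st x S) r) := hRe r (Finset.mem_insert_self _ _)
  have h11 := WW_ins (E := E \ st x S) h9 hrR
  have h12 : r ∈ fr (E \ st x S) R := by
    rw [mem_fr]
    refine ⟨⟨h9, ?_⟩, hrR⟩
    rw [hdr]
    exact (mem_fr.1 hrf).1.2
  have h13 := wt_fr h12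
  rw [hSc] at h1 ⊢
  omega

end Pool.Agent.Lib.MP_94420a_co
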