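import Pool.Agent.Lib.MP_94420a_co_T.DKb0

/-!
The proof of `dk_three` is in the header of `DKb0.lean`.
-/

namespace Pool.Agent.Lib.MP_94420a_co

variable {V : Type} [DecidableEq V] [Fintype V]

private theorem b3_union {E : Finset (Sym2 V)} {x b : V} {S A : Finset V} (hS : S ⊆ nb E x)
    (hA : A ⊆ S) (hb : S \ A = {b}) : E \ st x S ∪ st x A = E \ st x {b} := by
  have hbS : b ∈ S \ A := hb ▸ Finset.mem_singleton_self b
  have hbS' := Finset.mem_sdiff.1 hbS
  ext e
  simp only [Finset.mem_union, Finset.mem_sdiff, mem_st, Finset.mem_singleton]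
  constructor
  · rintro (⟨h1, h2⟩ | ⟨a, ha, rfl⟩)
    · refine ⟨h1, ?_⟩
      rintro ⟨a, rfl, h3⟩
      exact h2 ⟨a, hbS'.1, h3⟩
    · refine ⟨mem_nb.1 (hS (hA ha)), ?_⟩
      rintro ⟨a', rfl, h3⟩
      have h4 : a = a' := Sym2.congr_right.1 h3
      exact hbS'.2 (h4 ▸ ha)
  · rintro ⟨h1, h2⟩
    by_cases h3 : ∃ a ∈ S, e = s(x, a)
    · obtain ⟨a, ha, rfl⟩ := h3
      right
      refine ⟨a, ?_, rfl⟩
      by_contra h4
      have h5 : a ∈ S \ A := Finset.mem_sdiff.2 ⟨ha, h4⟩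
      rw [hb, Finset.mem_singleton] at h5
      exact h2 ⟨a, h5, rfl⟩
    · exact Or.inl ⟨h1, h3⟩

private theorem b3_insert {E : Finset (Sym2 V)} {x b : V} (hb : b ∈ nb E x) :
    insert s(b, x) (E \ st x {b}) = E := by
  have h1 : s(x, b) ∈ E := mem_nb.1 hb
  ext e
  simp only [Finset.mem_insert, Finset.mem_sdiff, mem_st, Finset.mem_singleton]
  constructor
  · rintro (rfl | h)
    · rwa [Sym2.eq_swap]
    · exact h.1
  · intro h
    by_cases h2 : e = s(x, b)
    · left
      rw [h2, Sym2.eq_swap]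
    · right
      refine ⟨h, ?_⟩
      rintro ⟨a, rfl, h3⟩
      exact h2 h3

theorem dk_three {E : Finset (Sym2 V)} (hE : Ll E) {R : Finset V} (hR : ∀ r ∈ R, Even (dg E r))
    (ih : IH E) (h3 : ∀ y ∈ fr E R, (nb E y ∩ fr E R).card ≤ 3) {x : V} (hx : x ∈ fr E R)
    (hx3 : (nb E x ∩ fr E R).card = 3) :
    ∃ N, Dec E R N ∧ 6 * N ≤ WW E R := by
  classical
  obtain ⟨⟨hxe, hx0⟩, hxR⟩ := mem_fr.1 hx
  obtain ⟨S, hS⟩ : ∃ S, S = nb E x ∩ fr E R := ⟨_, rfl⟩
  have hSn : S ⊆ nb E x := hS ▸ Finset.inter_subset_left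
  have hSF : S ⊆ fr E R := hS ▸ Finset.inter_subset_right
  have hS3 : S.card = 3 := by rw [hS]; exact hx3
  have hxS : x ∉ S := fun h => not_mem_nb_self hE x (hSn h)
  have hSR : ∀ r ∈ R, r ∉ S := fun r hr h => (mem_fr.1 (hSF h)).2 hr
  have hxR' : ∀ r ∈ R, r ≠ x := fun r hr h => hxR (h ▸ hr)
  have hdR : ∀ r ∈ R, dg (E \ st x S) r = dg E r := fun r hr =>
    dg_sd_other (hxR' r hr) (hSR r hr)
  have hdx : dg (E \ st x S) x + 3 = dg E x := by
    rw [← hS3]
    exact dg_sd_center hSn hxS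
  have hodd : Odd (dg (E \ st x S) x) := by
    rcases Nat.even_or_odd (dg (E \ st x S) x) with h | h
    · exfalso
      rw [← hdx] at hxe
      obtain ⟨m, hm⟩ := h
      obtain ⟨n, hn⟩ := hxe
      omega
    · exact h
  have hne : S.Nonempty := by
    rw [← Finset.card_pos, hS3]
    exact Nat.succ_pos 2
  obtain ⟨N, ⟨f, hf, hfR⟩, hN⟩ := ih (E \ st x S) R (Ll_sd hE _)
    (fun r hr => by rw [hdR r hr]; exact hR r hr) (card_sd_st hSn hne)
  have hW := WW_rem hE hSn hSF
  rw [hS3, wt_fr hx, wt_odd hodd] at hW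
  refine ⟨N, ?_, by omega⟩
  obtain ⟨A, hAS, g, hg, hgx, hgw, hcard, -⟩ := star2 hf (c := x) (S := S) hxS
    (fun a ha h => (Finset.mem_sdiff.1 h).2 (mem_st.2 ⟨a, ha, rfl⟩))
    (by
      intro w hw
      have hwn : w ∈ nb E x := by
        rcases hw with h | h
        · exact mem_nb.2 (Finset.mem_sdiff.1 h).1
        · exact hSn h
      refine end_all hE hSn hSF (Finset.erase_subset x R) hf hfR hwn ?_
      by_cases h : w ∈ fr E R
      · refine Or.inr (Or.inl ?_)
        rw [hS]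
        exact Finset.mem_inter.2 ⟨hwn, h⟩
      · exact Or.inl h) x
  have hsum : (S \ A).card + A.card = 3 := by
    rw [Finset.card_sdiff_add_card_eq_card hAS, hS3]
  have hdec : ∀ r ∈ R, dg E r < 2 * mc g r := fun r hr => by
    rw [hgw r (hxR' r hr), ← hdR r hr]
    exact hfR r hr
  by_cases h0 : (S \ A).card = 0
  · have hA : A = S := by
      have h1 := Finset.card_eq_zero.1 h0
      exact Finset.Subset.antisymm hAS (Finset.sdiff_eq_empty_iff_subset.1 h1)
    rw [hA, sd_union_st hSn] at hg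
    exact ⟨g, hg, hdec⟩
  · have h1 : (S \ A).card = 1 := by omega
    have hA2 : A.card = 2 := by omega
    obtain ⟨b, hb⟩ := Finset.card_eq_one.1 h1
    have hbS : b ∈ S \ A := hb ▸ Finset.mem_singleton_self b
    have hbS' := (Finset.mem_sdiff.1 hbS).1
    have hbx : b ≠ x := fun h => hxS (h ▸ hbS')
    have hbn : b ∈ nb E x := hSn hbS'
    have hH := b3_union hSn hAS hb
    have hsing : ({b} : Finset V) ⊆ nb E x := Finset.singleton_subset_iff.2 hbn
    have hxb : x ∉ ({b} : Finset V) := by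
      rw [Finset.mem_singleton]
      exact hbx.symm
    have hdH : dg (E \ st x S ∪ st x A) x + 1 = dg E x := by
      rw [hH]
      have := dg_sd_center hsing hxb
      rwa [Finset.card_singleton] at this
    have hsub : ((nb (E \ st x S ∪ st x A) b).filter fun w =>
        dg (E \ st x S ∪ st x A) w = 2 * mc g w) ⊆ (nb E b ∩ fr E R).erase x := by
      intro w hw
      rw [Finset.mem_filter] at hw
      exact (bad_sub hE hx hS (Finset.Subset.refl R)
        (Finset.disjoint_left.2 fun r hr => hSR r hr) hf hfR hAS hg hgw hbS hw.1 hw.2).1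
    have hxm : x ∈ nb E b ∩ fr E R := Finset.mem_inter.2 ⟨mem_nb_comm hbn, hx⟩
    have hc2 : ((nb (E \ st x S ∪ st x A) b).filter fun w =>
        dg (E \ st x S ∪ st x A) w = 2 * mc g w).card ≤ 2 := by
      refine (Finset.card_le_card hsub).trans ?_
      have h5 := h3 b (hSF hbS')
      have h6 := Finset.card_erase_add_one hxm
      omega
    have hoddmc := odd_mc hf hodd
    have hnot : s(b, x) ∉ E \ st x S ∪ st x A := by
      rw [hH, Finset.mem_sdiff, not_and_not_right]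
      intro _
      exact mem_st.2 ⟨b, Finset.mem_singleton_self b, Sym2.eq_swap⟩
    obtain ⟨g₂, hg₂, -, hg₂w⟩ := chain_add hg hbx.symm hnot (by
      rw [hgx, hA2]
      omega)
    rw [hH, b3_insert hbn] at hg₂
    refine ⟨g₂, hg₂, fun r hr => ?_⟩
    rw [hg₂w r fun h => hSR r hr (h ▸ hbS')]
    exact hdec r hr

end Pool.Agent.Lib.MP_94420a_co
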