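import Pool.Agent.Lib.MP_94420a_co_T.DKb0

/-!
The proof of `dk_four` is in the header of `DKb0.lean`.
-/

namespace Pool.Agent.Lib.MP_94420a_co

variable {V : Type} [DecidableEq V] [Fintype V]

omit [Fintype V] in
private theorem dkb4_mem {x a : V} {T : Finset V} : s(x, a) ∈ st x T ↔ a ∈ T := by
  simp only [st, Finset.mem_image]
  constructor
  · rintro ⟨b, hb, h⟩
    rcases Sym2.eq_iff.1 h with ⟨_, h3⟩ | ⟨h3, h4⟩
    · rw [← h3]
      exact hb
    · rw [← h3, ← h4]
      exact hb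
  · intro h
    exact ⟨a, h, rfl⟩

private theorem dkb4_H1 {E : Finset (Sym2 V)} {x : V} {S A : Finset V} (hS : S ⊆ nb E x)
    (hA : A ⊆ S) : E \ st x S ∪ st x A = E \ st x (S \ A) := by
  ext e
  rw [Finset.mem_union, Finset.mem_sdiff, Finset.mem_sdiff]
  constructor
  · rintro (⟨h1, h2⟩ | h)
    · refine ⟨h1, fun h3 => h2 ?_⟩
      obtain ⟨a, ha, rfl⟩ := mem_st.1 h3
      exact mem_st.2 ⟨a, (Finset.mem_sdiff.1 ha).1, rfl⟩
    · obtain ⟨a, ha, rfl⟩ := mem_st.1 h
      refine ⟨mem_nb.1 (hS (hA ha)), fun h3 => ?_⟩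
      exact (Finset.mem_sdiff.1 (dkb4_mem.1 h3)).2 ha
  · rintro ⟨h1, h2⟩
    by_cases h3 : e ∈ st x S
    · obtain ⟨a, ha, rfl⟩ := mem_st.1 h3
      refine Or.inr (mem_st.2 ⟨a, ?_, rfl⟩)
      by_contra h4
      exact h2 (mem_st.2 ⟨a, Finset.mem_sdiff.2 ⟨ha, h4⟩, rfl⟩)
    · exact Or.inl ⟨h1, h3⟩

private theorem dkb4_ins {E : Finset (Sym2 V)} {x b : V} {T : Finset V} (hT : T ⊆ nb E x)
    (hb : b ∈ T) : insert s(b, x) (E \ st x T) = E \ st x (T.erase b) := by
  ext e
  rw [Finset.mem_insert, Finset.mem_sdiff, Finset.mem_sdiff]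
  constructor
  · rintro (rfl | ⟨h1, h2⟩)
    · rw [Sym2.eq_swap]
      refine ⟨mem_nb.1 (hT hb), fun h => ?_⟩
      exact (Finset.mem_erase.1 (dkb4_mem.1 h)).1 rfl
    · refine ⟨h1, fun h => h2 ?_⟩
      obtain ⟨a, ha, rfl⟩ := mem_st.1 h
      exact mem_st.2 ⟨a, Finset.mem_of_mem_erase ha, rfl⟩
  · rintro ⟨h1, h2⟩
    by_cases h3 : e ∈ st x T
    · obtain ⟨a, ha, rfl⟩ := mem_st.1 h3
      left
      by_cases h4 : a = b
      · rw [h4, Sym2.eq_swap]
      · exact absurd (mem_st.2 ⟨a, Finset.mem_erase.2 ⟨h4, ha⟩, rfl⟩) h2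
    · exact Or.inr ⟨h1, h3⟩

private theorem dkb4_erase {E : Finset (Sym2 V)} {x b : V} (hb : b ∈ nb E x) :
    insert s(b, x) (E \ st x {b}) = E := by
  rw [dkb4_ins (Finset.singleton_subset_iff.2 hb) (Finset.mem_singleton_self b)]
  have h1 : ({b} : Finset V).erase b = ∅ := by
    rw [Finset.erase_eq_empty_iff]
    exact Or.inr rfl
  rw [h1, st, Finset.image_empty, Finset.sdiff_empty]

/-- The set of the vertices that are required to be ends. -/
private theorem dkb4_R {E : Finset (Sym2 V)} (hE : Ll E) {R : Finset V}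
    (hR : ∀ r ∈ R, Even (dg E r)) (h4 : ∀ y ∈ fr E R, (nb E y ∩ fr E R).card ≤ 4) {x : V}
    (hx : x ∈ fr E R) {S : Finset V} (hS : S = nb E x ∩ fr E R) (hS4 : S.card = 4) {d : V}
    (hd : d ∈ S) :
    ∃ R' : Finset V, R ⊆ R' ∧ x ∈ R' ∧ Disjoint R' S ∧ (∀ r ∈ R', Even (dg (E \ st x S) r)) ∧
      WW (E \ st x S) R' ≤ WW E R ∧ ∀ A ⊆ S, A.card = 2 →
        (((nb E d ∩ fr E R).erase x).filter fun w => w ∉ S \ A ∧ w ∉ R').card ≤ 2 := by
  have hSn : S ⊆ nb E x := by
    rw [hS]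
    exact Finset.inter_subset_left
  have hSf : S ⊆ fr E R := by
    rw [hS]
    exact Finset.inter_subset_right
  have hxS : x ∉ S := fun h => not_mem_nb_self hE x (hSn h)
  obtain ⟨⟨hx1, hx2⟩, hx3⟩ := mem_fr.1 hx
  have hc := dg_sd_center hSn hxS
  rw [hS4] at hc
  have hxe : Even (dg (E \ st x S) x) := by
    rw [← hc] at hx1
    exact (Nat.even_add.1 hx1).2 (by decide)
  have hRS : ∀ r ∈ R, r ≠ x ∧ r ∉ S := fun r hr =>
    ⟨fun h => hx3 (h ▸ hr), fun h => (mem_fr.1 (hSf h)).2 hr⟩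
  have hRe : ∀ r ∈ R, Even (dg (E \ st x S) r) := fun r hr => by
    rw [dg_sd_other (hRS r hr).1 (hRS r hr).2]
    exact hR r hr
  have hW1 := WW_rem hE hSn hSf
  rw [hS4, wt_fr hx] at hW1
  have hW2 := WW_ins (E := E \ st x S) (R := R) hxe hx3
  by_cases hr : ∃ r ∈ nb E d ∩ fr E R, r ≠ x ∧ r ∉ S
  · obtain ⟨r, hr1, hr2, hr3⟩ := hr
    obtain ⟨hr4, hr5⟩ := Finset.mem_inter.1 hr1
    obtain ⟨⟨hr6, hr7⟩, hr8⟩ := mem_fr.1 hr5
    have hre : dg (E \ st x S) r = dg E r := dg_sd_other hr2 hr3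
    have hrR : r ∉ insert x R := by
      rw [Finset.mem_insert]
      rintro (h | h)
      · exact hr2 h
      · exact hr8 h
    have hre' : Even (dg (E \ st x S) r) := by
      rw [hre]
      exact hr6
    have hW3 := WW_ins (E := E \ st x S) (R := insert x R) (b := r) hre' hrR
    have hW4 : wt (E \ st x S) (insert x R) r = 4 := wt_fr (mem_fr.2 ⟨⟨hre', by
      rw [hre]
      exact hr7⟩, hrR⟩)
    rw [hW4] at hW3
    refine ⟨insert r (insert x R), fun z hz => Finset.mem_insert_of_mem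
      (Finset.mem_insert_of_mem hz), Finset.mem_insert_of_mem (Finset.mem_insert_self _ _), ?_,
      ?_, by omega, fun A _ _ => ?_⟩
    · rw [Finset.disjoint_left]
      intro z hz
      rcases Finset.mem_insert.1 hz with rfl | hz
      · exact hr3
      · rcases Finset.mem_insert.1 hz with rfl | hz
        · exact hxS
        · exact (hRS z hz).2
    · intro z hz
      rcases Finset.mem_insert.1 hz with rfl | hz
      · exact hre'
      · rcases Finset.mem_insert.1 hz with rfl | hz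
        · exact hxe
        · exact hRe z hz
    · have h5 : ((nb E d ∩ fr E R).erase x).filter
          (fun w => w ∉ S \ A ∧ w ∉ insert r (insert x R)) ⊆
          ((nb E d ∩ fr E R).erase x).erase r := by
        intro w hw
        obtain ⟨hw1, hw2, hw3⟩ := Finset.mem_filter.1 hw
        exact Finset.mem_erase.2 ⟨fun h => hw3 (by
          rw [h]
          exact Finset.mem_insert_self _ _), hw1⟩
      refine (Finset.card_le_card h5).trans ?_
      have h6 : x ∈ nb E d ∩ fr E R :=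
        Finset.mem_inter.2 ⟨mem_nb_comm (hSn hd), hx⟩
      have h7 : r ∈ (nb E d ∩ fr E R).erase x := Finset.mem_erase.2 ⟨hr2, hr1⟩
      rw [Finset.card_erase_of_mem h7, Finset.card_erase_of_mem h6]
      have h8 := h4 d (hSf hd)
      omega
  · push Not at hr
    refine ⟨insert x R, Finset.subset_insert _ _, Finset.mem_insert_self _ _, ?_, ?_, by omega,
      fun A hA hA2 => ?_⟩
    · rw [Finset.disjoint_left]
      intro z hz
      rcases Finset.mem_insert.1 hz with rfl | hz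
      · exact hxS
      · exact (hRS z hz).2
    · intro z hz
      rcases Finset.mem_insert.1 hz with rfl | hz
      · exact hxe
      · exact hRe z hz
    · rw [← hA2]
      refine Finset.card_le_card fun w hw => ?_
      obtain ⟨hw1, hw2, hw3⟩ := Finset.mem_filter.1 hw
      obtain ⟨hw4, hw5⟩ := Finset.mem_erase.1 hw1
      by_contra hwA
      exact hw2 (Finset.mem_sdiff.2 ⟨hr w hw5 hw4, hwA⟩)

theorem dk_four {E : Finset (Sym2 V)} (hE : Ll E) {R : Finset V} (hR : ∀ r ∈ R, Even (dg E r))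
    (ih : IH E) (h4 : ∀ y ∈ fr E R, (nb E y ∩ fr E R).card ≤ 4) {x : V} (hx : x ∈ fr E R)
    (hx4 : (nb E x ∩ fr E R).card = 4) :
    ∃ N, Dec E R N ∧ 6 * N ≤ WW E R := by
  obtain ⟨S, hS⟩ : ∃ S, S = nb E x ∩ fr E R := ⟨_, rfl⟩
  rw [← hS] at hx4
  have hSn : S ⊆ nb E x := by
    rw [hS]
    exact Finset.inter_subset_left
  have hSf : S ⊆ fr E R := by
    rw [hS]
    exact Finset.inter_subset_right
  have hxS : x ∉ S := fun h => not_mem_nb_self hE x (hSn h)
  have hne : S.Nonempty := by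
    rw [← Finset.card_pos]
    omega
  obtain ⟨d, hd⟩ := hne
  obtain ⟨R', hRR', hxR', hdis, hev, hWW, hcnt⟩ := dkb4_R hE hR h4 hx hS hx4 hd
  obtain ⟨N, ⟨f, hf, hfR⟩, hN⟩ := ih (E \ st x S) R' (Ll_sd hE _) hev (card_sd_st hSn ⟨d, hd⟩)
  refine ⟨N, ?_, hN.trans hWW⟩
  obtain ⟨⟨hx1, hx2⟩, hx3⟩ := mem_fr.1 hx
  have hRS : ∀ r ∈ R, r ≠ x ∧ r ∉ S := fun r hr =>
    ⟨fun h => hx3 (h ▸ hr), fun h => (mem_fr.1 (hSf h)).2 hr⟩
  -- the conclusion
  have hfin : ∀ g : Fin N → List V, PF E g → (∀ r, r ≠ x → r ∉ S → mc g r = mc f r) →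
      Dec E R N := fun g hg h => ⟨g, hg, fun r hr => by
    obtain ⟨h1, h2⟩ := hRS r hr
    rw [h r h1 h2, ← dg_sd_other (E := E) h1 h2]
    exact hfR r (hRR' hr)⟩
  have hc := dg_sd_center hSn hxS
  rw [hx4] at hc
  have hxm : dg (E \ st x S) x + 2 ≤ 2 * mc f x := by
    have h1 := hfR x hxR'
    obtain ⟨m, hm⟩ := hev x hxR'
    omega
  obtain ⟨A, hAS, g, hg, hgx, hgw, hle, hdA⟩ := star2 hf (c := x) (S := S) hxS
    (fun a ha h => (Finset.mem_sdiff.1 h).2 (dkb4_mem.2 ha))
    (fun w hw => by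
      have hwn : w ∈ nb E x := by
        rcases hw with hw | hw
        · exact mem_nb.2 (Finset.mem_sdiff.1 hw).1
        · exact hSn hw
      refine end_all hE hSn hSf (fun z hz => hRR' (Finset.mem_of_mem_erase hz)) hf hfR hwn ?_
      by_cases hwf : w ∈ fr E R
      · right
        left
        rw [hS]
        exact Finset.mem_inter.2 ⟨hwn, hwf⟩
      · exact Or.inl hwf) d
  have hcard : (S \ A).card + A.card = 4 := by
    rw [← hx4]
    exact Finset.card_sdiff_add_card_eq_card hAS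
  have hTn : S \ A ⊆ nb E x := fun z hz => hSn (Finset.mem_sdiff.1 hz).1
  have hxT : x ∉ S \ A := fun h => hxS (Finset.mem_sdiff.1 h).1
  have hH1 := dkb4_H1 hSn hAS
  -- the number of the bad neighbours of `b`
  have hbad : ∀ b ∈ S \ A, ∀ w ∈ nb (E \ st x (S \ A)) b, dg (E \ st x (S \ A)) w = 2 * mc g w →
      w ∈ (nb E b ∩ fr E R).erase x ∧ w ∉ S \ A ∧ w ∉ R' := by
    intro b hb w hw hwb
    rw [← hH1] at hw hwb
    exact bad_sub hE hx hS hRR' hdis hf hfR hAS hg hgw hb hw hwb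
  have hbad3 : ∀ b ∈ S \ A, ((nb (E \ st x (S \ A)) b).filter
      fun w => dg (E \ st x (S \ A)) w = 2 * mc g w).card ≤ 3 := by
    intro b hb
    have hbS : b ∈ S := (Finset.mem_sdiff.1 hb).1
    have h5 : ((nb (E \ st x (S \ A)) b).filter
        fun w => dg (E \ st x (S \ A)) w = 2 * mc g w) ⊆ (nb E b ∩ fr E R).erase x := by
      intro w hw
      obtain ⟨hw1, hw2⟩ := Finset.mem_filter.1 hw
      exact (hbad b hb w hw1 hw2).1
    refine (Finset.card_le_card h5).trans ?_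
    have h6 : x ∈ nb E b ∩ fr E R := Finset.mem_inter.2 ⟨mem_nb_comm (hSn hbS), hx⟩
    rw [Finset.card_erase_of_mem h6]
    have h8 := h4 b (hSf hbS)
    omega
  have hcT := dg_sd_center hTn hxT
  rw [hH1] at hg
  have hnot : ∀ T : Finset V, ∀ b ∈ T, s(b, x) ∉ E \ st x T := fun T b hb h => by
    rw [Sym2.eq_swap] at h
    exact (Finset.mem_sdiff.1 h).2 (dkb4_mem.2 hb)
  have hcases : (S \ A).card = 0 ∨ (S \ A).card = 1 ∨ (S \ A).card = 2 := by omega
  rcases hcases with h0 | h1 | h2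
  · rw [Finset.card_eq_zero] at h0
    rw [h0] at hg
    have h5 : E \ st x ∅ = E := by rw [st, Finset.image_empty, Finset.sdiff_empty]
    rw [h5] at hg
    exact hfin g hg fun r hr _ => hgw r hr
  · obtain ⟨b, hb⟩ := Finset.card_eq_one.1 h1
    have hbT : b ∈ S \ A := by
      rw [hb]
      exact Finset.mem_singleton_self b
    have hbS : b ∈ S := (Finset.mem_sdiff.1 hbT).1
    have hxb : x ≠ b := fun h => hxS (h ▸ hbS)
    obtain ⟨g₂, hg₂, -, hg₂w⟩ := chain_add hg (c := b) (v := x) hxb (hnot _ b hbT) (by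
      have h5 := hbad3 b hbT
      rw [hgx]
      omega)
    rw [hb, dkb4_erase (hSn hbS)] at hg₂
    exact hfin g₂ hg₂ fun r hr hrS => by
      rw [hg₂w r (fun h => hrS (h ▸ hbS)), hgw r hr]
  · have hdT : d ∈ S \ A := Finset.mem_sdiff.2 ⟨hd, hdA (by omega)⟩
    have hb1 : ((S \ A).erase d).card = 1 := by
      rw [Finset.card_erase_of_mem hdT, h2]
    obtain ⟨b, hb⟩ := Finset.card_eq_one.1 hb1
    have hbe : b ∈ (S \ A).erase d := by
      rw [hb]
      exact Finset.mem_singleton_self b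
    have hbd : b ≠ d := (Finset.mem_erase.1 hbe).1
    have hbT : b ∈ S \ A := Finset.mem_of_mem_erase hbe
    have hbS : b ∈ S := (Finset.mem_sdiff.1 hbT).1
    have hxb : x ≠ b := fun h => hxS (h ▸ hbS)
    have hxd : x ≠ d := fun h => hxS (h ▸ hd)
    have hTe : (S \ A).erase b = {d} := by
      have h5 : ((S \ A).erase b).card = 1 := by
        rw [Finset.card_erase_of_mem hbT, h2]
      obtain ⟨d', hd'⟩ := Finset.card_eq_one.1 h5
      have h6 : d ∈ (S \ A).erase b := Finset.mem_erase.2 ⟨hbd.symm, hdT⟩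
      rw [hd', Finset.mem_singleton] at h6
      rw [hd', h6]
    obtain ⟨g₂, hg₂, hg₂b, hg₂w⟩ := chain_add hg (c := b) (v := x) hxb (hnot _ b hbT) (by
      have h5 := hbad3 b hbT
      rw [hgx]
      omega)
    rw [dkb4_ins hTn hbT, hTe] at hg₂
    have hdn : ({d} : Finset V) ⊆ nb E x := Finset.singleton_subset_iff.2 (hSn hd)
    have hxd' : x ∉ ({d} : Finset V) := by
      rw [Finset.mem_singleton]
      exact hxd
    have hcd := dg_sd_center hdn hxd'
    rw [Finset.card_singleton] at hcd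
    have hbad2 : ((nb (E \ st x {d}) d).filter
        fun w => dg (E \ st x {d}) w = 2 * mc g₂ w).card ≤ 2 := by
      refine le_trans (Finset.card_le_card ?_) (hcnt A hAS (by omega))
      intro w hw
      obtain ⟨hw1, hw2⟩ := Finset.mem_filter.1 hw
      rw [mem_nb, Finset.mem_sdiff] at hw1
      obtain ⟨hw3, hw4⟩ := hw1
      have hwx : w ≠ x := by
        rintro rfl
        refine hw4 ?_
        rw [Sym2.eq_swap]
        exact dkb4_mem.2 (Finset.mem_singleton_self d)
      have hwd : w ≠ d := by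
        rintro rfl
        exact not_mem_nb_self hE w (mem_nb.2 hw3)
      have hdgw : dg (E \ st x {d}) w = dg E w := dg_sd_other hwx (by
        rw [Finset.mem_singleton]
        exact hwd)
      have hwb : w ≠ b := by
        rintro rfl
        have h5 := dg_sd_leaf hSn hxS hbS
        have h6 : Odd (dg (E \ st x S) w) := by
          have h7 := (mem_fr.1 (hSf hbS)).1.1
          rw [← h5] at h7
          by_contra h8
          rw [Nat.not_odd_iff_even] at h8
          have h9 := (Nat.even_add.1 h7).1 h8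
          exact absurd h9 (by decide)
        have h7 := odd_mc hf h6
        have h8 := hgw w hwx
        omega
      have h5 : w ∉ S \ A := fun h => by
        have h6 : w ∈ (S \ A).erase d := Finset.mem_erase.2 ⟨hwd, h⟩
        rw [hb, Finset.mem_singleton] at h6
        exact hwb h6
      have hdgw' : dg (E \ st x (S \ A)) w = dg E w := dg_sd_other hwx h5
      have h6 : w ∈ nb (E \ st x (S \ A)) d := by
        rw [mem_nb, Finset.mem_sdiff]
        refine ⟨hw3, fun h => ?_⟩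
        obtain ⟨a, ha, hea⟩ := mem_st.1 h
        rcases Sym2.eq_iff.1 hea with ⟨h7, _⟩ | ⟨_, h7⟩
        · exact hxd h7.symm
        · exact hwx h7
      have h7 := hbad d hdT w h6 (by
        rw [hdgw', ← hdgw, hw2, hg₂w w hwb])
      exact Finset.mem_filter.2 h7
    obtain ⟨g₃, hg₃, -, hg₃w⟩ := chain_add hg₂ (c := d) (v := x) hxd
      (hnot _ d (Finset.mem_singleton_self d)) (by
      rw [hg₂w x hxb, hgx]
      omega)
    rw [dkb4_erase (hSn hd)] at hg₃
    exact hfin g₃ hg₃ fun r hr hrS => by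
      rw [hg₃w r (fun h => hrS (h ▸ hd)), hg₂w r (fun h => hrS (h ▸ hbS)), hgw r hr]

end Pool.Agent.Lib.MP_94420a_co
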