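import Pool.Agent.Lib.MP_94420a_co_T.DKc0

/-!
The proof of `dk_zero` is in the header of `DKc0.lean`.
-/

namespace Pool.Agent.Lib.MP_94420a_co

variable {V : Type} [DecidableEq V] [Fintype V]

theorem dk_zero {E : Finset (Sym2 V)} (hE : Ll E) {R : Finset V} (hR : ∀ r ∈ R, Even (dg E r))
    (ih : IH E) (h0 : ∀ y ∈ fr E R, nb E y ∩ fr E R = ∅) {x : V} (hx : x ∈ fr E R) :
    ∃ N, Dec E R N ∧ 6 * N ≤ WW E R := by
  obtain ⟨⟨hx1, hx2⟩, hx3⟩ := mem_fr.1 hx
  have hne : (nb E x).Nonempty := by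
    rw [← Finset.card_pos, card_nb hE]
    exact Nat.pos_of_ne_zero hx2
  obtain ⟨y, hy⟩ := hne
  have hxy : x ∈ nb E y := mem_nb_comm hy
  have hyf : y ∉ fr E R := by
    intro hyf
    have h1 : x ∈ nb E y ∩ fr E R := Finset.mem_inter.2 ⟨hxy, hx⟩
    rw [h0 y hyf] at h1
    exact absurd h1 (Finset.notMem_empty x)
  obtain ⟨S, hSdef⟩ : ∃ S, S = nb E y ∩ fr E R := ⟨_, rfl⟩
  have hS : S ⊆ nb E y := hSdef ▸ Finset.inter_subset_left
  have hS' : S ⊆ fr E R := hSdef ▸ Finset.inter_subset_right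
  have hxS : x ∈ S := hSdef ▸ Finset.mem_inter.2 ⟨hxy, hx⟩
  have hyS : y ∉ S := fun h => hyf (hS' h)
  have hRS : ∀ r ∈ R, r ∉ S := fun r hr h => (mem_fr.1 (hS' h)).2 hr
  have hcen : dg (E \ st y S) y + S.card = dg E y := dg_sd_center hS hyS
  have hleaf : ∀ w ∈ S, dg (E \ st y S) w + 1 = dg E w := fun w hw => dg_sd_leaf hS hyS hw
  have hoth : ∀ w, w ≠ y → w ∉ S → dg (E \ st y S) w = dg E w := fun w h1 h2 => dg_sd_other h1 h2
  have hSpos : 0 < S.card := Finset.card_pos.2 ⟨x, hxS⟩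
  have hyiso : dg E y ≠ 0 := (dg_ne_zero hxy).1
  have hrem := WW_rem hE hS hS'
  have hyor : Odd (dg E y) ∨ y ∈ R := by
    by_contra hcon
    push Not at hcon
    exact hyf (mem_fr.2 ⟨⟨Nat.not_odd_iff_even.1 hcon.1, hyiso⟩, hcon.2⟩)
  -- the new set `R'`
  obtain ⟨R', hR'1, hR'2, hR'3, hR'4, hR'5⟩ : ∃ R' : Finset V, R.erase y ⊆ R' ∧ R' ⊆ R ∧
      (∀ r ∈ R', Even (dg (E \ st y S) r)) ∧ WW (E \ st y S) R' ≤ WW E R ∧
      (y ∈ R → y ∉ R' → Odd (dg (E \ st y S) y)) := by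
    have hother : ∀ r ∈ R, r ≠ y → Even (dg (E \ st y S) r) := by
      intro r hr hry
      rw [hoth r hry (hRS r hr)]
      exact hR r hr
    rcases hyor with hodd | hyR
    · have hyR : y ∉ R := fun h => (Nat.not_even_iff_odd.2 hodd) (hR y h)
      refine ⟨R, Finset.erase_subset _ _, Finset.Subset.refl _, fun r hr =>
        hother r hr (fun h => hyR (h ▸ hr)), ?_, fun h => absurd h hyR⟩
      rw [wt_odd hodd] at hrem
      rcases Nat.even_or_odd S.card with he | ho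
      · have h1 : Odd (dg (E \ st y S) y) := by
          rw [← hcen] at hodd
          rcases Nat.even_or_odd (dg (E \ st y S) y) with h2 | h2
          · exact absurd (h2.add he) (Nat.not_even_iff_odd.2 hodd)
          · exact h2
        rw [wt_odd h1] at hrem
        omega
      · have h1 : wt (E \ st y S) R y ≤ 4 := wt_le_four hyR
        omega
    · have hev : Even (dg E y) := hR y hyR
      rcases Nat.even_or_odd S.card with he | ho
      · have h1 : Even (dg (E \ st y S) y) := by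
          rw [← hcen] at hev
          rcases Nat.even_or_odd (dg (E \ st y S) y) with h2 | h2
          · exact h2
          · exact absurd hev (Nat.not_even_iff_odd.2 (h2.add_even he))
        refine ⟨R, Finset.erase_subset _ _, Finset.Subset.refl _, fun r hr => ?_, ?_,
          fun _ h => absurd hyR h⟩
        · by_cases hry : r = y
          · rw [hry]
            exact h1
          · exact hother r hr hry
        · rw [wt_R hev hyR, wt_R h1 hyR] at hrem
          omega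
      · have h1 : Odd (dg (E \ st y S) y) := by
          rw [← hcen] at hev
          rcases Nat.even_or_odd (dg (E \ st y S) y) with h2 | h2
          · exact absurd hev (Nat.not_even_iff_odd.2 (h2.add_odd ho))
          · exact h2
        refine ⟨R.erase y, Finset.Subset.refl _, Finset.erase_subset _ _, fun r hr => ?_, ?_,
          fun _ _ => h1⟩
        · exact hother r (Finset.mem_of_mem_erase hr) (Finset.ne_of_mem_erase hr)
        · rw [WW_erase h1]
          rw [wt_R hev hyR, wt_odd h1] at hrem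
          omega
  obtain ⟨N, ⟨f, hf, hfR⟩, hN⟩ := ih (E \ st y S) R' (Ll_sd hE _) hR'3 (card_sd_st hS ⟨x, hxS⟩)
  refine ⟨N, ?_, hN.trans hR'4⟩
  have hnS : ∀ a ∈ S, s(y, a) ∉ E \ st y S := by
    intro a ha h
    exact (Finset.mem_sdiff.1 h).2 (mem_st.2 ⟨a, ha, rfl⟩)
  have hend : ∀ w ∈ nb E y, dg (E \ st y S) w < 2 * mc f w := by
    intro w hw
    refine end_all hE hS hS' hR'1 hf hfR hw ?_
    by_cases hwf : w ∈ fr E R
    · exact Or.inr (Or.inl (hSdef ▸ Finset.mem_inter.2 ⟨hw, hwf⟩))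
    · exact Or.inl hwf
  obtain ⟨A, hAS, g, hg, hgy, hgw, hcA, -⟩ := star2 hf hyS hnS (by
    intro w hw
    refine hend w ?_
    rcases hw with hw | hw
    · exact mem_nb.2 (Finset.mem_sdiff.1 hw).1
    · exact hS hw) y
  obtain ⟨B, hBdef⟩ : ∃ B, B = S \ A := ⟨_, rfl⟩
  have hBS : B ⊆ S := hBdef ▸ Finset.sdiff_subset
  have hBnb : B ⊆ nb E y := hBS.trans hS
  have hyB : y ∉ B := fun h => hyS (hBS h)
  have hcard : A.card + B.card = S.card := by
    rw [hBdef, Nat.add_comm]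
    exact Finset.card_sdiff_add_card_eq_card hAS
  have hcB : B.card ≤ A.card := hBdef ▸ hcA
  have hinj : ∀ a b : V, s(y, a) = s(y, b) → a = b := by
    intro a b h
    rcases Sym2.eq_iff.1 h with ⟨_, h2⟩ | ⟨h1, h2⟩
    · exact h2
    · exact h2.trans h1
  have hH : E \ st y S ∪ st y A = E \ st y B := by
    ext e
    simp only [Finset.mem_union, Finset.mem_sdiff]
    constructor
    · rintro (⟨h1, h2⟩ | h1)
      · refine ⟨h1, fun h3 => h2 ?_⟩
        obtain ⟨b, hb, rfl⟩ := mem_st.1 h3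
        exact mem_st.2 ⟨b, hBS hb, rfl⟩
      · obtain ⟨a, ha, rfl⟩ := mem_st.1 h1
        refine ⟨mem_nb.1 (hS (hAS ha)), fun h3 => ?_⟩
        obtain ⟨b, hb, hab⟩ := mem_st.1 h3
        have hab' := hinj _ _ hab
        subst hab'
        rw [hBdef, Finset.mem_sdiff] at hb
        exact hb.2 ha
    · rintro ⟨h1, h2⟩
      by_cases h3 : e ∈ st y S
      · right
        obtain ⟨a, ha, rfl⟩ := mem_st.1 h3
        by_cases haA : a ∈ A
        · exact mem_st.2 ⟨a, haA, rfl⟩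
        · exact absurd (mem_st.2 ⟨a, hBdef ▸ Finset.mem_sdiff.2 ⟨ha, haA⟩, rfl⟩) h2
      · exact Or.inl ⟨h1, h3⟩
  rw [hH] at hg
  have hcenB : dg (E \ st y B) y + B.card = dg E y := dg_sd_center hBnb hyB
  have hothB : ∀ w, w ≠ y → w ∉ B → dg (E \ st y B) w = dg E w := fun w h1 h2 => dg_sd_other h1 h2
  have hBn : ∀ b ∈ B, s(y, b) ∉ E \ st y B := by
    intro b hb h
    exact (Finset.mem_sdiff.1 h).2 (mem_st.2 ⟨b, hb, rfl⟩)
  have hnbB : ∀ b ∈ B, ∀ w ∈ nb (E \ st y B) b, w ∈ nb E b ∧ w ∉ fr E R ∧ w ≠ y := by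
    intro b hb w hw
    have hw1 : w ∈ nb E b := mem_nb.2 (Finset.mem_sdiff.1 (mem_nb.1 hw)).1
    refine ⟨hw1, ?_, ?_⟩
    · intro hwf
      have h1 : w ∈ nb E b ∩ fr E R := Finset.mem_inter.2 ⟨hw1, hwf⟩
      rw [h0 b (hS' (hBS hb))] at h1
      exact absurd h1 (Finset.notMem_empty w)
    · rintro rfl
      have h2 := mem_nb.1 hw
      rw [Sym2.eq_swap] at h2
      exact hBn b hb h2
  have hfy : dg (E \ st y S) y ≤ 2 * mc f y := dg_le_mc hf y
  obtain ⟨g', hg', hg'w⟩ := add_all (Ll_sd hE _) hyB hBn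
    (fun b hb w hw hwB => (hnbB b hb w hw).2.1 (hS' (hBS hwB))) hg
    (by
      intro b hb w hw
      obtain ⟨hw1, hw2, hw3⟩ := hnbB b hb w hw
      have hwS : w ∉ S := fun h => hw2 (hS' h)
      rw [hothB w hw3 (fun h => hwS (hBS h)), hgw w hw3, ← hoth w hw3 hwS]
      by_cases hwR : w ∈ R
      · exact hfR w (hR'1 (Finset.mem_erase.2 ⟨hw3, hwR⟩))
      · refine odd_mc hf ?_
        rw [hoth w hw3 hwS]
        by_contra hcon
        exact hw2 (mem_fr.2 ⟨⟨Nat.not_odd_iff_even.1 hcon, (dg_ne_zero hw1).2⟩, hwR⟩))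
    (by omega)
  rw [sd_union_st hBnb] at hg'
  refine ⟨g', hg', fun r hr => ?_⟩
  have hrS : r ∉ S := hRS r hr
  rw [hg'w r (fun h => hrS (hBS h))]
  by_cases hry : r = y
  · have hlt : dg (E \ st y S) y < 2 * mc f y := by
      by_cases hyR' : y ∈ R'
      · exact hfR y hyR'
      · exact odd_mc hf (hR'5 (hry ▸ hr) hyR')
    rw [hry]
    omega
  · rw [hgw r hry, ← hoth r hry hrS]
    exact hfR r (hR'1 (Finset.mem_erase.2 ⟨hry, hr⟩))

end Pool.Agent.Lib.MP_94420a_co
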