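import Pool.Agent.Lib.MP_94420a_co_T.DKc0

/-!
The proof of `dk_all` is in the header of `DKc0.lean`.
-/

namespace Pool.Agent.Lib.MP_94420a_co

variable {V : Type} [DecidableEq V] [Fintype V]

private theorem dkc2_out {E : Finset (Sym2 V)} {R : Finset V} (h0 : fr E R = ∅) {w : V}
    (hw : dg E w ≠ 0) : Odd (dg E w) ∨ w ∈ R := by
  by_cases ho : Odd (dg E w)
  · exact Or.inl ho
  · right
    by_contra hR
    have : w ∈ fr E R := mem_fr.2 ⟨⟨Nat.not_odd_iff_even.1 ho, hw⟩, hR⟩
    rw [h0] at this
    exact Finset.notMem_empty w this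

/-- the data of the deletion of one edge -/
private theorem dkc2_del {E : Finset (Sym2 V)} (hE : Ll E) {r y : V} (h : y ∈ nb E r) :
    y ≠ r ∧ (E \ st r {y}).card < E.card ∧ insert s(r, y) (E \ st r {y}) = E ∧
    s(r, y) ∉ E \ st r {y} ∧ dg (E \ st r {y}) r + 1 = dg E r ∧ dg (E \ st r {y}) y + 1 = dg E y ∧
    (∀ v, v ≠ r → v ≠ y → dg (E \ st r {y}) v = dg E v) ∧
    (∀ w, w ∈ nb (E \ st r {y}) r → w ∈ nb E r ∧ w ≠ r ∧ w ≠ y) := by
  have hne : y ≠ r := fun h' => not_mem_nb_self hE r (h' ▸ h)
  have hS : ({y} : Finset V) ⊆ nb E r := Finset.singleton_subset_iff.mpr h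
  have hx : r ∉ ({y} : Finset V) := by
    rw [Finset.mem_singleton]
    exact fun h' => hne h'.symm
  have hmem : s(r, y) ∈ st r ({y} : Finset V) := mem_st.2 ⟨y, Finset.mem_singleton_self y, rfl⟩
  have hst : st r ({y} : Finset V) = {s(r, y)} := by
    unfold st
    rw [Finset.image_singleton]
  refine ⟨hne, card_sd_st hS ⟨y, Finset.mem_singleton_self y⟩, ?_, ?_, ?_, ?_, ?_, ?_⟩
  · rw [← Finset.union_singleton, ← hst]
    exact sd_union_st hS
  · intro h'
    exact (Finset.mem_sdiff.1 h').2 hmem
  · have := dg_sd_center hS hx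
    rwa [Finset.card_singleton] at this
  · exact dg_sd_leaf hS hx (Finset.mem_singleton_self y)
  · intro v h1 h2
    exact dg_sd_other h1 (fun h' => h2 (Finset.mem_singleton.1 h'))
  · intro w hw
    have h1 := mem_nb.1 hw
    have h2 : w ∈ nb E r := mem_nb.2 (Finset.mem_sdiff.1 h1).1
    refine ⟨h2, fun h' => not_mem_nb_self hE r (h' ▸ h2), ?_⟩
    intro h'
    subst h'
    exact (Finset.mem_sdiff.1 h1).2 hmem

private theorem dkc2_fin {k : ℕ} {H E : Finset (Sym2 V)} {f : Fin k → List V} (hf : PF H f) {c v : V}
    (hvc : v ≠ c) (hv : s(c, v) ∉ H) (hE : insert s(c, v) H = E)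
    (hn : ∀ w ∈ nb H c, dg H w < 2 * mc f w) (hlt : dg H v < 2 * mc f v) :
    ∃ g : Fin k → List V, PF E g ∧ mc g c = mc f c + 1 ∧ ∀ w, w ≠ c → mc g w = mc f w := by
  have hem : (nb H c).filter (fun w => dg H w = 2 * mc f w) = ∅ := by
    rw [Finset.filter_eq_empty_iff]
    intro w hw he
    have := hn w hw
    omega
  obtain ⟨g, h1, h2, h3⟩ := chain_add hf hvc hv (by rw [hem, Finset.card_empty, zero_add]; exact hlt)
  rw [hE] at h1
  exact ⟨g, h1, h2, h3⟩

private theorem dkc2_sum {a b : V → ℕ} {x y : V} {p q s t : ℕ}
    (h : ∀ v, a v + ((if v = x then p else 0) + (if v = y then q else 0)) =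
      b v + ((if v = x then s else 0) + (if v = y then t else 0))) :
    ∑ v, a v + (p + q) = ∑ v, b v + (s + t) := by
  have h1 : ∑ v, (a v + ((if v = x then p else 0) + (if v = y then q else 0))) =
      ∑ v, (b v + ((if v = x then s else 0) + (if v = y then t else 0))) :=
    Finset.sum_congr rfl fun v _ => h v
  rw [Finset.sum_add_distrib, Finset.sum_add_distrib, Finset.sum_add_distrib,
    Finset.sum_add_distrib] at h1
  simpa using h1

theorem dk_all {E : Finset (Sym2 V)} (hE : Ll E) {R : Finset V} (hR : ∀ r ∈ R, Even (dg E r))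
    (ih : IH E) (h0 : fr E R = ∅) :
    ∃ N, Dec E R N ∧ 6 * N ≤ WW E R := by
  by_cases hc : ∃ r ∈ R, dg E r ≠ 0
  · obtain ⟨r, hr, hr0⟩ := hc
    have hpos : 0 < (nb E r).card := by
      rw [card_nb hE]
      exact Nat.pos_of_ne_zero hr0
    obtain ⟨y, hy⟩ := Finset.card_pos.1 hpos
    obtain ⟨hne, hcard, hins, hnot, hdr, hdy, hdo, hnb⟩ := dkc2_del hE hy
    have hLl : Ll (E \ st r {y}) := Ll_sd hE _
    have hnb' : ∀ w ∈ nb (E \ st r {y}) r, w ≠ r ∧ w ≠ y ∧ (Odd (dg E w) ∨ w ∈ R) := by
      intro w hw
      obtain ⟨h1, h2, h3⟩ := hnb w hw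
      exact ⟨h2, h3, dkc2_out h0 (dg_ne_zero h1).2⟩
    have her : Even (dg E r) := hR r hr
    have hor : Odd (dg (E \ st r {y}) r) := by
      obtain ⟨m, hm⟩ := her
      exact ⟨m - 1, by omega⟩
    by_cases hyo : Odd (dg E y)
    · have hyR : y ∉ R := fun h => (Nat.not_odd_iff_even.2 (hR y h)) hyo
      have hye : Even (dg (E \ st r {y}) y) := by
        obtain ⟨m, hm⟩ := hyo
        exact ⟨m, by omega⟩
      obtain ⟨N, ⟨f, hf, hf2⟩, hN⟩ := ih (E \ st r {y}) (insert y (R.erase r)) hLl (by
        intro v hv
        rcases Finset.mem_insert.1 hv with h | h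
        · rw [h]; exact hye
        · obtain ⟨h1, h2⟩ := Finset.mem_erase.1 h
          have h3 : v ≠ y := fun h' => hyR (h' ▸ h2)
          rw [hdo v h1 h3]
          exact hR v h2) hcard
      have hW : WW (E \ st r {y}) (insert y (R.erase r)) = WW E R := by
        have h1 := dkc2_sum (a := fun v => wt (E \ st r {y}) (insert y (R.erase r)) v)
          (b := fun v => wt E R v) (x := r) (y := y) (p := 3) (q := 0) (s := 0) (t := 3) (by
            intro v
            by_cases hvr : v = r
            · subst hvr
              rw [if_pos rfl, if_neg (fun h => hne h.symm), if_pos rfl,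
                if_neg (fun h => hne h.symm)]
              show wt (E \ st v {y}) (insert y (R.erase v)) v + _ = wt E R v + _
              rw [wt_odd hor, wt_R her hr]
            · rw [if_neg hvr, if_neg hvr]
              by_cases hvy : v = y
              · subst hvy
                rw [if_pos rfl, if_pos rfl]
                show wt (E \ st r {v}) (insert v (R.erase r)) v + _ = wt E R v + _
                rw [wt_R hye (Finset.mem_insert_self v _), wt_odd hyo]
              · rw [if_neg hvy, if_neg hvy]
                show wt (E \ st r {y}) (insert y (R.erase r)) v + _ = wt E R v + _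
                have hm : v ∈ insert y (R.erase r) ↔ v ∈ R := by
                  rw [Finset.mem_insert, Finset.mem_erase]
                  constructor
                  · rintro (h | h)
                    · exact absurd h hvy
                    · exact h.2
                  · intro h
                    exact Or.inr ⟨hvr, h⟩
                unfold wt
                rw [hdo v hvr hvy]
                simp only [hm])
        have h2 : WW (E \ st r {y}) (insert y (R.erase r)) =
          ∑ v, wt (E \ st r {y}) (insert y (R.erase r)) v := rfl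
        have h3 : WW E R = ∑ v, wt E R v := rfl
        omega
      have hfy := hf2 y (Finset.mem_insert_self y _)
      obtain ⟨g, hg, hgr, hgo⟩ := dkc2_fin hf hne hnot hins (by
        intro w hw
        obtain ⟨h1, h2, h3⟩ := hnb' w hw
        rcases h3 with h3 | h3
        · refine odd_mc hf ?_
          rw [hdo w h1 h2]
          exact h3
        · exact hf2 w (Finset.mem_insert_of_mem (Finset.mem_erase.2 ⟨h1, h3⟩))) hfy
      refine ⟨N, ⟨g, hg, ?_⟩, by rw [← hW]; exact hN⟩
      intro v hv
      by_cases hvr : v = r
      · subst hvr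
        have := dg_le_mc hf v
        rw [hgr]
        omega
      · have hvy : v ≠ y := fun h' => hyR (h' ▸ hv)
        have h1 := hf2 v (Finset.mem_insert_of_mem (Finset.mem_erase.2 ⟨hvr, hv⟩))
        rw [hdo v hvr hvy] at h1
        rw [hgo v hvr]
        exact h1
    · have hye : Even (dg E y) := Nat.not_odd_iff_even.1 hyo
      have hyR : y ∈ R := (dkc2_out h0 (dg_ne_zero hy).2).resolve_left hyo
      have hyo' : Odd (dg (E \ st r {y}) y) := by
        obtain ⟨m, hm⟩ := hye
        exact ⟨m - 1, by omega⟩
      obtain ⟨N, ⟨f, hf, hf2⟩, hN⟩ := ih (E \ st r {y}) ((R.erase r).erase y) hLl (by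
        intro v hv
        obtain ⟨h1, h2⟩ := Finset.mem_erase.1 hv
        obtain ⟨h3, h4⟩ := Finset.mem_erase.1 h2
        rw [hdo v h3 h1]
        exact hR v h4) hcard
      have hW : WW (E \ st r {y}) ((R.erase r).erase y) + 6 = WW E R := by
        have h1 := dkc2_sum (a := fun v => wt (E \ st r {y}) ((R.erase r).erase y) v)
          (b := fun v => wt E R v) (x := r) (y := y) (p := 3) (q := 3) (s := 0) (t := 0) (by
            intro v
            by_cases hvr : v = r
            · subst hvr
              rw [if_pos rfl, if_neg (fun h => hne h.symm), if_pos rfl,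
                if_neg (fun h => hne h.symm)]
              show wt (E \ st v {y}) ((R.erase v).erase y) v + _ = wt E R v + _
              rw [wt_odd hor, wt_R her hr]
            · rw [if_neg hvr, if_neg hvr]
              by_cases hvy : v = y
              · subst hvy
                rw [if_pos rfl, if_pos rfl]
                show wt (E \ st r {v}) ((R.erase r).erase v) v + _ = wt E R v + _
                rw [wt_odd hyo', wt_R hye hyR]
              · rw [if_neg hvy, if_neg hvy]
                show wt (E \ st r {y}) ((R.erase r).erase y) v + _ = wt E R v + _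
                have hm : v ∈ (R.erase r).erase y ↔ v ∈ R := by
                  rw [Finset.mem_erase, Finset.mem_erase]
                  constructor
                  · intro h
                    exact h.2.2
                  · intro h
                    exact ⟨hvy, hvr, h⟩
                unfold wt
                rw [hdo v hvr hvy]
                simp only [hm])
        have h2 : WW (E \ st r {y}) ((R.erase r).erase y) =
          ∑ v, wt (E \ st r {y}) ((R.erase r).erase y) v := rfl
        have h3 : WW E R = ∑ v, wt E R v := rfl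
        omega
      obtain ⟨f1, hf1, hf1y, hf1o⟩ := PF_add_one hf y
      have hfy : dg (E \ st r {y}) y < 2 * mc f1 y := by
        have := dg_le_mc hf y
        omega
      obtain ⟨g, hg, hgr, hgo⟩ := dkc2_fin hf1 hne hnot hins (by
        intro w hw
        obtain ⟨h1, h2, h3⟩ := hnb' w hw
        rcases h3 with h3 | h3
        · refine odd_mc hf1 ?_
          rw [hdo w h1 h2]
          exact h3
        · rw [hf1o w h2]
          exact hf2 w (Finset.mem_erase.2 ⟨h2, Finset.mem_erase.2 ⟨h1, h3⟩⟩)) hfy
      refine ⟨N + 1, ⟨g, hg, ?_⟩, by omega⟩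
      intro v hv
      by_cases hvr : v = r
      · subst hvr
        have h1 := dg_le_mc hf1 v
        rw [hgr]
        omega
      · rw [hgo v hvr]
        by_cases hvy : v = y
        · subst hvy
          have h1 := dg_le_mc hf v
          omega
        · have h1 := hf2 v (Finset.mem_erase.2 ⟨hvy, Finset.mem_erase.2 ⟨hvr, hv⟩⟩)
          rw [hdo v hvr hvy] at h1
          rw [hf1o v hvy]
          exact h1
  · have hiso : ∀ r ∈ R, dg E r = 0 := by
      intro r hr
      by_contra h
      exact hc ⟨r, hr, h⟩
    have hall : ∀ v, dg E v = 0 ∨ Odd (dg E v) := by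
      intro v
      by_cases hv : dg E v = 0
      · exact Or.inl hv
      · rcases dkc2_out h0 hv with h | h
        · exact Or.inr h
        · exact absurd (hiso v h) hv
    obtain ⟨f, hf⟩ := odd_pn hE hall
    have hg : PF (∅ : Finset (Sym2 V)) (fun j : Fin R.card => [((R.equivFin.symm j : R) : V)]) := by
      refine ⟨fun i => List.nodup_singleton _, fun i j _ => ?_, ?_⟩
      · rw [le_singleton]
        exact Finset.disjoint_empty_left _
      · refine Finset.eq_empty_iff_forall_notMem.2 fun e he => ?_
        rw [Finset.mem_biUnion] at he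
        obtain ⟨i, _, hi⟩ := he
        rw [le_singleton] at hi
        exact Finset.notMem_empty e hi
    obtain ⟨h, hh, hmc⟩ := PF_append hf hg (Finset.disjoint_empty_right _)
    rw [Finset.union_empty] at hh
    refine ⟨(od E).card / 2 + R.card, ⟨h, hh, ?_⟩, ?_⟩
    · intro r hr
      rw [hiso r hr, hmc r]
      have h1 : 0 < mc (fun j : Fin R.card => [((R.equivFin.symm j : R) : V)]) r := by
        unfold mc
        refine Finset.card_pos.2 ⟨R.equivFin ⟨r, hr⟩, ?_⟩
        rw [Finset.mem_filter]
        refine ⟨Finset.mem_univ _, ?_⟩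
        show r ∈ [((R.equivFin.symm (R.equivFin ⟨r, hr⟩) : R) : V)]
        rw [Equiv.symm_apply_apply]
        exact List.mem_singleton.2 rfl
      omega
    · rw [WW_full hR h0]
      omega

end Pool.Agent.Lib.MP_94420a_co
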