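import Pool.Agent.Lib.MP_94420a_co_T.DKa1
import Pool.Agent.Lib.MP_94420a_co_T.DKa2
import Pool.Agent.Lib.MP_94420a_co_T.DKb3
import Pool.Agent.Lib.MP_94420a_co_T.DKb4
import Pool.Agent.Lib.MP_94420a_co_T.DKc1
import Pool.Agent.Lib.MP_94420a_co_T.DKc2

/-!
# The bound `6 N ≤ WW E R`
-/

namespace Pool.Agent.Lib.MP_94420a_co

variable {V : Type} [DecidableEq V] [Fintype V]

theorem dk : ∀ (n : ℕ) (E : Finset (Sym2 V)) (R : Finset V), Ll E → (∀ r ∈ R, Even (dg E r)) →
    E.card = n → ∃ N, Dec E R N ∧ 6 * N ≤ WW E R := by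
  intro n
  induction n using Nat.strong_induction_on with
  | _ n ih =>
    intro E R hE hR hn
    have hih : IH E := by
      intro E' R' hE' hR' hc
      exact ih _ (hn ▸ hc) E' R' hE' hR' rfl
    by_cases h5 : ∃ x ∈ fr E R, 5 ≤ (nb E x ∩ fr E R).card
    · obtain ⟨x, hx, hx5⟩ := h5
      by_cases h10 : (nb E x ∩ fr E R).card = 10
      · exact dk_ten hE hR hih hx h10
      · exact dk_cyc hE hR hih hx hx5 h10
    push Not at h5
    by_cases h4 : ∃ x ∈ fr E R, (nb E x ∩ fr E R).card = 4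
    · obtain ⟨x, hx, hx4⟩ := h4
      exact dk_four hE hR hih (fun y hy => by have := h5 y hy; omega) hx hx4
    push Not at h4
    by_cases h3 : ∃ x ∈ fr E R, (nb E x ∩ fr E R).card = 3
    · obtain ⟨x, hx, hx3⟩ := h3
      exact dk_three hE hR hih (fun y hy => by have := h5 y hy; have := h4 y hy; omega) hx hx3
    push Not at h3
    by_cases h2 : ∃ x ∈ fr E R, (nb E x ∩ fr E R).card = 2
    · obtain ⟨x, hx, hx2⟩ := h2
      exact dk_two hE hR hih hx hx2
    push Not at h2
    by_cases h1 : ∃ x ∈ fr E R, (nb E x ∩ fr E R).card = 1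
    · obtain ⟨x, hx, hx1⟩ := h1
      exact dk_one hE hR hih hx hx1
    push Not at h1
    have h0 : ∀ y ∈ fr E R, nb E y ∩ fr E R = ∅ := by
      intro y hy
      rw [← Finset.card_eq_zero]
      have := h5 y hy
      have := h4 y hy
      have := h3 y hy
      have := h2 y hy
      have := h1 y hy
      omega
    rcases (fr E R).eq_empty_or_nonempty with he | ⟨x, hx⟩
    · exact dk_all hE hR hih he
    · exact dk_zero hE hR hih h0 hx

/-- The bound of Dean, Kouider and Yan: a graph with `u` odd and `g` even non-isolated vertices is a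
union of at most `u/2 + 2g/3` edge-disjoint paths. -/
theorem dk_pn {E : Finset (Sym2 V)} (hE : Ll E) : ∃ N, PN E N ∧ 6 * N ≤ WW E ∅ := by
  obtain ⟨N, h1, h2⟩ := dk _ E ∅ hE (by simp) rfl
  exact ⟨N, h1.pn, h2⟩

end Pool.Agent.Lib.MP_94420a_co
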