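import Pool.Agent.Lib.MP_94420a_co_T.Dec

/-!
# The star step with cycles

`star_cyc`: `star_lemma` for `f`, `x`, `S` (with `isEnd_iff_mc` for the hypotheses; `x ∉ S` by `not_mem_nb_self`;
`s(x, a) ∉ E \ st x S` for `a ∈ S`; `v ≠ x`, `s(x, v) ∈ E \ st x S` or `v ∈ S` gives `v ∈ nb E x`) gives `g`, `C`; union `E`
(`sd_union_st`).  `s = univ \ C`: `PF_sub` gives a family `g₁` of `s.card` lists containing all `g i`, `i ∉ C`.
For `i ∈ C` the set `le (g i)` is a cycle through `x` (`Cyc_of_list`, as in `star_step`), so by `cyc_cost4` there is a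
family `g₂` of `C.card + (C.card + 3) / 4` lists for their union.  `PF_append`, `PF_pad`
(`s.card + C.card = k`, `2 * C.card ≤ S.card`): a family `g₃` of `k + (S.card / 2 + 3) / 4` lists for `E`.
For `r ∈ R`: `r ≠ x`, `r ∉ S`; by `star_lemma` there is `i` with `IsEnd r (g i)`; `i ∉ C` (otherwise
`g i = x :: (m ++ [x])` and `IsEnd r (g i)` gives `r = x`), so `g i` is a member of `g₁`, hence
`dg E₁ r < 2 * mc g₁ r` for `E₁ = s.biUnion ..` (`isEnd_iff_mc`), and
`dg E r = dg E₁ r + dg E₂ r ≤ ...`, `dg E₂ r ≤ 2 * mc g₂ r` (`dg_le_mc`) give `dg E r < 2 * mc g₃ r`.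
(`dg (E₁ ∪ E₂) r ≤ dg E₁ r + dg E₂ r` by `Finset.filter_union`, `Finset.card_union_le`.)

`big_step`: `star_cyc` with `R = ∅` and `S = nb E x ∩ ev E`: all `w ∈ nb E x` have odd degree in `E \ st x S` (as in
`star_step`), `odd_mc`.
-/

namespace Pool.Agent.Lib.MP_94420a_co

variable {V : Type} [DecidableEq V] [Fintype V]

theorem star_cyc {E : Finset (Sym2 V)} (hE : Ll E) {x : V} {S R : Finset V} (hS : S ⊆ nb E x)
    (hxR : x ∉ R) (hSR : Disjoint S R) {k : ℕ} {f : Fin k → List V} (hf : PF (E \ st x S) f)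
    (hend : ∀ w ∈ nb E x, dg (E \ st x S) w < 2 * mc f w)
    (hR : ∀ r ∈ R, dg (E \ st x S) r < 2 * mc f r) :
    Dec E R (k + (S.card / 2 + 3) / 4) := by
  classical
  have hxS : x ∉ S := fun h => not_mem_nb_self hE x (hS h)
  have hSH : ∀ a ∈ S, s(x, a) ∉ E \ st x S := by
    intro a ha hmem
    rw [Finset.mem_sdiff] at hmem
    exact hmem.2 (mem_st.mpr ⟨a, ha, rfl⟩)
  have hend' : ∀ v, v ≠ x → (s(x, v) ∈ E \ st x S ∨ v ∈ S) → ∃ i, IsEnd v (f i) := by
    intro v _ hv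
    refine (isEnd_iff_mc hf v).2 (hend v ?_)
    rcases hv with hv | hv
    · exact mem_nb.2 (Finset.mem_sdiff.1 hv).1
    · exact hS hv
  obtain ⟨g, C, hg1, hg2, hg3, hg4, hg5, hg6, _⟩ := star_lemma hf x S hxS hSH hend'
  rw [sd_union_st hS] at hg4
  have hW : ∃ W : Fin k → Finset V, ∀ i ∈ C, Cyc (le (g i)) (W i) ∧ x ∈ W i := by
    refine ⟨fun i => if hi : i ∈ C then insert x (hg2 i hi).choose.toFinset else ∅, fun i hi => ?_⟩
    simp only [hi, dif_pos]
    obtain ⟨h1, h2, h3, h4⟩ := (hg2 i hi).choose_spec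
    refine ⟨?_, Finset.mem_insert_self _ _⟩
    have h5 := Cyc_of_list h1 h2 h3
    rw [← h4] at h5
    exact h5
  obtain ⟨W, hW⟩ := hW
  have hdj : ∀ (s : Finset (Fin k)), ∀ i ∈ s, ∀ j ∈ s, i ≠ j → Disjoint (le (g i)) (le (g j)) :=
    fun s i _ j _ hij => hg3 i j hij
  obtain ⟨g₁, hP1, hmem⟩ := PF_sub g (Finset.univ \ C)
    (fun i hi => hg1 i (Finset.mem_sdiff.mp hi).2) (hdj _)
  obtain ⟨g₂, hP2⟩ := cyc_cost4 (fun i => le (g i)) W C x (fun i hi => (hW i hi).1) (hdj _)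
    (fun i hi => (hW i hi).2)
  have hdisj : Disjoint ((Finset.univ \ C).biUnion fun i => le (g i))
      (C.biUnion fun i => le (g i)) := by
    rw [Finset.disjoint_biUnion_left]
    intro i hi
    rw [Finset.disjoint_biUnion_right]
    intro j hj
    apply hg3
    rintro rfl
    exact (Finset.mem_sdiff.mp hi).2 hj
  have hun : ((Finset.univ \ C).biUnion fun i => le (g i)) ∪ (C.biUnion fun i => le (g i)) = E := by
    rw [← Finset.union_biUnion, Finset.sdiff_union_of_subset (Finset.subset_univ C)]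
    exact hg4
  have hcard : (Finset.univ \ C).card + C.card = k := by
    rw [Finset.card_sdiff_add_card_eq_card (Finset.subset_univ C)]
    simp
  obtain ⟨h, hh1, hh2⟩ := PF_append hP1 hP2 hdisj
  rw [hun] at hh1
  have hle : (Finset.univ \ C).card + (C.card + (C.card + 3) / 4) ≤
      k + (S.card / 2 + 3) / 4 := by
    omega
  obtain ⟨g₃, h31, h32⟩ := PF_pad hle hh1
  refine ⟨g₃, h31, fun r hr => ?_⟩
  have hrx : r ≠ x := fun h1 => hxR (h1 ▸ hr)
  have hrS : r ∉ S := fun h1 => Finset.disjoint_left.1 hSR h1 hr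
  obtain ⟨i, hi⟩ := hg6 r hrS hrx ((isEnd_iff_mc hf r).2 (hR r hr))
  have hiC : i ∉ C := by
    intro hiC
    obtain ⟨m, _, _, _, h4⟩ := hg2 i hiC
    rw [h4] at hi
    rcases hi with hi | hi
    · rw [List.head?_cons, Option.some.injEq] at hi
      exact hrx hi.symm
    · have h5 : (x :: (m ++ [x])).getLast? = some x := by
        rw [← List.cons_append]
        exact List.getLast?_concat
      rw [h5, Option.some.injEq] at hi
      exact hrx hi.symm
  obtain ⟨j, hj⟩ := hmem i (Finset.mem_sdiff.2 ⟨Finset.mem_univ i, hiC⟩)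
  have h5 := (isEnd_iff_mc hP1 r).1 ⟨j, by rw [hj]; exact hi⟩
  have h6 := dg_le_mc hP2 r
  have h7 : dg E r ≤ dg ((Finset.univ \ C).biUnion fun i => le (g i)) r +
      dg (C.biUnion fun i => le (g i)) r := by
    have h8 : dg E r = dg (((Finset.univ \ C).biUnion fun i => le (g i)) ∪
        (C.biUnion fun i => le (g i))) r := by rw [hun]
    rw [h8, dg, Finset.filter_union]
    exact Finset.card_union_le _ _
  rw [h32 r, hh2 r]
  omega

theorem big_step {E : Finset (Sym2 V)} (hE : Ll E) (x : V) {N : ℕ}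
    (h : PN (E \ st x (nb E x ∩ ev E)) N) :
    PN E (N + ((nb E x ∩ ev E).card / 2 + 3) / 4) := by
  classical
  have hSnb : nb E x ∩ ev E ⊆ nb E x := Finset.inter_subset_left
  have hxS : x ∉ nb E x ∩ ev E := fun h => not_mem_nb_self hE x (hSnb h)
  obtain ⟨f, hf⟩ := h
  refine (star_cyc hE hSnb (Finset.notMem_empty x) (Finset.disjoint_empty_right _) hf
    (fun v hv => odd_mc hf ?_) (fun r hr => absurd hr (Finset.notMem_empty r))).pn
  have hvx : v ≠ x := fun h => not_mem_nb_self hE x (h ▸ hv)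
  by_cases hvS : v ∈ nb E x ∩ ev E
  · have h1 := dg_sd_leaf hSnb hxS hvS
    have h2 := (mem_ev.mp (Finset.mem_inter.mp hvS).2).1
    rw [← h1, Nat.even_add_one, Nat.not_even_iff_odd] at h2
    exact h2
  · have h1 := dg_sd_other (E := E) hvx hvS
    rw [h1]
    have h2 := (dg_ne_zero hv).2
    by_contra h3
    rw [Nat.not_odd_iff_even] at h3
    exact hvS (Finset.mem_inter.mpr ⟨hv, mem_ev.mpr ⟨h3, h2⟩⟩)

end Pool.Agent.Lib.MP_94420a_co
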