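import Pool.Agent.Lib.MP_94420a_co_T.Dec

/-!
# The weight

`wt E R v` is `3` for a vertex of odd degree, otherwise `6` for a vertex of `R`, `0` for an isolated vertex
and `4` for the other vertices.  `WW E R` is the sum over all vertices.  The theorem to be proved is
`6 N ≤ WW E R` for the least `N` with `Dec E R N`.

All statements about `WW`: compare the sums termwise.  `WW_rem`: only the vertices of `S` (even and not isolated
in `E`, odd in `E \ st c S`, by `dg_sd_leaf`) and `c` change: e.g. show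
`WW (E \ st c S) R + ∑ v, (if v ∈ S then 1 else 0) + ∑ v, (if v = c then wt E R c else 0) =
 WW E R + ∑ v, (if v = c then wt (E \ st c S) R c else 0)` by `Finset.sum_add_distrib` and `Finset.sum_congr`
(cases `v = c`, `v ∈ S`, neither: `dg_sd_other`).
`WW_ins`: only `b` changes.  `WW_erase`: `WW E (R.erase c) = WW E R` if `dg E c` is odd.
-/

namespace Pool.Agent.Lib.MP_94420a_co

variable {V : Type} [DecidableEq V] [Fintype V]

/-- The weight of a vertex. -/
def wt (E : Finset (Sym2 V)) (R : Finset V) (v : V) : ℕ :=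
  if Odd (dg E v) then 3 else if v ∈ R then 6 else if dg E v = 0 then 0 else 4

/-- The sum of the weights. -/
def WW (E : Finset (Sym2 V)) (R : Finset V) : ℕ := ∑ v, wt E R v

/-- The vertices that are not required to be ends: even, not isolated, not in `R`. -/
def fr (E : Finset (Sym2 V)) (R : Finset V) : Finset V := ev E \ R

theorem mem_fr {E : Finset (Sym2 V)} {R : Finset V} {v : V} :
    v ∈ fr E R ↔ (Even (dg E v) ∧ dg E v ≠ 0) ∧ v ∉ R := by
  rw [fr, Finset.mem_sdiff, mem_ev]

theorem wt_fr {E : Finset (Sym2 V)} {R : Finset V} {v : V} (h : v ∈ fr E R) : wt E R v = 4 := by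
  obtain ⟨⟨h1, h2⟩, h3⟩ := mem_fr.1 h
  rw [wt, if_neg (Nat.not_odd_iff_even.2 h1), if_neg h3, if_neg h2]

theorem wt_odd {E : Finset (Sym2 V)} {R : Finset V} {v : V} (h : Odd (dg E v)) : wt E R v = 3 := by
  rw [wt, if_pos h]

theorem wt_R {E : Finset (Sym2 V)} {R : Finset V} {v : V} (h : Even (dg E v)) (hv : v ∈ R) :
    wt E R v = 6 := by
  rw [wt, if_neg (Nat.not_odd_iff_even.2 h), if_pos hv]

theorem wt_le_four {E : Finset (Sym2 V)} {R : Finset V} {v : V} (hv : v ∉ R) : wt E R v ≤ 4 := by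
  rw [wt, if_neg hv]
  split_ifs <;> omega

theorem WW_rem {E : Finset (Sym2 V)} (hE : Ll E) {R S : Finset V} {c : V} (hS : S ⊆ nb E c)
    (hS' : S ⊆ fr E R) :
    WW (E \ st c S) R + S.card + wt E R c = WW E R + wt (E \ st c S) R c := by
  have hSc : c ∉ S := fun h => not_mem_nb_self hE c (hS h)
  have h1 : S.card = ∑ v : V, (if v ∈ S then 1 else 0) := by
    rw [Finset.sum_ite_mem, Finset.univ_inter, Finset.card_eq_sum_ones]
  have h2 : ∀ F : Finset (Sym2 V), wt F R c = ∑ v : V, (if v = c then wt F R c else 0) := by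
    intro F
    rw [Finset.sum_ite_eq' Finset.univ c, if_pos (Finset.mem_univ c)]
  rw [h1, h2 E, h2 (E \ st c S), WW, WW, ← Finset.sum_add_distrib, ← Finset.sum_add_distrib,
    ← Finset.sum_add_distrib]
  refine Finset.sum_congr rfl fun v _ => ?_
  by_cases hvc : v = c
  · subst hvc
    rw [if_neg hSc, if_pos rfl, if_pos rfl]
    omega
  · rw [if_neg hvc, if_neg hvc]
    by_cases hvS : v ∈ S
    · rw [if_pos hvS, wt_fr (hS' hvS), wt_odd]
      obtain ⟨⟨h3, h4⟩, -⟩ := mem_fr.1 (hS' hvS)
      have h5 := dg_sd_leaf hS hSc hvS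
      rw [← h5] at h3
      exact Nat.not_even_iff_odd.1 (Nat.even_add_one.1 h3)
    · rw [if_neg hvS, wt, wt, dg_sd_other hvc hvS]

theorem WW_ins {E : Finset (Sym2 V)} {R : Finset V} {b : V} (hb : Even (dg E b)) (hbR : b ∉ R) :
    WW E (insert b R) + wt E R b = WW E R + 6 := by
  have h2 : wt E R b = ∑ v : V, (if v = b then wt E R b else 0) := by
    rw [Finset.sum_ite_eq' Finset.univ b, if_pos (Finset.mem_univ b)]
  have h3 : (6 : ℕ) = ∑ v : V, (if v = b then 6 else 0) := by
    rw [Finset.sum_ite_eq' Finset.univ b, if_pos (Finset.mem_univ b)]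
  rw [h2, WW, WW]
  conv_rhs => rw [h3]
  rw [← Finset.sum_add_distrib, ← Finset.sum_add_distrib]
  refine Finset.sum_congr rfl fun v _ => ?_
  by_cases hvb : v = b
  · subst hvb
    rw [if_pos rfl, if_pos rfl, wt_R hb (Finset.mem_insert_self v R)]
    omega
  · rw [if_neg hvb, if_neg hvb]
    unfold wt
    have h4 : v ∈ insert b R ↔ v ∈ R := by
      rw [Finset.mem_insert]
      exact ⟨fun h => h.resolve_left hvb, Or.inr⟩
    by_cases h5 : v ∈ R
    · rw [if_pos h5, if_pos (h4.2 h5)]
    · rw [if_neg h5, if_neg (fun h => h5 (h4.1 h))]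

theorem WW_erase {E : Finset (Sym2 V)} {R : Finset V} {c : V} (hc : Odd (dg E c)) :
    WW E (R.erase c) = WW E R := by
  refine Finset.sum_congr rfl fun v _ => ?_
  by_cases hvc : v = c
  · subst hvc
    rw [wt_odd hc, wt_odd hc]
  · unfold wt
    have h4 : v ∈ R.erase c ↔ v ∈ R := by
      rw [Finset.mem_erase]
      exact ⟨fun h => h.2, fun h => ⟨hvc, h⟩⟩
    by_cases h5 : v ∈ R
    · rw [if_pos h5, if_pos (h4.2 h5)]
    · rw [if_neg h5, if_neg (fun h => h5 (h4.1 h))]

/-- `3` for every odd vertex, `4` for every even vertex that is not isolated. -/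
theorem WW_empty (E : Finset (Sym2 V)) : WW E ∅ = 3 * (od E).card + 4 * (ev E).card := by
  have h1 : (od E).card = ∑ v : V, (if v ∈ od E then 1 else 0) := by
    rw [Finset.sum_ite_mem, Finset.univ_inter, Finset.card_eq_sum_ones]
  have h2 : (ev E).card = ∑ v : V, (if v ∈ ev E then 1 else 0) := by
    rw [Finset.sum_ite_mem, Finset.univ_inter, Finset.card_eq_sum_ones]
  rw [h1, h2, WW, Finset.mul_sum, Finset.mul_sum, ← Finset.sum_add_distrib]
  refine Finset.sum_congr rfl fun v _ => ?_
  by_cases h3 : Odd (dg E v)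
  · rw [wt_odd h3, if_pos (mem_od.2 h3),
      if_neg (fun h4 => Nat.not_odd_iff_even.2 (mem_ev.1 h4).1 h3)]
    norm_num
  · rw [wt, if_neg h3, if_neg (Finset.notMem_empty v), if_neg (fun h => h3 (mem_od.1 h))]
    by_cases h5 : dg E v = 0
    · rw [if_pos h5, if_neg (fun h4 => (mem_ev.1 h4).2 h5)]
      norm_num
    · rw [if_neg h5, if_pos (mem_ev.2 ⟨Nat.not_odd_iff_even.1 h3, h5⟩)]
      norm_num

/-- If all vertices outside `R` are odd or isolated. -/
theorem WW_full {E : Finset (Sym2 V)} {R : Finset V} (hR : ∀ r ∈ R, Even (dg E r))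
    (h : fr E R = ∅) : WW E R = 3 * (od E).card + 6 * R.card := by
  have h1 : (od E).card = ∑ v : V, (if v ∈ od E then 1 else 0) := by
    rw [Finset.sum_ite_mem, Finset.univ_inter, Finset.card_eq_sum_ones]
  have h2 : R.card = ∑ v : V, (if v ∈ R then 1 else 0) := by
    rw [Finset.sum_ite_mem, Finset.univ_inter, Finset.card_eq_sum_ones]
  rw [h1, h2, WW, Finset.mul_sum, Finset.mul_sum, ← Finset.sum_add_distrib]
  refine Finset.sum_congr rfl fun v _ => ?_
  by_cases h3 : Odd (dg E v)
  · rw [wt_odd h3, if_pos (mem_od.2 h3), if_neg (fun h4 => Nat.not_odd_iff_even.2 (hR v h4) h3)]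
    norm_num
  · rw [wt, if_neg h3, if_neg (fun h => h3 (mem_od.1 h))]
    by_cases h5 : v ∈ R
    · rw [if_pos h5, if_pos h5]
      norm_num
    · have h8 : dg E v = 0 := by
        by_contra h6
        have h7 : v ∈ fr E R := mem_fr.2 ⟨⟨Nat.not_odd_iff_even.1 h3, h6⟩, h5⟩
        rw [h] at h7
        exact Finset.notMem_empty v h7
      rw [if_neg h5, if_neg h5, if_pos h8]
      norm_num

end Pool.Agent.Lib.MP_94420a_co
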