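import Pool.Agent.Lib.MP_94420a_co_T.Add
import Pool.Agent.Lib.MP_94420a_co_T.StarCyc
import Pool.Agent.Lib.MP_94420a_co_T.WT
import Pool.Agent.Lib.MP_94420a_co.Odd

/-!
# The induction step: common part and the easy cases

`IH E`: the theorem for all smaller edge sets.  `F = fr E R` always; `(nb E x ∩ fr E R).card` is the number of the
neighbours of `x` in `F`.

`end_fr`: if `f` is a family for `E \ st c S` with ends at `R'`, `w ≠ c`, `w ∉ S`, `w` is not isolated in `E`, `w ∉ fr E R` and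
`R \ {c} ⊆ R'`: `w` is odd in `E`, then `dg (E \ st c S) w = dg E w` is odd: `odd_mc`; or `w ∈ R`.
`end_all`: `w ∈ nb E c`: if `w ∈ S` then `dg (E \ st c S) w + 1 = dg E w` even (`S ⊆ fr E R`): `odd_mc`; otherwise `w ∉ fr E R`
or `w ∈ R'`.
-/

namespace Pool.Agent.Lib.MP_94420a_co

variable {V : Type} [DecidableEq V] [Fintype V]

/-- The theorem for all smaller edge sets. -/
def IH (E : Finset (Sym2 V)) : Prop :=
  ∀ (E' : Finset (Sym2 V)) (R' : Finset V), Ll E' → (∀ r ∈ R', Even (dg E' r)) →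
    E'.card < E.card → ∃ N, Dec E' R' N ∧ 6 * N ≤ WW E' R'

theorem end_all {E : Finset (Sym2 V)} (hE : Ll E) {R R' S : Finset V} {c : V} (hS : S ⊆ nb E c)
    (hS' : S ⊆ fr E R) (hR : R.erase c ⊆ R') {k : ℕ} {f : Fin k → List V}
    (hf : PF (E \ st c S) f) (hR' : ∀ r ∈ R', dg (E \ st c S) r < 2 * mc f r) {w : V}
    (hw : w ∈ nb E c) (hw' : w ∉ fr E R ∨ w ∈ S ∨ w ∈ R') :
    dg (E \ st c S) w < 2 * mc f w := by
  have hcS : c ∉ S := fun h => not_mem_nb_self hE c (hS h)
  have hwc : w ≠ c := by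
    rintro rfl
    exact not_mem_nb_self hE w hw
  by_cases hwS : w ∈ S
  · have h1 := dg_sd_leaf hS hcS hwS
    have h2 := (mem_fr.1 (hS' hwS)).1.1
    apply odd_mc hf
    rw [← h1] at h2
    rcases Nat.even_or_odd (dg (E \ st c S) w) with h3 | h3
    · exfalso
      rw [Nat.even_add_one] at h2
      exact h2 h3
    · exact h3
  · by_cases hwR : w ∈ R'
    · exact hR' w hwR
    · have h4 : w ∉ fr E R := by
        rcases hw' with h | h | h
        · exact h
        · exact absurd h hwS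
        · exact absurd h hwR
      have h5 : w ∉ R := fun h => hwR (hR (Finset.mem_erase.2 ⟨hwc, h⟩))
      have h6 := (dg_ne_zero hw).2
      apply odd_mc hf
      rw [dg_sd_other hwc hwS]
      rcases Nat.even_or_odd (dg E w) with h7 | h7
      · exact absurd (mem_fr.2 ⟨⟨h7, h6⟩, h5⟩) h4
      · exact h7

end Pool.Agent.Lib.MP_94420a_co
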