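import Pool.Agent.Lib.MP_94420a_co_T.DKa0

namespace Pool.Agent.Lib.MP_94420a_co

variable {V : Type} [DecidableEq V] [Fintype V]

private theorem dka1_insert {E : Finset (Sym2 V)} {x a : V} (h : a ∈ nb E x) :
    insert s(x, a) (E \ st x {a}) = E := by
  have h1 : s(x, a) ∈ E := mem_nb.1 h
  ext e
  rw [Finset.mem_insert, Finset.mem_sdiff, mem_st]
  constructor
  · rintro (rfl | h2)
    · exact h1
    · exact h2.1
  · intro he
    by_cases h2 : e = s(x, a)
    · exact Or.inl h2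
    · refine Or.inr ⟨he, ?_⟩
      rintro ⟨b, hb, rfl⟩
      rw [Finset.mem_singleton] at hb
      exact h2 (by rw [hb])

/-- Adding the edge `s(x, a)`. -/
private theorem dka1_add {E : Finset (Sym2 V)} (hE : Ll E) {R R' : Finset V} {x a : V}
    (hx : x ∈ fr E R) (ha : a ∈ nb E x) (ha' : a ∈ fr E R) (hRR : R ⊆ R')
    (hcov : ∀ w ∈ nb E x, w ≠ a → w ∉ fr E R ∨ w ∈ R') {N : ℕ}
    (h : Dec (E \ st x {a}) R' N) : Dec E R N := by
  obtain ⟨f, hf, hfR⟩ := h
  have hS : ({a} : Finset V) ⊆ nb E x := Finset.singleton_subset_iff.2 ha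
  have hS' : ({a} : Finset V) ⊆ fr E R := Finset.singleton_subset_iff.2 ha'
  have hRe : R.erase x ⊆ R' := (Finset.erase_subset _ _).trans hRR
  have hax : a ≠ x := fun h => not_mem_nb_self hE x (h ▸ ha)
  have hv : s(x, a) ∉ E \ st x {a} := fun h =>
    (Finset.mem_sdiff.1 h).2 (mem_st.2 ⟨a, Finset.mem_singleton_self a, rfl⟩)
  have hend : ∀ w ∈ nb E x, (w ∉ fr E R ∨ w ∈ ({a} : Finset V) ∨ w ∈ R') →
      dg (E \ st x {a}) w < 2 * mc f w := fun w hw hw' =>
    end_all hE hS hS' hRe hf hfR hw hw'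
  have hempty : ((nb (E \ st x {a}) x).filter fun w => dg (E \ st x {a}) w = 2 * mc f w) = ∅ := by
    rw [Finset.filter_eq_empty_iff]
    intro w hw heq
    rw [mem_nb, Finset.mem_sdiff] at hw
    have hwn : w ∈ nb E x := mem_nb.2 hw.1
    have hwa : w ≠ a := fun h1 =>
      hw.2 (mem_st.2 ⟨a, Finset.mem_singleton_self a, by rw [h1]⟩)
    have h2 := hend w hwn (by
      rcases hcov w hwn hwa with h3 | h3
      · exact Or.inl h3
      · exact Or.inr (Or.inr h3))
    omega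
  obtain ⟨g, hg, -, hgw⟩ := chain_add hf hax hv (by
    rw [hempty, Finset.card_empty, Nat.zero_add]
    exact hend a ha (Or.inr (Or.inl (Finset.mem_singleton_self a))))
  rw [dka1_insert ha] at hg
  refine ⟨g, hg, fun r hr => ?_⟩
  have hrx : r ≠ x := fun h1 => (mem_fr.1 hx).2 (h1 ▸ hr)
  have hra : r ∉ ({a} : Finset V) := fun h1 => by
    rw [Finset.mem_singleton] at h1
    exact (mem_fr.1 ha').2 (h1 ▸ hr)
  rw [hgw r hrx, ← dg_sd_other (E := E) hrx hra]
  exact hfR r (hRR hr)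

/-- The weight after removal of the edge `s(x, a)`. -/
private theorem dka1_WW {E : Finset (Sym2 V)} (hE : Ll E) {R : Finset V} {x a : V}
    (hx : x ∈ fr E R) (ha : a ∈ nb E x) (ha' : a ∈ fr E R) :
    WW (E \ st x {a}) R + 2 = WW E R := by
  have hS : ({a} : Finset V) ⊆ nb E x := Finset.singleton_subset_iff.2 ha
  have hS' : ({a} : Finset V) ⊆ fr E R := Finset.singleton_subset_iff.2 ha'
  have hax : a ≠ x := fun h => not_mem_nb_self hE x (h ▸ ha)
  have hxS : x ∉ ({a} : Finset V) := fun h => hax (Finset.mem_singleton.1 h).symm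
  have h1 := WW_rem hE hS hS'
  have h2 := dg_sd_center hS hxS
  rw [Finset.card_singleton] at h1 h2
  have h3 : Odd (dg (E \ st x {a}) x) := by
    have h4 := (mem_fr.1 hx).1.1
    rw [← h2] at h4
    rwa [Nat.even_add_one, Nat.not_even_iff_odd] at h4
  rw [wt_fr hx, wt_odd h3] at h1
  omega

/-- Vertices of `R` are even after the removal. -/
private theorem dka1_even {E : Finset (Sym2 V)} {R : Finset V}
    (hR : ∀ r ∈ R, Even (dg E r)) {x a : V} (hx : x ∈ fr E R) (ha' : a ∈ fr E R) :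
    ∀ r ∈ R, Even (dg (E \ st x {a}) r) := by
  intro r hr
  have hrx : r ≠ x := fun h1 => (mem_fr.1 hx).2 (h1 ▸ hr)
  have hra : r ∉ ({a} : Finset V) := fun h1 => by
    rw [Finset.mem_singleton] at h1
    exact (mem_fr.1 ha').2 (h1 ▸ hr)
  rw [dg_sd_other hrx hra]
  exact hR r hr

/-- Case: some `x ∈ fr E R` has exactly one neighbour `a` in `fr E R`.  `S = {a}`, `R' = R`: `WW_rem`
(`wt` of `x`: `4`, then `3`), `chain_add` with centre `x` and `v = a` (the filter is empty by `end_all`),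
`insert s(x, a) (E \ st x {a}) = E`. -/
theorem dk_one {E : Finset (Sym2 V)} (hE : Ll E) {R : Finset V} (hR : ∀ r ∈ R, Even (dg E r))
    (ih : IH E) {x : V} (hx : x ∈ fr E R) (h1 : (nb E x ∩ fr E R).card = 1) :
    ∃ N, Dec E R N ∧ 6 * N ≤ WW E R := by
  obtain ⟨a, ha⟩ := Finset.card_eq_one.1 h1
  have haa : a ∈ nb E x ∩ fr E R := by
    rw [ha]
    exact Finset.mem_singleton_self a
  obtain ⟨ha1, ha2⟩ := Finset.mem_inter.1 haa
  obtain ⟨N, hN1, hN2⟩ := ih (E \ st x {a}) R (Ll_sd hE _) (dka1_even hR hx ha2)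
    (card_sd_st (Finset.singleton_subset_iff.2 ha1) (Finset.singleton_nonempty a))
  have hW := dka1_WW hE hx ha1 ha2
  refine ⟨N, dka1_add hE hx ha1 ha2 (Finset.Subset.refl R) (fun w hw hwa => ?_) hN1, by omega⟩
  left
  intro hwf
  have h3 : w ∈ nb E x ∩ fr E R := Finset.mem_inter.2 ⟨hw, hwf⟩
  rw [ha, Finset.mem_singleton] at h3
  exact hwa h3

/-- Case: some `x ∈ fr E R` has exactly two neighbours `a`, `b` in `fr E R`.  `S = {a}`, `R' = insert b R`:
`WW (E \ st x {a}) R + 2 = WW E R`, `WW_ins` for `b` (weight `4`), so `WW E' R' = WW E R`.  Then as `dk_one`. -/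
theorem dk_two {E : Finset (Sym2 V)} (hE : Ll E) {R : Finset V} (hR : ∀ r ∈ R, Even (dg E r))
    (ih : IH E) {x : V} (hx : x ∈ fr E R) (h2 : (nb E x ∩ fr E R).card = 2) :
    ∃ N, Dec E R N ∧ 6 * N ≤ WW E R := by
  obtain ⟨a, b, hab, hs⟩ := Finset.card_eq_two.1 h2
  have haa : a ∈ nb E x ∩ fr E R := by
    rw [hs]
    exact Finset.mem_insert_self a _
  have hbb : b ∈ nb E x ∩ fr E R := by
    rw [hs]
    exact Finset.mem_insert_of_mem (Finset.mem_singleton_self b)
  obtain ⟨ha1, ha2⟩ := Finset.mem_inter.1 haa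
  obtain ⟨hb1, hb2⟩ := Finset.mem_inter.1 hbb
  obtain ⟨⟨hb3, hb4⟩, hb5⟩ := mem_fr.1 hb2
  have hbx : b ≠ x := fun h => not_mem_nb_self hE x (h ▸ hb1)
  have hba : b ∉ ({a} : Finset V) := fun h => hab (Finset.mem_singleton.1 h).symm
  have hbd : dg (E \ st x {a}) b = dg E b := dg_sd_other hbx hba
  have hbe : Even (dg (E \ st x {a}) b) := by
    rw [hbd]
    exact hb3
  have hbf : b ∈ fr (E \ st x {a}) R := by
    rw [mem_fr, hbd]
    exact ⟨⟨hb3, hb4⟩, hb5⟩
  obtain ⟨N, hN1, hN2⟩ := ih (E \ st x {a}) (insert b R) (Ll_sd hE _) (fun r hr => by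
      rcases Finset.mem_insert.1 hr with rfl | h3
      · exact hbe
      · exact dka1_even hR hx ha2 r h3)
    (card_sd_st (Finset.singleton_subset_iff.2 ha1) (Finset.singleton_nonempty a))
  have hW := dka1_WW hE hx ha1 ha2
  have hI := WW_ins hbe hb5
  rw [wt_fr hbf] at hI
  refine ⟨N, dka1_add hE hx ha1 ha2 (Finset.subset_insert b R) (fun w hw hwa => ?_) hN1, by omega⟩
  by_cases hwf : w ∈ fr E R
  · right
    have h3 : w ∈ nb E x ∩ fr E R := Finset.mem_inter.2 ⟨hw, hwf⟩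
    rw [hs, Finset.mem_insert, Finset.mem_singleton] at h3
    rcases h3 with h3 | h3
    · exact absurd h3 hwa
    · rw [h3]
      exact Finset.mem_insert_self b R
  · exact Or.inl hwf

end Pool.Agent.Lib.MP_94420a_co
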