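import Pool.Agent.Lib.MP_94420a_co_T.DKa0

/-!
# The induction step: three and four free neighbours

Notation: `F = fr E R`, `S = nb E x ∩ F`, `E' = E \ st x S`, `f` the family for `E'`, `A`, `g` from `star2` (centre `x`,
`hend` by `end_all`), `H₁ = E' ∪ st x A`.  For `w ≠ x`, `w ∉ A`: `dg H₁ w = dg E' w`; for `a ∈ A`: `dg H₁ a = dg E' a + 1`;
`dg H₁ x = dg E' x + A.card`.

`bad_sub` (the vertices `w ∈ nb H₁ b` that are not ends of `g`, for `b ∈ S \ A`, are in `(nb E b ∩ F).erase x`, and not in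
`S \ A`, not in `R'`): `w ∈ nb H₁ b` gives `w ∈ nb E b` and `w ≠ x` (`s(b, x)` is not an edge of `H₁`), so `w ≠ b`.
If `w ∉ F`, then `w ∉ S` and `w` is odd in `E` or `w ∈ R`; `dg H₁ w = dg E' w = dg E w`: if odd, `dg H₁ w = 2 * mc g w` is
impossible (`odd_mc`); if `w ∈ R ⊆ R'` then `dg E' w < 2 * mc f w = 2 * mc g w`.  If `w ∈ S \ A`: `dg H₁ w = dg E' w` is odd.  If `w ∈ R'`,
`w ∉ A` (`R'` and `S` are disjoint): as before.

`dk_three`: `R' = R`; `WW E' R + 3 + 4 = WW E R + 3`.  `A.card ≥ 2`.  If `S \ A = ∅` then `H₁ = E` and `g` works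
(`R`: `r ≠ x`, `r ∉ S`, so nothing changes).  Otherwise `S \ A = {b}`, `A.card = 2`: `chain_add` with centre `b`, `v = x` for
`H₁`, `g`: the filter has at most `2` elements (`bad_sub`, `hb`), `dg H₁ x = dg E' x + 2`, `mc g x = mc f x + 2`,
`dg E' x < 2 * mc f x` (`dg E' x` is odd).  `insert s(b, x) H₁ = E`.

`dk_four`: fix `d ∈ S`.  If there is `r ∈ nb E d ∩ F` with `r ≠ x`, `r ∉ S` then `R' = insert r (insert x R)`, otherwise
`R' = insert x R`.  `dg E' x` is even.  `WW E' R + 4 + 4 = WW E R + wt E' R x`, `WW E' (insert x R) + wt E' R x = WW E' R + 6`, so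
`WW E' (insert x R) + 2 = WW E R`; with `r`: `WW E' R' + 4 = WW E' (insert x R) + 6`.  So `WW E' R' ≤ WW E R`.
`dg E' x + 2 ≤ 2 * mc f x`.  `star2` with this `d`.  `A.card ≥ 2`.
* `(S \ A).card = 0`: done.
* `(S \ A).card = 1`, `A.card = 3`: `S \ A = {b}`: the filter has at most `3` elements, `3 < 2 + 3`.
* `(S \ A).card = 2`, `A.card = 2`: `d ∈ S \ A = {b, d}`.  First `chain_add` with centre `b`, `v = x`: at most `3` bad vertices,
  `3 < 2 + 2`.  This gives `g₂` for `H₂ = insert s(b, x) H₁` with `mc g₂ b = mc g b + 1`, the others equal.  Then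
  `chain_add` with centre `d`, `v = x`: `dg H₂ x = dg E' x + 3`, `mc g₂ x = mc f x + 2`; so at most `2` bad vertices are needed:
  a bad `w ∈ nb H₂ d` is bad for `H₁`, `g` (if `w ≠ b`), and `b` is not bad: `dg H₂ b = dg E' b + 1`,
  `mc g₂ b = mc f b + 1`, `dg E' b` odd.  So the bad vertices are in `((nb E d ∩ F).erase x).erase r` (first case), or
  in `A` (second case, as `nb E d ∩ F ⊆ insert x S`, `b` is not bad, `d ∉ nb E d`).  `insert s(d, x) H₂ = E`.
-/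

namespace Pool.Agent.Lib.MP_94420a_co

variable {V : Type} [DecidableEq V] [Fintype V]

private theorem DKb0_eq {E : Finset (Sym2 V)} {S A : Finset V} {x : V} (hx : x ∉ S)
    (hSE : S ⊆ nb E x) (hA : A ⊆ S) : E \ st x S ∪ st x A = E \ st x (S \ A) := by
  ext e
  rw [Finset.mem_union, Finset.mem_sdiff, Finset.mem_sdiff]
  constructor
  · rintro (⟨h1, h2⟩ | h1)
    · refine ⟨h1, fun h3 => h2 ?_⟩
      obtain ⟨a, ha, rfl⟩ := mem_st.1 h3
      exact mem_st.2 ⟨a, (Finset.mem_sdiff.1 ha).1, rfl⟩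
    · obtain ⟨a, ha, rfl⟩ := mem_st.1 h1
      refine ⟨mem_nb.1 (hSE (hA ha)), fun h3 => ?_⟩
      obtain ⟨c, hc, hac⟩ := mem_st.1 h3
      rcases Sym2.eq_iff.1 hac with ⟨-, h4⟩ | ⟨h4, -⟩
      · rw [h4] at ha
        exact (Finset.mem_sdiff.1 hc).2 ha
      · rw [← h4] at hc
        exact hx (Finset.mem_sdiff.1 hc).1
  · rintro ⟨h1, h2⟩
    by_cases h3 : e ∈ st x S
    · right
      obtain ⟨a, ha, rfl⟩ := mem_st.1 h3
      refine mem_st.2 ⟨a, ?_, rfl⟩
      by_contra h4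
      exact h2 (mem_st.2 ⟨a, Finset.mem_sdiff.2 ⟨ha, h4⟩, rfl⟩)
    · exact Or.inl ⟨h1, h3⟩

theorem bad_sub {E : Finset (Sym2 V)} (hE : Ll E) {R R' S A : Finset V} {x : V}
    (hx : x ∈ fr E R) (hS : S = nb E x ∩ fr E R) (hRR' : R ⊆ R') (hR'S : Disjoint R' S)
    {k : ℕ} {f g : Fin k → List V} (hf : PF (E \ st x S) f)
    (hR' : ∀ r ∈ R', dg (E \ st x S) r < 2 * mc f r) (hA : A ⊆ S)
    (hg : PF (E \ st x S ∪ st x A) g) (hgf : ∀ w, w ≠ x → mc g w = mc f w) {b w : V}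
    (hb : b ∈ S \ A) (hw : w ∈ nb (E \ st x S ∪ st x A) b)
    (hbad : dg (E \ st x S ∪ st x A) w = 2 * mc g w) :
    w ∈ (nb E b ∩ fr E R).erase x ∧ w ∉ S \ A ∧ w ∉ R' := by
  have hSE : S ⊆ nb E x := by
    rw [hS]
    exact Finset.inter_subset_left
  have hSF : S ⊆ fr E R := by
    rw [hS]
    exact Finset.inter_subset_right
  have hxS : x ∉ S := fun h => not_mem_nb_self hE x (hSE h)
  have hSAx : x ∉ S \ A := fun h => hxS (Finset.mem_sdiff.1 h).1
  have hSAE : S \ A ⊆ nb E x := fun a ha => hSE (Finset.mem_sdiff.1 ha).1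
  rw [DKb0_eq hxS hSE hA] at hw hbad
  rw [mem_nb, Finset.mem_sdiff] at hw
  obtain ⟨hw1, hw2⟩ := hw
  have hwx : w ≠ x := by
    rintro rfl
    exact hw2 (mem_st.2 ⟨b, hb, Sym2.eq_swap⟩)
  have hwb : w ∈ nb E b := mem_nb.2 hw1
  have hw0 : dg E w ≠ 0 := (dg_ne_zero hwb).2
  have hev : Even (dg (E \ st x (S \ A)) w) := by
    rw [hbad]
    exact even_two_mul _
  -- the vertices outside of the star
  have key : w ∉ S → w ∉ R' ∧ Even (dg E w) := by
    intro h1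
    have h2 : w ∉ S \ A := fun h => h1 (Finset.mem_sdiff.1 h).1
    have e1 : dg (E \ st x (S \ A)) w = dg E w := dg_sd_other hwx h2
    have e2 : dg (E \ st x S) w = dg E w := dg_sd_other hwx h1
    refine ⟨fun h3 => ?_, ?_⟩
    · have h4 := hR' w h3
      rw [e2, ← e1, hbad, hgf w hwx] at h4
      exact lt_irrefl _ h4
    · rw [← e1]
      exact hev
  have hSA : w ∉ S \ A := by
    intro h1
    have e1 := dg_sd_leaf hSAE hSAx h1
    have h2 := (mem_fr.1 (hSF (Finset.mem_sdiff.1 h1).1)).1.1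
    rw [← e1] at h2
    exact (Nat.not_even_iff_odd.2 hev.add_one) h2
  have hR : w ∉ R' := by
    intro h1
    by_cases h2 : w ∈ S
    · exact Finset.disjoint_left.1 hR'S h1 h2
    · exact (key h2).1 h1
  refine ⟨Finset.mem_erase.2 ⟨hwx, Finset.mem_inter.2 ⟨hwb, ?_⟩⟩, hSA, hR⟩
  by_cases h1 : w ∈ S
  · exact hSF h1
  · exact mem_fr.2 ⟨⟨(key h1).2, hw0⟩, fun h => hR (hRR' h)⟩

end Pool.Agent.Lib.MP_94420a_co
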