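import Pool.Agent.Lib.MP_94420a_co_T.DKa0

/-!
# The induction step: no two free vertices are adjacent; no free vertex

`add_all`: the edges from `y` to the vertices of `B` are added one at a time, with centre `b ∈ B` and `v = y`
(induction on `B`, `Finset.induction_on`, for fixed `H`, `f`): for `B' ⊆ B` there is `g'` with
`PF (H ∪ st y B') g'`, `mc g' y = mc g y`, `mc g' w = mc g w` for `w ∉ B'`.  Step `insert b B'`: `chain_add` with centre `b`,
`v = y`; the filter is empty: `w ∈ nb (H ∪ st y B') b` gives `w ≠ y`, `s(b, w) ∈ H`, `w ∉ B` (`hBB`), so `dg` and `mc` at `w` are those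
of `H`, `g` and `hend` applies.  `dg (H ∪ st y B') y = dg H y + B'.card < 2 * mc g y` as `B'.card < B.card`.

`dk_zero`: `x ∈ fr E R`; let `y ∈ nb E x` (`dg E x ≠ 0`).  `y ∉ fr E R` (otherwise `x ∈ nb E y ∩ fr E R = ∅`).
`S = nb E y ∩ fr E R`, nonempty, `E' = E \ st y S`.
* `y` odd in `E` (so `y ∉ R`): `R' = R`, `WW E' R + S.card + 3 = WW E R + wt E' R y`; `wt E' R y = 3` if `S.card` is even,
  `≤ 4` if it is odd.
* `y ∈ R`, `S.card` even: `R' = R`, `WW E' R + S.card = WW E R`.
* `y ∈ R`, `S.card` odd: `R' = R.erase y`, `WW E' R' = WW E' R` (`WW_erase`), `WW E' R + S.card + 6 = WW E R + 3`.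
In all cases `dg E' y < 2 * mc f y` or (`y` odd in `E` and `S.card` odd).
`star2` with centre `y` (`hend`: `end_all`, all `w ∈ nb E y` are in `S` or not in `fr E R`): `A`, `g`.  Then `add_all` with
`B = S \ A`, `H = E' ∪ st y A`: `hend`: `w ∈ nb H b`, `w ≠ y`: `w ∉ fr E R` as `nb E b ∩ fr E R = ∅`; so `w ∉ S`, `w` is odd in `E` or in
`R`; `hcard`: `dg H y + B.card ≤ ...`: `dg H y = dg E' y + A.card`, `mc g y = mc f y + A.card`, so `2 * mc g y - dg H y =
(2 * mc f y - dg E' y) + A.card ≥ A.card ≥ B.card`.  The result is a family for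
`E' ∪ st y A ∪ st y B = E`.  Ends at `R`: `r ≠ y`: nothing changes.  `r = y ∈ R`: `2 * mc g y - dg E y =
(2 * mc f y - dg E' y) + A.card - B.card > 0`, as `dg E' y < 2 * mc f y` (`R'` if `S.card` is even, `odd_mc` if it is odd).

`dk_all` (`fr E R = ∅`).
* some `r ∈ R` with `dg E r ≠ 0`: let `y ∈ nb E r`, `E' = E \ st r {y}`.  (`y ∉ fr E R`.)
  - `y` odd in `E`: `R' = insert y (R.erase r)`.  `WW E' R' = WW E R` (termwise: `r`: `6` and `3`, `y`: `3` and `6`).
    `chain_add` with centre `r`, `v = y`: all `w ∈ nb E' r` are odd in `E` (and `E'`) or in `R.erase r`.  `dg E r = dg E' r + 1`,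
    `mc g r = mc f r + 1`.
  - `y ∈ R`: `R' = (R.erase r).erase y`, `WW E' R' + 6 = WW E R`.  `PF_add_one` with `y`, then `chain_add` with centre `r`,
    `v = y` as before.  `dg E y = dg E' y + 1`, `dg E' y < 2 * mc f y`, `mc g y = mc f y + 1`.
* all `r ∈ R` isolated: all vertices have degree `0` or odd degree, `odd_pn` gives a family of `(od E).card / 2` lists;
  `PF_append` with the family `[r]`, `r ∈ R` (`R.card` lists, use `R.equivFin.symm`), union `∅`.
  `6 * ((od E).card / 2 + R.card) ≤ WW E R` by `WW_full`.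
-/

namespace Pool.Agent.Lib.MP_94420a_co

variable {V : Type} [DecidableEq V] [Fintype V]

theorem add_all {H : Finset (Sym2 V)} (hH : Ll H) {y : V} {B : Finset V} (hyB : y ∉ B)
    (hB : ∀ b ∈ B, s(y, b) ∉ H) (hBB : ∀ b ∈ B, ∀ w ∈ nb H b, w ∉ B) {k : ℕ}
    {g : Fin k → List V} (hg : PF H g)
    (hend : ∀ b ∈ B, ∀ w ∈ nb H b, dg H w < 2 * mc g w)
    (hcard : dg H y + B.card ≤ 2 * mc g y) :
    ∃ g' : Fin k → List V, PF (H ∪ st y B) g' ∧ ∀ w, w ∉ B → mc g' w = mc g w := by
  classical
  have key : ∀ B' : Finset V, B' ⊆ B → ∃ g' : Fin k → List V, PF (H ∪ st y B') g' ∧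
      ∀ w, w ∉ B' → mc g' w = mc g w := by
    intro B'
    induction B' using Finset.induction_on with
    | empty =>
      intro _
      refine ⟨g, ?_, fun _ _ => rfl⟩
      have h1 : H ∪ st y ∅ = H := by
        unfold st
        rw [Finset.image_empty, Finset.union_empty]
      rw [h1]
      exact hg
    | insert b B' hbB' ih =>
      intro hsub
      have hb : b ∈ B := hsub (Finset.mem_insert_self b B')
      have hsub' : B' ⊆ B := fun a ha => hsub (Finset.mem_insert_of_mem ha)
      obtain ⟨g', hg', hmc⟩ := ih hsub'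
      have hyB' : y ∉ B' := fun h => hyB (hsub' h)
      have hyb : y ≠ b := fun h => hyB (h ▸ hb)
      have hdisj : Disjoint H (st y B') := by
        rw [Finset.disjoint_left]
        intro e he he'
        obtain ⟨a, ha, rfl⟩ := mem_st.1 he'
        exact hB a (hsub' ha) he
      have hsd : (H ∪ st y B') \ st y B' = H := Finset.union_sdiff_cancel_right hdisj
      have hnb : B' ⊆ nb (H ∪ st y B') y := by
        intro a ha
        rw [mem_nb]
        exact Finset.mem_union_right _ (mem_st.2 ⟨a, ha, rfl⟩)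
      have hdy : dg (H ∪ st y B') y = dg H y + B'.card := by
        have h1 := dg_sd_center hnb hyB'
        rw [hsd] at h1
        exact h1.symm
      have hst : ∀ w, s(b, w) ∉ st y B' := by
        intro w h
        obtain ⟨a, ha, h1⟩ := mem_st.1 h
        rcases Sym2.eq_iff.1 h1 with ⟨h2, _⟩ | ⟨h2, _⟩
        · exact hyb h2.symm
        · exact hbB' (h2 ▸ ha)
      have hbyH : s(b, y) ∉ H := by
        rw [Sym2.eq_swap]
        exact hB b hb
      have hfil : ((nb (H ∪ st y B') b).filter fun w =>
          dg (H ∪ st y B') w = 2 * mc g' w) = ∅ := by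
        rw [Finset.filter_eq_empty_iff]
        intro w hw
        have hw1 : s(b, w) ∈ H := by
          rcases Finset.mem_union.1 (mem_nb.1 hw) with h | h
          · exact h
          · exact absurd h (hst w)
        have hw2 : w ∈ nb H b := mem_nb.2 hw1
        have hwB : w ∉ B := hBB b hb w hw2
        have hwB' : w ∉ B' := fun h => hwB (hsub' h)
        have hwy : w ≠ y := fun h => hbyH (h ▸ hw1)
        have h1 := dg_sd_other (E := H ∪ st y B') hwy hwB'
        rw [hsd] at h1
        rw [← h1, hmc w hwB']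
        exact (hend b hb w hw2).ne
      have hlt : ((nb (H ∪ st y B') b).filter fun w =>
          dg (H ∪ st y B') w = 2 * mc g' w).card + dg (H ∪ st y B') y < 2 * mc g' y := by
        rw [hfil, Finset.card_empty, hdy, hmc y hyB']
        have h1 : (insert b B').card ≤ B.card := Finset.card_le_card hsub
        rw [Finset.card_insert_of_notMem hbB'] at h1
        omega
      have hv : s(b, y) ∉ H ∪ st y B' := by
        rw [Finset.mem_union, not_or]
        exact ⟨hbyH, hst y⟩
      obtain ⟨g'', h1, _, h3⟩ := chain_add hg' hyb hv hlt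
      refine ⟨g'', ?_, ?_⟩
      · have h4 : insert s(b, y) (H ∪ st y B') = H ∪ st y (insert b B') := by
          unfold st
          rw [Finset.image_insert, Finset.union_insert, Sym2.eq_swap]
        rw [← h4]
        exact h1
      · intro w hw
        rw [Finset.mem_insert, not_or] at hw
        rw [h3 w hw.1, hmc w hw.2]
  exact key B (Finset.Subset.refl B)

end Pool.Agent.Lib.MP_94420a_co
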