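import Pool.Agent.Lib.MP_94420a_co_T.Mc
import Pool.Agent.Lib.MP_94420a_co_T.Cost4
import Pool.Agent.Lib.MP_94420a_co.OddA

/-!
# Decompositions in which prescribed vertices are ends

`Dec E R N`: `E` is a union of `N` edge-disjoint paths and every `r ∈ R` is an end of one of them (a
one-vertex path counts).

`PF_pad`: add empty lists (`Fin.append f fun _ => []`, cast along `k + (k' - k) = k'`); `mc` does not change.
`PF_append`: `Fin.append f g` (see `PN_union` for the proof that it is a `PF`); `mc (Fin.append f g) v = mc f v + mc g v`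
(`Fin.sum_univ_add` after `mc_eq_sum`).
`PF_add_one`: `PF_append` with the family `fun _ : Fin 1 => [y]`, `le [y] = ∅`.
`PF_sub`: the subfamily of the indices in `s`: take the order isomorphism `s.orderEmbOfFin` or
`s.equivFin.symm`: `g j = f (s.equivFin.symm j)`.
-/

namespace Pool.Agent.Lib.MP_94420a_co

variable {V : Type} [DecidableEq V]

/-- `E` is a union of `N` edge-disjoint paths and every vertex of `R` is an end of one of them. -/
def Dec (E : Finset (Sym2 V)) (R : Finset V) (N : ℕ) : Prop :=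
  ∃ f : Fin N → List V, PF E f ∧ ∀ r ∈ R, dg E r < 2 * mc f r

theorem PF_append {E E' : Finset (Sym2 V)} {k k' : ℕ} {f : Fin k → List V} {g : Fin k' → List V}
    (hf : PF E f) (hg : PF E' g) (hd : Disjoint E E') :
    ∃ h : Fin (k + k') → List V, PF (E ∪ E') h ∧ ∀ v, mc h v = mc f v + mc g v := by
  obtain ⟨hf1, hf2, hf3⟩ := hf
  obtain ⟨hg1, hg2, hg3⟩ := hg
  have hfF : ∀ i, le (f i) ⊆ E := fun i => by
    rw [← hf3]; exact Finset.subset_biUnion_of_mem (fun i => le (f i)) (Finset.mem_univ i)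
  have hgF : ∀ i, le (g i) ⊆ E' := fun i => by
    rw [← hg3]; exact Finset.subset_biUnion_of_mem (fun i => le (g i)) (Finset.mem_univ i)
  refine ⟨Fin.append f g, ⟨?_, ?_, ?_⟩, ?_⟩
  · intro i
    refine Fin.addCases (fun i => ?_) (fun i => ?_) i
    · rw [Fin.append_left]; exact hf1 i
    · rw [Fin.append_right]; exact hg1 i
  · intro i j
    refine Fin.addCases (fun i => ?_) (fun i => ?_) i <;>
      refine Fin.addCases (fun j => ?_) (fun j => ?_) j
    · intro hij
      rw [Fin.append_left, Fin.append_left]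
      exact hf2 i j fun he => hij (by rw [he])
    · intro _
      rw [Fin.append_left, Fin.append_right]
      exact hd.mono (hfF i) (hgF j)
    · intro _
      rw [Fin.append_left, Fin.append_right]
      exact (hd.mono (hfF j) (hgF i)).symm
    · intro hij
      rw [Fin.append_right, Fin.append_right]
      exact hg2 i j fun he => hij (by rw [he])
  · ext e
    simp only [Finset.mem_biUnion, Finset.mem_univ, true_and, Finset.mem_union]
    rw [← hf3, ← hg3]
    simp only [Finset.mem_biUnion, Finset.mem_univ, true_and]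
    constructor
    · rintro ⟨i, hi⟩
      revert hi
      refine Fin.addCases (fun i => ?_) (fun i => ?_) i
      · rw [Fin.append_left]; exact fun hi => Or.inl ⟨i, hi⟩
      · rw [Fin.append_right]; exact fun hi => Or.inr ⟨i, hi⟩
    · rintro (⟨i, hi⟩ | ⟨i, hi⟩)
      · exact ⟨Fin.castAdd k' i, by rw [Fin.append_left]; exact hi⟩
      · exact ⟨Fin.natAdd k i, by rw [Fin.append_right]; exact hi⟩
  · intro v
    rw [mc_eq_sum, mc_eq_sum, mc_eq_sum, Fin.sum_univ_add]
    simp only [Fin.append_left, Fin.append_right]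

private theorem PF_nil (k : ℕ) : PF (∅ : Finset (Sym2 V)) (fun _ : Fin k => ([] : List V)) := by
  refine ⟨fun _ => List.nodup_nil, fun _ _ _ => ?_, ?_⟩
  · simp [le_nil]
  · ext e
    simp [le_nil]

theorem PF_pad {E : Finset (Sym2 V)} {k k' : ℕ} (h : k ≤ k') {f : Fin k → List V} (hf : PF E f) :
    ∃ g : Fin k' → List V, PF E g ∧ ∀ v, mc g v = mc f v := by
  obtain ⟨d, rfl⟩ := Nat.exists_eq_add_of_le h
  obtain ⟨g, hg1, hg2⟩ := PF_append hf (PF_nil (V := V) d) (Finset.disjoint_empty_right E)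
  rw [Finset.union_empty] at hg1
  refine ⟨g, hg1, fun v => ?_⟩
  rw [hg2, mc_eq_sum (fun _ : Fin d => ([] : List V)) v]
  simp

theorem PF_add_one {E : Finset (Sym2 V)} {k : ℕ} {f : Fin k → List V} (hf : PF E f) (y : V) :
    ∃ g : Fin (k + 1) → List V, PF E g ∧ mc g y = mc f y + 1 ∧ ∀ v, v ≠ y → mc g v = mc f v := by
  have h1 : PF (∅ : Finset (Sym2 V)) (fun _ : Fin 1 => [y]) := by
    refine ⟨fun _ => List.nodup_singleton y, fun i j hij =>
      absurd (Subsingleton.elim i j) hij, ?_⟩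
    ext e
    simp [le_singleton]
  obtain ⟨g, hg1, hg2⟩ := PF_append hf h1 (Finset.disjoint_empty_right E)
  rw [Finset.union_empty] at hg1
  refine ⟨g, hg1, ?_, fun v hv => ?_⟩
  · rw [hg2, mc_eq_sum (fun _ : Fin 1 => [y]) y]
    simp
  · rw [hg2, mc_eq_sum (fun _ : Fin 1 => [y]) v]
    simp [hv]

theorem PF_sub {k : ℕ} (f : Fin k → List V) (s : Finset (Fin k)) (h1 : ∀ i ∈ s, (f i).Nodup)
    (h2 : ∀ i ∈ s, ∀ j ∈ s, i ≠ j → Disjoint (le (f i)) (le (f j))) :
    ∃ g : Fin s.card → List V, PF (s.biUnion fun i => le (f i)) g ∧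
      ∀ i ∈ s, ∃ j, g j = f i := by
  refine ⟨fun j => f (s.equivFin.symm j), ⟨fun i => h1 _ (s.equivFin.symm i).2,
    fun i j hij => h2 _ (s.equivFin.symm i).2 _ (s.equivFin.symm j).2 fun he => hij ?_, ?_⟩,
    fun i hi => ⟨s.equivFin ⟨i, hi⟩, ?_⟩⟩
  · exact s.equivFin.symm.injective (Subtype.ext he)
  · ext e
    simp only [Finset.mem_biUnion, Finset.mem_univ, true_and]
    constructor
    · rintro ⟨i, hi⟩
      exact ⟨s.equivFin.symm i, (s.equivFin.symm i).2, hi⟩
    · rintro ⟨i, hi, hi'⟩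
      refine ⟨s.equivFin ⟨i, hi⟩, ?_⟩
      rw [Equiv.symm_apply_apply]
      exact hi'
  · change f ((s.equivFin.symm (s.equivFin ⟨i, hi⟩)) : {x // x ∈ s}).1 = f i
    rw [Equiv.symm_apply_apply]

theorem Dec.mono {E : Finset (Sym2 V)} {R : Finset V} {k k' : ℕ} (h : k ≤ k') (hf : Dec E R k) :
    Dec E R k' := by
  obtain ⟨f, hf1, hf2⟩ := hf
  obtain ⟨g, hg1, hg2⟩ := PF_pad h hf1
  exact ⟨g, hg1, fun r hr => by rw [hg2]; exact hf2 r hr⟩

theorem Dec.pn {E : Finset (Sym2 V)} {R : Finset V} {k : ℕ} (hf : Dec E R k) : PN E k := by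
  obtain ⟨f, hf1, -⟩ := hf
  exact ⟨f, hf1⟩

end Pool.Agent.Lib.MP_94420a_co
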