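import Pool.Agent.Lib.MP_94420a_co_T.PhA
import Pool.Agent.Lib.MP_94420a_co.Walks

/-!
# The statement for simple graphs

`tri_graph`: `nb G.edgeFinset v` is the neighbour finset of `v`.
`tri_conn`: if `G` is connected and `v ∈ tri`, then `{v, a, b}` is closed under adjacency, so it is everything
(`SimpleGraph.Reachable`/`Walk` induction), so `Fintype.card V ≤ 3`.
-/

namespace Pool.Agent.Lib.MP_94420a_co

open Classical in
/-- `v` is a vertex of a component of `G` that is a triangle. -/
def InTri {V : Type} (G : SimpleGraph V) (v : V) : Prop :=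
  ∃ a b : V, G.Adj v a ∧ G.Adj v b ∧ G.Adj a b ∧
    ∀ w, (G.Adj v w → w = a ∨ w = b) ∧ (G.Adj a w → w = v ∨ w = b) ∧ (G.Adj b w → w = v ∨ w = a)

open Classical in
theorem tri_graph {V : Type} [Fintype V] (G : SimpleGraph V) :
    (tri G.edgeFinset).card ≤ (Finset.univ.filter fun v => InTri G v).card := by
  have hnb : ∀ x w : V, w ∈ nb G.edgeFinset x ↔ G.Adj x w := by
    intro x w
    rw [mem_nb, SimpleGraph.mem_edgeFinset, SimpleGraph.mem_edgeSet]
  refine Finset.card_le_card fun v hv => ?_
  rw [mem_tri] at hv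
  obtain ⟨a, b, -, h1, h2, h3⟩ := hv
  rw [Finset.mem_filter]
  refine ⟨Finset.mem_univ v, a, b, ?_, ?_, ?_, fun w => ⟨fun h => ?_, fun h => ?_, fun h => ?_⟩⟩
  · rw [← hnb, h1]
    exact Finset.mem_insert_self _ _
  · rw [← hnb, h1]
    exact Finset.mem_insert_of_mem (Finset.mem_singleton_self _)
  · rw [← hnb, h2]
    exact Finset.mem_insert_of_mem (Finset.mem_singleton_self _)
  · rwa [← hnb, h1, Finset.mem_insert, Finset.mem_singleton] at h
  · rwa [← hnb, h2, Finset.mem_insert, Finset.mem_singleton] at h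
  · rwa [← hnb, h3, Finset.mem_insert, Finset.mem_singleton] at h

open Classical in
theorem tri_conn {V : Type} [Fintype V] (G : SimpleGraph V) (hG : G.Connected)
    (h4 : 4 ≤ Fintype.card V) : (Finset.univ.filter fun v => InTri G v) = ∅ := by
  rw [Finset.filter_eq_empty_iff]
  rintro v - ⟨a, b, -, -, -, h⟩
  have hS : ∀ x y : V, x ∈ ({v, a, b} : Finset V) → G.Adj x y → y ∈ ({v, a, b} : Finset V) := by
    intro x y hx hxy
    simp only [Finset.mem_insert, Finset.mem_singleton] at hx ⊢
    rcases hx with rfl | rfl | rfl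
    · exact Or.inr ((h y).1 hxy)
    · rcases (h y).2.1 hxy with h1 | h1
      · exact Or.inl h1
      · exact Or.inr (Or.inr h1)
    · rcases (h y).2.2 hxy with h1 | h1
      · exact Or.inl h1
      · exact Or.inr (Or.inl h1)
  have hW : ∀ x y : V, G.Walk x y → x ∈ ({v, a, b} : Finset V) → y ∈ ({v, a, b} : Finset V) := by
    intro x y p
    induction p with
    | nil => exact fun hx => hx
    | cons hxy _ ih => exact fun hx => ih (hS _ _ hx hxy)
  have hU : (Finset.univ : Finset V) ⊆ {v, a, b} := by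
    intro y _
    obtain ⟨p⟩ := hG.preconnected v y
    exact hW v y p (Finset.mem_insert_self _ _)
  have h5 := Finset.card_le_card hU
  have h6 : ({v, a, b} : Finset V).card ≤ 3 := Finset.card_le_three
  rw [Finset.card_univ] at h5
  omega

open Classical in
theorem final2 {V : Type} [Fintype V] [Nonempty V] (G : SimpleGraph V) :
    ∃ (k : ℕ) (u v : Fin k → V) (p : (i : Fin k) → G.Walk (u i) (v i)),
      (k : ℝ) ≤ 2 / 3 * Fintype.card V -
        ((Fintype.card V : ℝ) - ((Finset.univ.filter fun v => InTri G v).card : ℝ)) / 32400 ∧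
      (G.Connected → 4 ≤ Fintype.card V → (k : ℝ) ≤ (2 / 3 - 1 / 32400) * Fintype.card V) ∧
      (∀ i, (p i).IsPath) ∧ ∀ e ∈ G.edgeSet, ∃! i, e ∈ (p i).edges := by
  obtain ⟨k, hk1, hk2⟩ := phA _ G.edgeFinset (Ll_edgeFinset G) rfl
  obtain ⟨u, v, p, hp, he⟩ := walks_of_PN G hk1
  have h1 := tri_graph G
  have h2 := WW_empty G.edgeFinset
  have h3 : (od G.edgeFinset).card + (ev G.edgeFinset).card ≤ Fintype.card V := by
    rw [← Finset.card_union_of_disjoint, ← Finset.card_univ]
    · exact Finset.card_le_card (Finset.subset_univ _)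
    · rw [Finset.disjoint_left]
      intro w hw hw'
      rw [mem_od] at hw
      rw [mem_ev] at hw'
      exact (Nat.not_even_iff_odd.2 hw) hw'.1
  have h4 : 32400 * k ≤ 21599 * Fintype.card V +
      (Finset.univ.filter fun v => InTri G v).card := by
    omega
  have h5 : (32400 : ℝ) * k ≤ 21599 * Fintype.card V +
      ((Finset.univ.filter fun v => InTri G v).card : ℝ) := by
    exact_mod_cast h4
  refine ⟨k, u, v, p, ?_, ?_, hp, he⟩
  · linarith
  · intro hG hn
    have h6 := tri_conn G hG hn
    rw [h6, Finset.card_empty, Nat.cast_zero] at h5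
    linarith

end Pool.Agent.Lib.MP_94420a_co
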