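import Pool.Agent.Lib.MP_94420a_co_T.Gd
import Pool.Agent.Lib.MP_94420a_co_T.StarCyc

/-!
# Removing all edges at a good vertex of degree at least four

`E' = E \ st x (nb E x ∩ ev E)`, `nb E x ∩ ev E = nb E x` (`x ∈ good E`), so `dg E' x = 0`, `dg E' a + 1 = dg E a` for
`a ∈ nb E x`, the other degrees do not change.
`gs_WW`: `WW_rem` with `R = ∅`, `S = nb E x`: `WW E' ∅ + dg E x + 4 = WW E ∅ + 0`.
`gs_ev`: `ev E' ⊆ ev E` (a vertex of `nb E x` is odd in `E'`), `nb E' v ⊆ nb E v`.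
`gs_good`: let `v ∈ good E`, `v ≠ x`, `v ∉ nb E x`, and `v ∉ nb E a` for all `a ∈ nb E x`.  Then `nb E' v = nb E v`, all `w ∈ nb E v` have
`w ≠ x`, `w ∉ nb E x`, so their degrees do not change and `w ∈ ev E'`; `s(a, b) ∉ E` implies `s(a, b) ∉ E'`; so
`v ∈ good E'`.  So `good E ⊆ good E' ∪ {x} ∪ nb E x ∪ (nb E x).biUnion (fun a => nb E a ∩ ev E)`, and
`1 + 19 + 19 * 19 = 381` (`(nb E x).card ≤ 19` as `nb E x ⊆ ev E`).
-/

namespace Pool.Agent.Lib.MP_94420a_co

variable {V : Type} [DecidableEq V] [Fintype V]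

private theorem gs_I {E : Finset (Sym2 V)} {x : V} (hx : x ∈ good E) :
    nb E x ∩ ev E = nb E x :=
  Finset.inter_eq_left.2 (mem_good.1 hx).2.1

private theorem gs_x0 {E : Finset (Sym2 V)} (hE : Ll E) (x : V) : dg (E \ st x (nb E x)) x = 0 := by
  have h1 := dg_sd_center (E := E) (x := x) (S := nb E x) subset_rfl (not_mem_nb_self hE x)
  rw [card_nb hE x] at h1
  omega

theorem gs_WW {E : Finset (Sym2 V)} (hE : Ll E) {x : V} (hx : x ∈ good E) :
    WW (E \ st x (nb E x ∩ ev E)) ∅ + dg E x + 4 = WW E ∅ := by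
  rw [gs_I hx]
  obtain ⟨hxe, hnb, -⟩ := mem_good.1 hx
  have hfr : nb E x ⊆ fr E ∅ := by
    rw [fr, Finset.sdiff_empty]
    exact hnb
  have hxf : x ∈ fr E ∅ := by
    rw [fr, Finset.sdiff_empty]
    exact hxe
  have h1 := WW_rem hE (R := ∅) (S := nb E x) (c := x) subset_rfl hfr
  have h2 := card_nb hE x
  have h3 : wt E ∅ x = 4 := wt_fr hxf
  have h4 : wt (E \ st x (nb E x)) ∅ x = 0 := by
    rw [wt, gs_x0 hE x, if_neg (by decide), if_neg (Finset.notMem_empty x), if_pos rfl]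
  rw [h2, h3, h4] at h1
  omega

theorem gs_ev {E : Finset (Sym2 V)} (hE : Ll E) {x : V} (hx : x ∈ good E)
    (h : ∀ v, (nb E v ∩ ev E).card ≤ 19) (v : V) :
    (nb (E \ st x (nb E x ∩ ev E)) v ∩ ev (E \ st x (nb E x ∩ ev E))).card ≤ 19 := by
  rw [gs_I hx]
  obtain ⟨hxe, hnb, -⟩ := mem_good.1 hx
  refine (Finset.card_le_card ?_).trans (h v)
  intro w hw
  obtain ⟨hw1, hw2⟩ := Finset.mem_inter.1 hw
  rw [Finset.mem_inter]
  refine ⟨?_, ?_⟩
  · rw [mem_nb] at hw1 ⊢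
    exact (Finset.mem_sdiff.1 hw1).1
  · by_cases h1 : w = x
    · exfalso
      rw [h1, mem_ev] at hw2
      exact hw2.2 (gs_x0 hE x)
    · by_cases h2 : w ∈ nb E x
      · exact hnb h2
      · rw [mem_ev, dg_sd_other h1 h2] at hw2
        rw [mem_ev]
        exact hw2

theorem gs_good {E : Finset (Sym2 V)} (hE : Ll E) {x : V} (hx : x ∈ good E)
    (h : ∀ v, (nb E v ∩ ev E).card ≤ 19) :
    (good E).card ≤ (good (E \ st x (nb E x ∩ ev E))).card + 381 := by
  rw [gs_I hx]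
  obtain ⟨hxe, hnb, -⟩ := mem_good.1 hx
  have hsub : good E ⊆ good (E \ st x (nb E x)) ∪
      (({x} ∪ nb E x) ∪ (nb E x).biUnion (fun a => nb E a ∩ ev E)) := by
    intro v hv
    obtain ⟨hve, hvn, hv3⟩ := mem_good.1 hv
    by_cases h1 : v = x
    · rw [h1]
      exact Finset.mem_union_right _ (Finset.mem_union_left _ (Finset.mem_union_left _
        (Finset.mem_singleton_self x)))
    by_cases h2 : v ∈ nb E x
    · exact Finset.mem_union_right _ (Finset.mem_union_left _ (Finset.mem_union_right _ h2))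
    by_cases h3 : ∃ a ∈ nb E x, v ∈ nb E a
    · obtain ⟨a, ha, hav⟩ := h3
      refine Finset.mem_union_right _ (Finset.mem_union_right _ ?_)
      rw [Finset.mem_biUnion]
      exact ⟨a, ha, Finset.mem_inter.2 ⟨hav, hve⟩⟩
    refine Finset.mem_union_left _ ?_
    have hnb' : nb (E \ st x (nb E x)) v = nb E v := by
      ext w
      rw [mem_nb, mem_nb, Finset.mem_sdiff]
      refine ⟨fun h4 => h4.1, fun h4 => ⟨h4, fun h5 => ?_⟩⟩
      obtain ⟨a, ha, hab⟩ := mem_st.1 h5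
      rcases Sym2.eq_iff.1 hab with ⟨h6, _⟩ | ⟨h6, _⟩
      · exact h1 h6
      · exact h2 (h6 ▸ ha)
    have hoth : ∀ w ∈ nb E v, dg (E \ st x (nb E x)) w = dg E w := by
      intro w hw
      refine dg_sd_other (fun h4 => h2 ?_) (fun h4 => h3 ⟨w, h4, mem_nb_comm hw⟩)
      rw [← h4]
      exact mem_nb_comm hw
    have hdv : dg (E \ st x (nb E x)) v = dg E v := dg_sd_other h1 h2
    rw [mem_good]
    refine ⟨?_, ?_, ?_⟩
    · rw [mem_ev, hdv]
      exact mem_ev.1 hve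
    · rw [hnb']
      intro w hw
      rw [mem_ev, hoth w hw]
      exact mem_ev.1 (hvn hw)
    · rw [hnb', hdv]
      rcases hv3 with h4 | ⟨a, b, hab, h5, h6⟩
      · exact Or.inl h4
      · exact Or.inr ⟨a, b, hab, h5, fun h7 => h6 (Finset.mem_sdiff.1 h7).1⟩
  have hcx : (nb E x).card ≤ 19 := by
    have h1 := h x
    rw [gs_I hx] at h1
    exact h1
  have hbi : ((nb E x).biUnion (fun a => nb E a ∩ ev E)).card ≤ (nb E x).card * 19 :=
    Finset.card_biUnion_le_card_mul _ _ _ fun a _ => h a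
  have h1 := Finset.card_le_card hsub
  have h2 := Finset.card_union_le (good (E \ st x (nb E x)))
    (({x} ∪ nb E x) ∪ (nb E x).biUnion (fun a => nb E a ∩ ev E))
  have h3 := Finset.card_union_le ({x} ∪ nb E x) ((nb E x).biUnion (fun a => nb E a ∩ ev E))
  have h4 := Finset.card_union_le {x} (nb E x)
  rw [Finset.card_singleton] at h4
  have h5 : (nb E x).card * 19 ≤ 19 * 19 := Nat.mul_le_mul_right 19 hcx
  omega

end Pool.Agent.Lib.MP_94420a_co
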