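import Pool.Agent.Lib.MP_94420a_co_T.WT

/-!
# Good vertices and triangle components: counting

`good E`: the even vertices `x` all of whose neighbours are even, with degree at least `4` or with exactly two
neighbours, which are not adjacent.  `tri E`: the vertices of the components that are triangles.

`gcount`.  Let `J = {v ∈ ev E : some y ∈ nb E v is in od E}`, `I = ev E \ J`; for `v ∈ I`: `nb E v ⊆ ev E` (a neighbour is not
isolated, so it is in `od E` or in `ev E`).  `J ⊆ (od E).biUnion (fun y => nb E y ∩ ev E)`, so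
`J.card ≤ 19 * (od E).card` (`Finset.card_biUnion_le_card_mul`).  `I ⊆ good E ∪ tri E ∪ B` where
`B = (good E ∪ J).biUnion (fun a => nb E a ∩ ev E)`, `B.card ≤ 19 * ((good E).card + J.card)`: let `v ∈ I \ good E`.  Then
`dg E v` is even, not `0`, less than `4`, so `dg E v = 2 = (nb E v).card` (`card_nb`), `nb E v = {a, b}`, `a ≠ b`
(`Finset.card_eq_two`), `s(a, b) ∈ E` (as `v ∉ good E`), and `a, b ∈ ev E`.  If `dg E a ≠ 2` then `4 ≤ dg E a`, so
`a ∈ J` or `a ∈ good E`; `v ∈ nb E a ∩ ev E`, so `v ∈ B`.  The same for `b`.  If `dg E a = dg E b = 2` then `nb E a = {v, b}`,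
`nb E b = {v, a}` and `v ∈ tri E`.
Sum: `(od E).card + J.card + I.card ≤ (1 + 19 + 361) od + (1 + 19) good + tri`.
-/

namespace Pool.Agent.Lib.MP_94420a_co

variable {V : Type} [DecidableEq V] [Fintype V]

open Classical in
/-- Even vertices with even neighbours only, of degree at least `4`, or of degree `2` with non-adjacent
neighbours. -/
noncomputable def good (E : Finset (Sym2 V)) : Finset V :=
  Finset.univ.filter fun x => x ∈ ev E ∧ nb E x ⊆ ev E ∧
    (4 ≤ dg E x ∨ ∃ a b : V, a ≠ b ∧ nb E x = {a, b} ∧ s(a, b) ∉ E)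

open Classical in
/-- The vertices of the components that are triangles. -/
noncomputable def tri (E : Finset (Sym2 V)) : Finset V :=
  Finset.univ.filter fun v => ∃ a b : V, a ≠ b ∧ nb E v = {a, b} ∧ nb E a = {v, b} ∧ nb E b = {v, a}

theorem mem_good {E : Finset (Sym2 V)} {x : V} : x ∈ good E ↔ x ∈ ev E ∧ nb E x ⊆ ev E ∧
    (4 ≤ dg E x ∨ ∃ a b : V, a ≠ b ∧ nb E x = {a, b} ∧ s(a, b) ∉ E) := by
  simp [good]

theorem mem_tri {E : Finset (Sym2 V)} {v : V} : v ∈ tri E ↔
    ∃ a b : V, a ≠ b ∧ nb E v = {a, b} ∧ nb E a = {v, b} ∧ nb E b = {v, a} := by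
  simp [tri]

theorem gcount {E : Finset (Sym2 V)} (hE : Ll E) (h : ∀ v, (nb E v ∩ ev E).card ≤ 19) :
    (od E).card + (ev E).card ≤ 381 * (od E).card + 20 * (good E).card + (tri E).card := by
  classical
  let J : Finset V := (ev E).filter fun v => ∃ y ∈ nb E v, y ∈ od E
  let B : Finset V := (good E ∪ J).biUnion fun a => nb E a ∩ ev E
  have hJ : J.card ≤ (od E).card * 19 := by
    have h1 : J ⊆ (od E).biUnion fun y => nb E y ∩ ev E := by
      intro v hv
      obtain ⟨hv1, y, hy1, hy2⟩ := Finset.mem_filter.1 hv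
      exact Finset.mem_biUnion.2 ⟨y, hy2, Finset.mem_inter.2 ⟨mem_nb_comm hy1, hv1⟩⟩
    exact (Finset.card_le_card h1).trans (Finset.card_biUnion_le_card_mul _ _ _ fun y _ => h y)
  have hB : B.card ≤ ((good E).card + J.card) * 19 :=
    (Finset.card_biUnion_le_card_mul _ _ _ fun y _ => h y).trans
      (Nat.mul_le_mul_right 19 (Finset.card_union_le _ _))
  have hsub : ev E ⊆ J ∪ (good E ∪ (tri E ∪ B)) := by
    intro v hv
    by_cases hvJ : v ∈ J
    · exact Finset.mem_union_left _ hvJ
    refine Finset.mem_union_right _ ?_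
    by_cases hvg : v ∈ good E
    · exact Finset.mem_union_left _ hvg
    refine Finset.mem_union_right _ ?_
    have hev : ∀ u ∈ ev E, u ∉ J → nb E u ⊆ ev E := by
      intro u hu huJ y hy
      have h1 : y ∉ od E := fun h2 => huJ (Finset.mem_filter.2 ⟨hu, y, hy, h2⟩)
      rw [mem_od, Nat.not_odd_iff_even] at h1
      exact mem_ev.2 ⟨h1, (dg_ne_zero hy).2⟩
    have hnb := hev v hv hvJ
    obtain ⟨hv1, hv2⟩ := mem_ev.1 hv
    have h4 : ¬ 4 ≤ dg E v := fun h5 => hvg (mem_good.2 ⟨hv, hnb, Or.inl h5⟩)
    have h2 : dg E v = 2 := by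
      obtain ⟨c, hc⟩ := hv1
      omega
    obtain ⟨a, b, hab, hnv⟩ := Finset.card_eq_two.1 ((card_nb hE v).trans h2)
    have hsab : s(a, b) ∈ E := by
      by_contra h5
      exact hvg (mem_good.2 ⟨hv, hnb, Or.inr ⟨a, b, hab, hnv, h5⟩⟩)
    have ha : a ∈ nb E v := by
      rw [hnv]
      exact Finset.mem_insert_self a _
    have hb : b ∈ nb E v := by
      rw [hnv]
      exact Finset.mem_insert_of_mem (Finset.mem_singleton_self b)
    have hbig : ∀ c ∈ nb E v, dg E c ≠ 2 → v ∈ B := by
      intro c hc hc2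
      have hce := hnb hc
      obtain ⟨hc3, hc4⟩ := mem_ev.1 hce
      have h5 : 4 ≤ dg E c := by
        obtain ⟨d, hd⟩ := hc3
        omega
      refine Finset.mem_biUnion.2 ⟨c, ?_, Finset.mem_inter.2 ⟨mem_nb_comm hc, hv⟩⟩
      by_cases hcJ : c ∈ J
      · exact Finset.mem_union_right _ hcJ
      · exact Finset.mem_union_left _ (mem_good.2 ⟨hce, hev c hce hcJ, Or.inl h5⟩)
    by_cases ha2 : dg E a = 2
    · by_cases hb2 : dg E b = 2
      · refine Finset.mem_union_left _ (mem_tri.2 ⟨a, b, hab, hnv, ?_, ?_⟩)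
        · have hvb : v ≠ b := fun h6 => not_mem_nb_self hE v (by rw [← h6] at hb; exact hb)
          refine (Finset.eq_of_subset_of_card_le ?_ ?_).symm
          · intro y hy
            rcases Finset.mem_insert.1 hy with rfl | hy
            · exact mem_nb_comm ha
            · rw [Finset.mem_singleton.1 hy]
              exact mem_nb.2 hsab
          · rw [card_nb hE a, ha2, Finset.card_pair hvb]
        · have hva : v ≠ a := fun h6 => not_mem_nb_self hE v (by rw [← h6] at ha; exact ha)
          refine (Finset.eq_of_subset_of_card_le ?_ ?_).symm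
          · intro y hy
            rcases Finset.mem_insert.1 hy with rfl | hy
            · exact mem_nb_comm hb
            · rw [Finset.mem_singleton.1 hy]
              exact mem_nb_comm (mem_nb.2 hsab)
          · rw [card_nb hE b, hb2, Finset.card_pair hva]
      · exact Finset.mem_union_right _ (hbig b hb hb2)
    · exact Finset.mem_union_right _ (hbig a ha ha2)
  have h1 := Finset.card_le_card hsub
  have h2 := Finset.card_union_le J (good E ∪ (tri E ∪ B))
  have h3 := Finset.card_union_le (good E) (tri E ∪ B)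
  have h5 := Finset.card_union_le (tri E) B
  omega

end Pool.Agent.Lib.MP_94420a_co
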