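import Pool.Agent.Lib.MP_94420a_co.Star
import Pool.Agent.Lib.MP_94420a_co.LB
import Pool.Agent.Lib.MP_94420a_co.PNA
import Pool.Agent.Lib.MP_94420a_co.Deg

/-!
# Counting the members of a family through a vertex

`mc f v` is the number of members of the family `f` that contain `v`; the number of ends at `v` (a
one-vertex path has two ends at its vertex) is `2 * mc f v - dg H v`.

`dg_le_one`: `v ∉ l`: no edge of `le l` contains `v` (`mem_of_mem_le`), both sides are `0`, and `IsEnd v l`
is false (`IsEnd.mem`).  `v ∈ l`: `l = l₁ ++ v :: l₂` (`List.append_of_mem`), `v ∉ l₁`, `v ∉ l₂`; by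
`mem_le_split` the edges at `v` are `s(v, z)` with `z` the last vertex of `l₁` and `s(v, z)` with `z` the first
vertex of `l₂`; `dg = [l₁ ≠ []] + [l₂ ≠ []]`, `IsEnd v l ↔ l₁ = [] ∨ l₂ = []` (nodup).
`sides_one`: `v ∉ l`: `out x l b = some v` is impossible.  `v ∈ l`, `x ∉ l`: `out x l false = l.head?`,
`out x l true = l.getLast?`; `v ∈ l`, `x ∈ l`: `l = bf x l ++ x :: af x l`, `v ∈ bf x l` or `v ∈ af x l` and the outer
end on this side is `v` iff the edge of `v` away from `x` is missing.
`sides_card`: sum over `i` (`Fintype.sum_prod_type`, `Finset.card_filter`, `dg_biUnion`).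
`dg_le_mc`, `isEnd_iff_mc`: sum of `dg_le_one` over `i` (`dg_biUnion`, `Finset.sum_le_sum`,
`Finset.sum_lt_sum`).  `odd_mc`: `isEnd_of_odd`.
-/

namespace Pool.Agent.Lib.MP_94420a_co

variable {V : Type} [DecidableEq V]

/-- The number of members of the family `f` that contain `v`. -/
def mc {k : ℕ} (f : Fin k → List V) (v : V) : ℕ := (Finset.univ.filter fun i => v ∈ f i).card

private theorem mc_core {v : V} {α β : List V} (hl : (α ++ v :: β).Nodup) :
    dg (le (α ++ v :: β)) v = (if α = [] then 0 else 1) + (if β = [] then 0 else 1) := by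
  have h0 := hl
  rw [List.nodup_append] at h0
  obtain ⟨_, h2, h3⟩ := h0
  rw [List.nodup_cons] at h2
  have hα : v ∉ α := fun h => h3 v h v List.mem_cons_self rfl
  have hβ : v ∉ β := h2.1
  have hfil : (le (α ++ v :: β)).filter (fun e => v ∈ e) =
      (α.getLast?.toFinset ∪ β.head?.toFinset).image fun z => s(v, z) := by
    ext e
    rw [Finset.mem_filter, mem_le_split hα hβ, Finset.mem_image]
    constructor
    · rintro ⟨(h | h) | ⟨z, hz, he⟩ | ⟨z, hz, he⟩, hv⟩
      · exact absurd (mem_of_mem_le h hv) hα
      · exact absurd (mem_of_mem_le h hv) hβ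
      · exact ⟨z, Finset.mem_union_left _ (Option.mem_toFinset.2 hz), he.symm⟩
      · exact ⟨z, Finset.mem_union_right _ (Option.mem_toFinset.2 hz), he.symm⟩
    · rintro ⟨z, hz, rfl⟩
      refine ⟨Or.inr ?_, Sym2.mem_mk_left v z⟩
      rcases Finset.mem_union.1 hz with h | h
      · exact Or.inl ⟨z, Option.mem_toFinset.1 h, rfl⟩
      · exact Or.inr ⟨z, Option.mem_toFinset.1 h, rfl⟩
  have hinj : Function.Injective fun z : V => s(v, z) := by
    intro a b h
    rcases Sym2.eq_iff.1 h with ⟨_, h⟩ | ⟨h4, h5⟩
    · exact h
    · exact h5.trans h4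
  have hdis : Disjoint α.getLast?.toFinset β.head?.toFinset := by
    rw [Finset.disjoint_left]
    intro z hz1 hz2
    have h4 : z ∈ α := mem_of_getLast? (Option.mem_toFinset.1 hz1)
    have h5 : z ∈ β := mem_of_head? (Option.mem_toFinset.1 hz2)
    exact h3 z h4 z (List.mem_cons_of_mem _ h5) rfl
  rw [dg, hfil, Finset.card_image_of_injective _ hinj, Finset.card_union_of_disjoint hdis]
  congr 1
  · rcases List.eq_nil_or_concat α with rfl | ⟨t, a, rfl⟩
    · simp
    · simp
  · cases β with
    | nil => simp
    | cons b t => simp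

private theorem mc_head {v : V} {α β : List V} (hl : (α ++ v :: β).Nodup) :
    (α ++ v :: β).head? = some v ↔ α = [] := by
  cases α with
  | nil => simp
  | cons a t =>
    constructor
    · intro h
      rw [List.cons_append, List.head?_cons, Option.some.injEq] at h
      subst h
      rw [List.cons_append, List.nodup_cons] at hl
      exact absurd (List.mem_append_right t List.mem_cons_self) hl.1
    · intro h
      exact absurd h (List.cons_ne_nil a t)

private theorem mc_last {v : V} {α β : List V} (hl : (α ++ v :: β).Nodup) :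
    (α ++ v :: β).getLast? = some v ↔ β = [] := by
  rcases List.eq_nil_or_concat β with rfl | ⟨t, b, rfl⟩
  · simp
  · constructor
    · intro h
      rw [List.concat_eq_append] at h hl
      have h1 : (α ++ v :: (t ++ [b])).getLast? = some b := by
        rw [← List.cons_append, ← List.append_assoc]
        exact List.getLast?_concat
      rw [h1, Option.some.injEq] at h
      subst h
      rw [List.nodup_append] at hl
      have h2 := hl.2.1
      rw [List.nodup_cons] at h2
      exact absurd (List.mem_append_right t (List.mem_singleton_self b)) h2.1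
    · intro h
      rw [List.concat_eq_append] at h
      exact absurd h (List.append_ne_nil_of_right_ne_nil t (List.cons_ne_nil b []))

private theorem mc_zero {l : List V} {v : V} (hv : v ∉ l) : dg (le l) v = 0 := by
  rw [dg, Finset.card_eq_zero, Finset.filter_eq_empty_iff]
  intro e he h
  exact hv (mem_of_mem_le he h)

theorem dg_le_one {l : List V} (hl : l.Nodup) (v : V) :
    dg (le l) v ≤ 2 * (if v ∈ l then 1 else 0) ∧
      (IsEnd v l ↔ dg (le l) v < 2 * (if v ∈ l then 1 else 0)) := by
  by_cases hv : v ∈ l
  · obtain ⟨α, β, rfl⟩ := List.append_of_mem hv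
    rw [if_pos hv, mc_core hl, IsEnd, mc_head hl, mc_last hl]
    by_cases h1 : α = []
    · by_cases h2 : β = []
      · simp [h1, h2]
      · simp [h1, h2]
    · by_cases h2 : β = []
      · simp [h1, h2]
      · simp [h1, h2]
  · rw [if_neg hv, mc_zero hv]
    refine ⟨le_refl _, ?_⟩
    constructor
    · intro h
      exact absurd h.mem hv
    · intro h
      exact absurd h (Nat.lt_irrefl _)

theorem sides_one {x v : V} {l : List V} (hl : l.Nodup) (hv : v ≠ x) :
    (Finset.univ.filter fun b : Bool => out x l b = some v).card + dg (le l) v =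
      2 * (if v ∈ l then 1 else 0) := by
  rw [Finset.card_filter, Fintype.sum_bool]
  by_cases hx : x ∈ l
  · have ht : out x l true = (af x l).getLast? := by simp [out, hx]
    have hf : out x l false = (bf x l).head? := by simp [out, hx]
    rw [ht, hf]
    have hsp := bf_af hx
    by_cases hvl : v ∈ l
    · rw [if_pos hvl]
      have h1 := hvl
      have hl1 := hl
      rw [← hsp] at h1 hl1
      rw [List.mem_append, List.mem_cons] at h1
      have h2 := hl1
      rw [List.nodup_append] at h2
      obtain ⟨_, _, h5⟩ := h2
      rcases h1 with h1 | h1 | h1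
      · obtain ⟨α, γ, hα⟩ := List.append_of_mem h1
        have h6 : v ∉ af x l := fun h => h5 v h1 v (List.mem_cons_of_mem _ h) rfl
        have h7 : (af x l).getLast? ≠ some v := fun h => h6 (mem_of_getLast? h)
        have h8 : l = α ++ v :: (γ ++ x :: af x l) := by
          have h9 : bf x l ++ x :: af x l = α ++ v :: (γ ++ x :: af x l) := by
            rw [hα, List.append_assoc, List.cons_append]
          exact hsp.symm.trans h9
        have h10 : (α ++ v :: (γ ++ x :: af x l)).Nodup := h8 ▸ hl
        have h11 : dg (le l) v = (if α = [] then 0 else 1) + 1 := by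
          have h12 : dg (le l) v = dg (le (α ++ v :: (γ ++ x :: af x l))) v := by rw [← h8]
          rw [h12, mc_core h10, if_neg (List.append_ne_nil_of_right_ne_nil γ (List.cons_ne_nil x _))]
        have h13 : (α ++ v :: γ).Nodup := by
          rw [← hα]
          rw [List.nodup_append] at hl1
          exact hl1.1
        rw [if_neg h7, h11, hα]
        by_cases h14 : α = []
        · rw [if_pos ((mc_head h13).2 h14), if_pos h14]
        · rw [if_neg (fun h => h14 ((mc_head h13).1 h)), if_neg h14]
      · exact absurd h1 hv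
      · obtain ⟨γ, β, hβ⟩ := List.append_of_mem h1
        have h6 : v ∉ bf x l := fun h => h5 v h v (List.mem_cons_of_mem _ h1) rfl
        have h7 : (bf x l).head? ≠ some v := fun h => h6 (mem_of_head? h)
        have h8 : l = (bf x l ++ x :: γ) ++ v :: β := by
          have h9 : bf x l ++ x :: af x l = (bf x l ++ x :: γ) ++ v :: β := by
            conv_lhs => rw [hβ]
            rw [List.append_assoc, List.cons_append]
          exact hsp.symm.trans h9
        have h10 : ((bf x l ++ x :: γ) ++ v :: β).Nodup := h8 ▸ hl
        have h11 : dg (le l) v = 1 + (if β = [] then 0 else 1) := by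
          have h12 : dg (le l) v = dg (le ((bf x l ++ x :: γ) ++ v :: β)) v := by rw [← h8]
          rw [h12, mc_core h10, if_neg (List.append_ne_nil_of_right_ne_nil _ (List.cons_ne_nil x _))]
        have h13 : (γ ++ v :: β).Nodup := by
          rw [← hβ]
          rw [List.nodup_append] at hl1
          exact (List.nodup_cons.1 hl1.2.1).2
        rw [if_neg h7, h11]
        by_cases h14 : β = []
        · have h15 : (af x l).getLast? = some v := by
            rw [hβ]
            exact (mc_last h13).2 h14
          rw [if_pos h15, if_pos h14]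
        · have h15 : (af x l).getLast? ≠ some v := by
            rw [hβ]
            exact fun h => h14 ((mc_last h13).1 h)
          rw [if_neg h15, if_neg h14]
    · rw [if_neg hvl, mc_zero hvl]
      have h1 : (af x l).getLast? ≠ some v := by
        intro h
        refine hvl ?_
        rw [← hsp]
        exact List.mem_append_right _ (List.mem_cons_of_mem _ (mem_of_getLast? h))
      have h2 : (bf x l).head? ≠ some v := by
        intro h
        refine hvl ?_
        rw [← hsp]
        exact List.mem_append_left _ (mem_of_head? h)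
      rw [if_neg h1, if_neg h2]
  · have ht : out x l true = l.getLast? := by simp [out, hx]
    have hf : out x l false = l.head? := by simp [out, hx]
    rw [ht, hf]
    by_cases hvl : v ∈ l
    · obtain ⟨α, β, rfl⟩ := List.append_of_mem hvl
      rw [if_pos hvl, mc_core hl]
      by_cases h1 : α = []
      · rw [if_pos ((mc_head hl).2 h1), if_pos h1]
        by_cases h2 : β = []
        · rw [if_pos ((mc_last hl).2 h2), if_pos h2]
        · rw [if_neg (fun h => h2 ((mc_last hl).1 h)), if_neg h2]
      · rw [if_neg (fun h => h1 ((mc_head hl).1 h)), if_neg h1]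
        by_cases h2 : β = []
        · rw [if_pos ((mc_last hl).2 h2), if_pos h2]
        · rw [if_neg (fun h => h2 ((mc_last hl).1 h)), if_neg h2]
    · rw [if_neg hvl, mc_zero hvl, if_neg (fun h => hvl (mem_of_getLast? h)),
        if_neg (fun h => hvl (mem_of_head? h))]

theorem mc_eq_sum {k : ℕ} (f : Fin k → List V) (v : V) : mc f v = ∑ i, if v ∈ f i then 1 else 0 := by
  rw [mc, Finset.card_filter]

theorem sides_card {k : ℕ} {H : Finset (Sym2 V)} {f : Fin k → List V} (hf : PF H f) {x v : V}
    (hv : v ≠ x) :
    (Finset.univ.filter fun τ : Fin k × Bool => out x (f τ.1) τ.2 = some v).card + dg H v =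
      2 * mc f v := by
  rw [Finset.card_filter, Fintype.sum_prod_type, dg_biUnion hf v, mc_eq_sum, Finset.mul_sum,
    ← Finset.sum_add_distrib]
  refine Finset.sum_congr rfl fun i _ => ?_
  rw [← sides_one (x := x) (v := v) (hf.1 i) hv, Finset.card_filter]

theorem dg_le_mc {k : ℕ} {H : Finset (Sym2 V)} {f : Fin k → List V} (hf : PF H f) (v : V) :
    dg H v ≤ 2 * mc f v := by
  rw [dg_biUnion hf v, mc_eq_sum, Finset.mul_sum]
  exact Finset.sum_le_sum fun i _ => (dg_le_one (hf.1 i) v).1

theorem isEnd_iff_mc {k : ℕ} {H : Finset (Sym2 V)} {f : Fin k → List V} (hf : PF H f) (v : V) :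
    (∃ i, IsEnd v (f i)) ↔ dg H v < 2 * mc f v := by
  rw [dg_biUnion hf v, mc_eq_sum, Finset.mul_sum]
  constructor
  · rintro ⟨i, hi⟩
    exact Finset.sum_lt_sum (fun j _ => (dg_le_one (hf.1 j) v).1)
      ⟨i, Finset.mem_univ i, (dg_le_one (hf.1 i) v).2.1 hi⟩
  · intro h
    by_contra hcon
    push Not at hcon
    refine absurd h (not_lt.2 (Finset.sum_le_sum fun i _ => ?_))
    exact not_lt.1 fun h2 => hcon i ((dg_le_one (hf.1 i) v).2.2 h2)

theorem odd_mc {k : ℕ} {H : Finset (Sym2 V)} {f : Fin k → List V} (hf : PF H f) {v : V}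
    (hv : Odd (dg H v)) : dg H v < 2 * mc f v :=
  (isEnd_iff_mc hf v).1 (isEnd_of_odd hf hv)

end Pool.Agent.Lib.MP_94420a_co
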