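import Pool.Agent.Lib.MP_94420a_co_T.PhB
import Pool.Agent.Lib.MP_94420a_co_T.BigT

/-!
# All graphs
-/

namespace Pool.Agent.Lib.MP_94420a_co

variable {V : Type} [DecidableEq V] [Fintype V]

theorem phA : ∀ (n : ℕ) (E : Finset (Sym2 V)), Ll E → E.card = n →
    ∃ N, PN E N ∧ 32400 * N + ((od E).card + (ev E).card) ≤
      5400 * WW E ∅ + 381 * (od E).card + (tri E).card := by
  intro n
  induction n using Nat.strong_induction_on with
  | _ n ih =>
    intro E hE hn
    by_cases h : ∀ v, (nb E v ∩ ev E).card ≤ 19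
    · obtain ⟨N, h1, h2⟩ := phB _ E hE h rfl
      have h3 := gcount hE h
      exact ⟨N, h1, by omega⟩
    · push Not at h
      obtain ⟨c, hc⟩ := h
      have hne : (nb E c ∩ ev E).Nonempty := by
        rw [← Finset.card_pos]
        omega
      obtain ⟨N, hN1, hN2⟩ := ih _ (hn ▸ card_sd_st Finset.inter_subset_left hne)
        (E \ st c (nb E c ∩ ev E)) (Ll_sd hE _) rfl
      refine ⟨_, big_step hE c hN1, ?_⟩
      have h1 := bg_WW hE hne
      have h2 := bg_od hE c
      have h3 := bg_np hE c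
      have h4 := Finset.card_le_card (bg_tri hE c)
      obtain ⟨s, hs⟩ : ∃ s, (nb E c ∩ ev E).card = s := ⟨_, rfl⟩
      rw [hs] at hc h1 h2 ⊢
      have h5 : 32400 * ((s / 2 + 3) / 4) + 1 + 381 * (s + s % 2) + 5400 * (s % 2) ≤ 5400 * s := by
        omega
      omega

end Pool.Agent.Lib.MP_94420a_co
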