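import Pool.Agent.Lib.MP_94420a_co_T.Supp

/-!
# Suppression: weight, even neighbours, good vertices

Here `x ∈ ev E` and `a, b ∈ ev E`.  `ev (sup E x a b) = (ev E).erase x`, `od (sup E x a b) = od E` (`sup_dg`, `sup_dg_self`).
`sup_WW`: `WW_empty`.
`sup_ev`: `v = x`: `nb (sup ..) x = ∅`.  `v ∉ {x, a, b}`: `nb (sup ..) v = nb E v`.  `v = a`: `nb (sup ..) a =
insert b ((nb E a).erase x)`, and `x ∈ nb E a ∩ ev E`, so `(nb (sup ..) a ∩ ev (sup ..)).card ≤ (nb E a ∩ ev E).card`.
`sup_good`: `good E ⊆ good (sup ..) ∪ {x, a, b} ∪ (nb E a ∩ ev E)`: let `v ∈ good E`, `v ∉ {x, a, b}`.  Then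
`nb (sup ..) v = nb E v ⊆ ev E`, `x ∉ nb E v`, so `nb (sup ..) v ⊆ ev (sup ..)`; degree the same.  If `nb E v = {p, q}`,
`p ≠ q`, `s(p, q) ∉ E`: then `s(p, q) ∉ sup ..` unless `s(p, q) = s(a, b)`; in this case `a ∈ nb E v`, so
`v ∈ nb E a ∩ ev E`.  `3 + 19 = 22`.
-/

namespace Pool.Agent.Lib.MP_94420a_co

variable {V : Type} [DecidableEq V] [Fintype V]

private theorem suppG_ev {E : Finset (Sym2 V)} (hE : Ll E) {x a b : V} (hx : nb E x = {a, b})
    (hab : a ≠ b) (hE' : s(a, b) ∉ E) : ev (sup E x a b) = (ev E).erase x := by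
  ext v
  rw [mem_ev, Finset.mem_erase, mem_ev]
  by_cases hv : v = x
  · subst hv
    rw [sup_dg_self hE hx hab hE']
    constructor
    · intro h
      exact absurd rfl h.2
    · intro h
      exact absurd rfl h.1
  · rw [sup_dg hE hx hab hE' hv]
    exact ⟨fun h => ⟨hv, h⟩, fun h => h.2⟩

private theorem suppG_od {E : Finset (Sym2 V)} (hE : Ll E) {x a b : V} (hx : nb E x = {a, b})
    (hab : a ≠ b) (hE' : s(a, b) ∉ E) (hxe : x ∈ ev E) : od (sup E x a b) = od E := by
  ext v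
  simp only [od, Finset.mem_filter, Finset.mem_univ, true_and]
  by_cases hv : v = x
  · subst hv
    rw [sup_dg_self hE hx hab hE']
    constructor
    · intro h
      exact absurd h (by decide)
    · intro h
      exact absurd (mem_ev.1 hxe).1 (Nat.not_even_iff_odd.2 h)
  · rw [sup_dg hE hx hab hE' hv]

private theorem suppG_ne {E : Finset (Sym2 V)} (hE : Ll E) {x a b : V} (hx : nb E x = {a, b}) :
    a ≠ x ∧ b ≠ x := by
  have h := not_mem_nb_self hE x
  rw [hx, Finset.mem_insert, Finset.mem_singleton, not_or] at h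
  exact ⟨fun h' => h.1 h'.symm, fun h' => h.2 h'.symm⟩

private theorem suppG_nb {E : Finset (Sym2 V)} (hE : Ll E) {x a b : V} (hx : nb E x = {a, b})
    (hab : a ≠ b) {v : V} (h1 : v ≠ x) (h2 : v ≠ a) (h3 : v ≠ b) :
    nb (sup E x a b) v = nb E v := by
  ext w
  rw [mem_nb, mem_nb, sup_mem hE hx hab]
  constructor
  · rintro (h | h)
    · rcases Sym2.eq_iff.1 h with ⟨h4, -⟩ | ⟨h4, -⟩
      · exact absurd h4 h2
      · exact absurd h4 h3
    · exact h.1
  · intro h
    refine Or.inr ⟨h, h1, fun h4 => ?_⟩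
    rw [h4] at h
    have h5 : v ∈ nb E x := mem_nb_comm (mem_nb.2 h)
    rw [hx, Finset.mem_insert, Finset.mem_singleton] at h5
    rcases h5 with h5 | h5
    · exact h2 h5
    · exact h3 h5

omit [Fintype V] in
private theorem suppG_comm {E : Finset (Sym2 V)} {x a b : V} : sup E x a b = sup E x b a := by
  unfold sup
  rw [Finset.erase_right_comm, Sym2.eq_swap]

private theorem suppG_a {E : Finset (Sym2 V)} (hE : Ll E) {x a b : V} (hx : nb E x = {a, b})
    (hab : a ≠ b) (hE' : s(a, b) ∉ E) (hxe : x ∈ ev E) :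
    (nb (sup E x a b) a ∩ ev (sup E x a b)).card ≤ (nb E a ∩ ev E).card := by
  have hxa : x ∈ nb E a := mem_nb_comm (by rw [hx]; exact Finset.mem_insert_self _ _)
  have h1 : nb (sup E x a b) a ∩ ev (sup E x a b) ⊆ insert b ((nb E a ∩ ev E).erase x) := by
    intro w hw
    rw [suppG_ev hE hx hab hE', Finset.mem_inter, mem_nb, sup_mem hE hx hab,
      Finset.mem_erase] at hw
    obtain ⟨h2 | h2, h3, h4⟩ := hw
    · rcases Sym2.eq_iff.1 h2 with ⟨-, h5⟩ | ⟨h5, -⟩
      · rw [h5]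
        exact Finset.mem_insert_self _ _
      · exact absurd h5 hab
    · exact Finset.mem_insert_of_mem (Finset.mem_erase.2 ⟨h3, Finset.mem_inter.2
        ⟨mem_nb.2 h2.1, h4⟩⟩)
  refine (Finset.card_le_card h1).trans ((Finset.card_insert_le _ _).trans ?_)
  rw [Finset.card_erase_add_one (Finset.mem_inter.2 ⟨hxa, hxe⟩)]

theorem sup_WW {E : Finset (Sym2 V)} (hE : Ll E) {x a b : V} (hx : nb E x = {a, b})
    (hab : a ≠ b) (hE' : s(a, b) ∉ E) (hxe : x ∈ ev E) :
    WW (sup E x a b) ∅ + 4 = WW E ∅ := by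
  rw [WW_empty, WW_empty, suppG_ev hE hx hab hE', suppG_od hE hx hab hE' hxe]
  have h := Finset.card_erase_add_one hxe
  omega

theorem sup_ev {E : Finset (Sym2 V)} (hE : Ll E) {x a b : V} (hx : nb E x = {a, b})
    (hab : a ≠ b) (hE' : s(a, b) ∉ E) (hxe : x ∈ ev E) (ha : a ∈ ev E) (hb : b ∈ ev E)
    (h : ∀ v, (nb E v ∩ ev E).card ≤ 19) (v : V) :
    (nb (sup E x a b) v ∩ ev (sup E x a b)).card ≤ 19 := by
  have _ := ha
  have _ := hb
  by_cases h1 : v = x
  · have h2 : nb (sup E x a b) v = ∅ := by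
      rw [← Finset.card_eq_zero, card_nb (sup_Ll hE hab), h1, sup_dg_self hE hx hab hE']
    rw [h2, Finset.empty_inter, Finset.card_empty]
    exact Nat.zero_le _
  by_cases h2 : v = a
  · rw [h2]
    exact (suppG_a hE hx hab hE' hxe).trans (h a)
  by_cases h3 : v = b
  · rw [h3, suppG_comm]
    refine (suppG_a hE (by rw [hx]; exact Finset.pair_comm a b) hab.symm ?_ hxe).trans (h b)
    rw [Sym2.eq_swap]
    exact hE'
  rw [suppG_nb hE hx hab h1 h2 h3, suppG_ev hE hx hab hE']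
  exact (Finset.card_le_card (Finset.inter_subset_inter_left
    (Finset.erase_subset x (ev E)))).trans (h v)

theorem sup_good {E : Finset (Sym2 V)} (hE : Ll E) {x a b : V} (hx : nb E x = {a, b})
    (hab : a ≠ b) (hE' : s(a, b) ∉ E) (hxe : x ∈ ev E) (ha : a ∈ ev E) (hb : b ∈ ev E)
    (h : ∀ v, (nb E v ∩ ev E).card ≤ 19) :
    (good E).card ≤ (good (sup E x a b)).card + 22 := by
  have _ := hxe
  have _ := ha
  have _ := hb
  have h1 : good E ⊆ good (sup E x a b) ∪ (({x, a, b} : Finset V) ∪ (nb E a ∩ ev E)) := by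
    intro v hv
    obtain ⟨g1, g2, g3⟩ := mem_good.1 hv
    rw [Finset.mem_union, Finset.mem_union]
    by_cases h0 : v ∈ ({x, a, b} : Finset V)
    · exact Or.inr (Or.inl h0)
    rw [Finset.mem_insert, Finset.mem_insert, Finset.mem_singleton, not_or, not_or] at h0
    obtain ⟨h1, h2, h3⟩ := h0
    by_cases h4 : v ∈ nb E a ∩ ev E
    · exact Or.inr (Or.inr h4)
    refine Or.inl (mem_good.2 ?_)
    rw [suppG_ev hE hx hab hE', suppG_nb hE hx hab h1 h2 h3, sup_dg hE hx hab hE' h1]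
    refine ⟨Finset.mem_erase.2 ⟨h1, g1⟩, fun w hw => Finset.mem_erase.2 ⟨fun h5 => ?_, g2 hw⟩, ?_⟩
    · rw [h5] at hw
      have h6 : v ∈ nb E x := mem_nb_comm hw
      rw [hx, Finset.mem_insert, Finset.mem_singleton] at h6
      rcases h6 with h6 | h6
      · exact h2 h6
      · exact h3 h6
    · rcases g3 with g3 | ⟨p, q, g4, g5, g6⟩
      · exact Or.inl g3
      · refine Or.inr ⟨p, q, g4, g5, fun h5 => ?_⟩
        rcases (sup_mem hE hx hab).1 h5 with h6 | h6
        · apply h4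
          have h7 : a ∈ nb E v := by
            rw [g5, Finset.mem_insert, Finset.mem_singleton]
            rcases Sym2.eq_iff.1 h6 with ⟨h7, -⟩ | ⟨-, h7⟩
            · exact Or.inl h7.symm
            · exact Or.inr h7.symm
          exact Finset.mem_inter.2 ⟨mem_nb_comm h7, g1⟩
        · exact g6 h6.1
  refine (Finset.card_le_card h1).trans ((Finset.card_union_le _ _).trans
    (Nat.add_le_add_left ?_ _))
  refine (Finset.card_union_le _ _).trans ?_
  have h5 : ({x, a, b} : Finset V).card ≤ 3 := Finset.card_le_three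
  have h6 := h a
  omega

end Pool.Agent.Lib.MP_94420a_co
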