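import Pool.Agent.Lib.MP_94420a_co_T.Supp

/-!
The proof of `sup_pn` is in the header of `Supp.lean`.
-/

namespace Pool.Agent.Lib.MP_94420a_co

variable {V : Type} [DecidableEq V] [Fintype V]

omit [Fintype V] in
private theorem suppP_split {l : List V} {a b : V} (h : s(a, b) ∈ le l) :
    ∃ (l₁ l₂ : List V) (p q : V), l = l₁ ++ p :: q :: l₂ ∧ s(p, q) = s(a, b) := by
  induction l with
  | nil => simp [le_nil] at h
  | cons c t ih =>
    cases t with
    | nil => simp [le_singleton] at h
    | cons d t =>
      rw [le_cons_cons, Finset.mem_insert] at h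
      rcases h with h | h
      · exact ⟨[], t, c, d, rfl, h.symm⟩
      · obtain ⟨l₁, l₂, p, q, h1, h2⟩ := ih h
        refine ⟨c :: l₁, l₂, p, q, ?_, h2⟩
        rw [h1, List.cons_append]

omit [Fintype V] in
private theorem suppP_edge {l : List V} (h : 2 ≤ l.length) {v : V} (hv : v ∈ l) :
    ∃ e ∈ le l, v ∈ e := by
  induction l with
  | nil => simp at hv
  | cons c t ih =>
    cases t with
    | nil => simp at h
    | cons d t =>
      rcases List.mem_cons.1 hv with hv | hv
      · exact ⟨s(c, d), by rw [le_cons_cons]; exact Finset.mem_insert_self _ _, by rw [hv]; simp⟩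
      · cases t with
        | nil =>
          have hvd : v = d := by simpa using hv
          exact ⟨s(c, d), by rw [le_cons_cons]; exact Finset.mem_insert_self _ _,
            by rw [hvd]; simp⟩
        | cons u t =>
          obtain ⟨e, he, hve⟩ := ih (by simp) hv
          exact ⟨e, by rw [le_cons_cons]; exact Finset.mem_insert_of_mem he, hve⟩

omit [Fintype V] in
private theorem suppP_le (l₁ l₂ : List V) (p q x : V) (hn : (l₁ ++ p :: q :: l₂).Nodup)
    (e : Sym2 V) : e ∈ le (l₁ ++ p :: x :: q :: l₂) ↔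
      (e ∈ le (l₁ ++ p :: q :: l₂) ∧ e ≠ s(p, q)) ∨ e = s(x, p) ∨ e = s(x, q) := by
  rw [le_append_cons, le_append_cons l₁ p (q :: l₂), le_cons_cons, le_cons_cons, le_cons_cons]
  simp only [Finset.mem_union, Finset.mem_insert]
  rw [List.nodup_append] at hn
  obtain ⟨-, hn2, hn3⟩ := hn
  have hpq : p ∉ q :: l₂ := (List.nodup_cons.1 hn2).1
  have h1 : s(p, q) ∉ le (l₁ ++ [p]) := by
    intro h
    have hq : q ∈ l₁ ++ [p] := mem_of_mem_le h (by simp)
    rw [List.mem_append, List.mem_singleton] at hq
    rcases hq with hq | hq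
    · exact hn3 q hq q (by simp) rfl
    · apply hpq
      rw [hq]
      simp
  have h2 : s(p, q) ∉ le (q :: l₂) := fun h => hpq (mem_of_mem_le h (by simp))
  have h3 : s(p, x) = s(x, p) := Sym2.eq_swap
  rw [h3]
  constructor
  · rintro (h | h | h | h)
    · refine Or.inl ⟨Or.inl h, ?_⟩
      rintro rfl
      exact h1 h
    · exact Or.inr (Or.inl h)
    · exact Or.inr (Or.inr h)
    · refine Or.inl ⟨Or.inr (Or.inr h), ?_⟩
      rintro rfl
      exact h2 h
  · rintro (⟨h | h | h, hne⟩ | h | h)
    · exact Or.inl h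
    · exact absurd h hne
    · exact Or.inr (Or.inr (Or.inr h))
    · exact Or.inr (Or.inl h)
    · exact Or.inr (Or.inr (Or.inl h))

theorem sup_pn {E : Finset (Sym2 V)} (hE : Ll E) {x a b : V} (hx : nb E x = {a, b})
    (hab : a ≠ b) (hE' : s(a, b) ∉ E) {N : ℕ} (h : PN (sup E x a b) N) : PN E N := by
  obtain ⟨f, hf1, hf2, hf3⟩ := h
  have hxa : s(x, a) ∈ E := by
    rw [← mem_nb, hx]
    simp
  have hxb : s(x, b) ∈ E := by
    rw [← mem_nb, hx]
    simp
  have hxa' : x ≠ a := by
    rintro rfl
    exact hE _ hxa (by simp)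
  have hxb' : x ≠ b := by
    rintro rfl
    exact hE _ hxb (by simp)
  have hsub : ∀ j, ∀ e ∈ le (f j), e ∈ sup E x a b := by
    intro j e he
    rw [← hf3]
    exact Finset.mem_biUnion.2 ⟨j, Finset.mem_univ _, he⟩
  have hnx : ∀ j, ∀ e ∈ le (f j), x ∉ e := by
    intro j e he hxe
    have h1 := hsub j e he
    obtain ⟨w, rfl⟩ := Sym2.mem_iff_exists.1 hxe
    rcases (sup_mem hE hx hab).1 h1 with h2 | h2
    · rcases Sym2.eq_iff.1 h2 with ⟨h3, -⟩ | ⟨h3, -⟩
      · exact hxa' h3
      · exact hxb' h3
    · exact h2.2.1 rfl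
  have hmem : ∀ e, e ≠ s(a, b) → e ∈ sup E x a b → e ∈ E := by
    intro e h1 h2
    rw [sup, Finset.mem_insert] at h2
    rcases h2 with h2 | h2
    · exact absurd h2 h1
    · exact Finset.mem_of_mem_erase (Finset.mem_of_mem_erase h2)
  have hin : s(a, b) ∈ sup E x a b := by
    rw [sup]
    exact Finset.mem_insert_self _ _
  rw [← hf3] at hin
  obtain ⟨i, -, hi⟩ := Finset.mem_biUnion.1 hin
  obtain ⟨l₁, l₂, p, q, hl, hpq⟩ := suppP_split hi
  have hni := hf1 i
  have hxl : x ∉ f i := by
    intro h1
    obtain ⟨e, he, hxe⟩ := suppP_edge (l := f i) (by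
      rw [hl, List.length_append, List.length_cons, List.length_cons]
      omega) h1
    exact hnx i e he hxe
  have hle : ∀ e, e ∈ le (l₁ ++ p :: x :: q :: l₂) ↔
      (e ∈ le (f i) ∧ e ≠ s(a, b)) ∨ e = s(x, a) ∨ e = s(x, b) := by
    intro e
    rw [hl] at hni
    rw [suppP_le l₁ l₂ p q x hni e, ← hl, hpq]
    rcases Sym2.eq_iff.1 hpq with ⟨h3, h4⟩ | ⟨h3, h4⟩
    · rw [h3, h4]
    · rw [h3, h4, or_comm (a := e = s(x, b))]
  have hnod : (l₁ ++ p :: x :: q :: l₂).Nodup := by
    have h1 : (l₁ ++ p :: x :: q :: l₂).Perm (x :: (l₁ ++ p :: q :: l₂)) := by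
      have h2 : l₁ ++ p :: x :: q :: l₂ = (l₁ ++ [p]) ++ x :: (q :: l₂) := by simp
      have h3 : l₁ ++ p :: q :: l₂ = (l₁ ++ [p]) ++ (q :: l₂) := by simp
      rw [h2, h3]
      exact List.perm_middle
    rw [h1.nodup_iff, List.nodup_cons]
    rw [hl] at hni hxl
    exact ⟨hxl, hni⟩
  refine ⟨Function.update f i (l₁ ++ p :: x :: q :: l₂), ?_, ?_, ?_⟩
  · intro j
    by_cases hj : j = i
    · subst hj
      rw [Function.update_self]
      exact hnod
    · rw [Function.update_of_ne hj]
      exact hf1 j
  · have hd : ∀ j, j ≠ i → Disjoint (le (l₁ ++ p :: x :: q :: l₂)) (le (f j)) := by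
      intro j hj
      rw [Finset.disjoint_left]
      intro e he hej
      rcases (hle e).1 he with h1 | h1 | h1
      · exact Finset.disjoint_left.1 (hf2 j i hj) hej h1.1
      · exact hnx j e hej (by rw [h1]; simp)
      · exact hnx j e hej (by rw [h1]; simp)
    intro j k hjk
    by_cases hj : j = i
    · subst hj
      rw [Function.update_self, Function.update_of_ne (Ne.symm hjk)]
      exact hd k (Ne.symm hjk)
    · rw [Function.update_of_ne hj]
      by_cases hk : k = i
      · subst hk
        rw [Function.update_self]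
        exact (hd j hj).symm
      · rw [Function.update_of_ne hk]
        exact hf2 j k hjk
  · ext e
    rw [Finset.mem_biUnion]
    constructor
    · rintro ⟨j, -, he⟩
      by_cases hj : j = i
      · subst hj
        rw [Function.update_self] at he
        rcases (hle e).1 he with h1 | h1 | h1
        · exact hmem e h1.2 (hsub j e h1.1)
        · rw [h1]
          exact hxa
        · rw [h1]
          exact hxb
      · rw [Function.update_of_ne hj] at he
        refine hmem e ?_ (hsub j e he)
        rintro rfl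
        exact Finset.disjoint_left.1 (hf2 j i hj) he hi
    · intro he
      by_cases h1 : e = s(x, a) ∨ e = s(x, b)
      · refine ⟨i, Finset.mem_univ _, ?_⟩
        rw [Function.update_self]
        exact (hle e).2 (Or.inr h1)
      · have h2 : e ∈ sup E x a b := by
          rw [sup]
          refine Finset.mem_insert_of_mem (Finset.mem_erase.2 ⟨fun h => h1 (Or.inr h), ?_⟩)
          exact Finset.mem_erase.2 ⟨fun h => h1 (Or.inl h), he⟩
        rw [← hf3] at h2
        obtain ⟨j, -, hj⟩ := Finset.mem_biUnion.1 h2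
        refine ⟨j, Finset.mem_univ _, ?_⟩
        by_cases hji : j = i
        · subst hji
          rw [Function.update_self]
          refine (hle e).2 (Or.inl ⟨hj, ?_⟩)
          rintro rfl
          exact hE' he
        · rw [Function.update_of_ne hji]
          exact hj

end Pool.Agent.Lib.MP_94420a_co
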