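import Pool.Agent.Lib.MP_94420a_co_T.DK
import Pool.Agent.Lib.MP_94420a_co_T.GStar
import Pool.Agent.Lib.MP_94420a_co_T.SuppG
import Pool.Agent.Lib.MP_94420a_co_T.SuppP

/-!
# Graphs in which every vertex has at most `19` even neighbours
-/

namespace Pool.Agent.Lib.MP_94420a_co

variable {V : Type} [DecidableEq V] [Fintype V]

theorem phB : ∀ (n : ℕ) (E : Finset (Sym2 V)), Ll E → (∀ v, (nb E v ∩ ev E).card ≤ 19) →
    E.card = n → ∃ N, PN E N ∧ 1620 * N + (good E).card ≤ 270 * WW E ∅ := by
  intro n
  induction n using Nat.strong_induction_on with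
  | _ n ih =>
    intro E hE h hn
    rcases (good E).eq_empty_or_nonempty with h0 | ⟨x, hx⟩
    · obtain ⟨N, h1, h2⟩ := dk_pn hE
      refine ⟨N, h1, ?_⟩
      rw [h0, Finset.card_empty]
      omega
    · have hx' := hx
      rw [mem_good] at hx'
      obtain ⟨h1, h2, h3⟩ := hx'
      have hEx : nb E x ∩ ev E = nb E x := Finset.inter_eq_left.2 h2
      rcases h3 with h4 | ⟨a, b, hab, hnb, hE'⟩
      · have hcard : (nb E x ∩ ev E).card = dg E x := by rw [hEx, card_nb hE]
        have hle : dg E x ≤ 19 := by rw [← hcard]; exact h x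
        have hne : (nb E x ∩ ev E).Nonempty := by
          rw [← Finset.card_pos]
          omega
        obtain ⟨N, hN1, hN2⟩ := ih _ (hn ▸ card_sd_st Finset.inter_subset_left hne)
          (E \ st x (nb E x ∩ ev E)) (Ll_sd hE _) (gs_ev hE hx h) rfl
        refine ⟨_, big_step hE x hN1, ?_⟩
        have h5 := gs_WW hE hx
        have h6 := gs_good hE hx h
        rw [hcard]
        have h7 : Even (dg E x) := (mem_ev.1 h1).1
        obtain ⟨m, hm⟩ := h7
        have hm2 : m ≤ 9 := by omega
        have hm1 : 2 ≤ m := by omega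
        have h8 : (dg E x / 2 + 3) / 4 = (m + 3) / 4 := by omega
        rw [h8]
        have h9 : 1620 * ((m + 3) / 4) + 381 ≤ 270 * (m + m + 4) := by
          interval_cases m <;> omega
        omega
      · have ha : a ∈ ev E := h2 (by rw [hnb]; simp)
        have hb : b ∈ ev E := h2 (by rw [hnb]; simp)
        obtain ⟨N, hN1, hN2⟩ := ih _ (hn ▸ sup_card hE hnb hab hE')
          (sup E x a b) (sup_Ll hE hab) (sup_ev hE hnb hab hE' h1 ha hb h) rfl
        refine ⟨N, sup_pn hE hnb hab hE' hN1, ?_⟩
        have h5 := sup_WW hE hnb hab hE' h1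
        have h6 := sup_good hE hnb hab hE' h1 ha hb h
        omega

end Pool.Agent.Lib.MP_94420a_co
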