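import Pool.Agent.Lib.MP_94420a_co_T.RainA

/-!
# Rainbow paths with up to four colours

`sink`: contraposition of `conv`: if no nonempty `P ⊆ J'` has `PN (P.biUnion E) P.card` then some `i ∈ J'` has all
its neighbours `a` (`NB (E i) (W i) v a`) on all cycles `j ∈ J'`.

`rain4`.  Suppose the left alternative fails (for `J`, so also for all subsets).  Note first: if `s(v, a) ∈ E i`,
`s(v, b) ∈ E j`, `i ≠ j` in `J`, then `a ≠ b` (disjointness); also `s(v, a) = s(a, v)`.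
* `sink` for `J`, `x`: `j₁`; take `v₁` with `NB (E j₁) (W j₁) x v₁` (`Cyc` at `x`), so `v₁ ∈ W j` for all `j ∈ J`, `v₁ ≠ x`
  (`Cyc.ne`).
* `J.card = 1`: `P = J`, `r = [v₁, x]`.
* `J.card ≥ 2`: `J₁ = J.erase j₁`, `sink` for `J₁`, `v₁`: `j₂`, and `v₂` with `NB (E j₂) (W j₂) v₁ v₂`, `v₂ ≠ x` (disjointness:
  `s(v₁, x) ∈ E j₁`), `v₂ ≠ v₁`, `v₂ ∈ W j` for `j ∈ J₁`.  `J.card = 2`: `P = J`, `r = [v₂, v₁, x]`.
* `J.card ≥ 3`: `J₂ = J₁.erase j₂`, `sink` for `J₂`, `v₂`: `j₃`; `Cyc` at `v₂` gives two neighbours, both `≠ v₁`; let `v₃` be one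
  with `v₃ ≠ x`.  `v₃ ∈ W j` for `j ∈ J₂`.  `J.card = 3`: `P = J`, `r = [v₃, v₂, v₁, x]`.
* `J.card ≥ 4`: let `d ∈ J₂.erase j₃`.  `P = {j₁, j₂, j₃, d}`.  All of `x, v₁, v₂, v₃` are in `W d`.
  `Cyc` at `v₃` for `d`: two different neighbours, both `≠ v₂`, `≠ v₃`.  If one of them, `a`, is not in `{x, v₁}`:
  `r = [a, v₃, v₂, v₁, x]`.  Otherwise they are `x` and `v₁`: `NB (E d) (W d) v₃ x`, `NB (E d) (W d) v₃ v₁`.
  `Cyc` at `x` for `d`: two different neighbours, both `≠ v₁`.  If one of them, `a`, is not in `{v₂, v₃}`: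
  `r = [v₃, v₂, v₁, x, a]` (`e d = s(x, a)`).  Otherwise `s(x, v₂) ∈ E d`.
  Let `w` be a neighbour of `v₁` for `j₂` with `w ≠ v₂` (`Cyc` at `v₁`).  `w ≠ x` (`s(v₁, x) ∈ E j₁`), `w ≠ v₃`
  (`s(v₁, v₃) ∈ E d`), `w ≠ v₁`.  `r = [w, v₁, x, v₃, v₂]` with `e j₂ = s(v₁, w)`, `e j₁ = s(x, v₁)`, `e d = s(v₃, x)`,
  `e j₃ = s(v₂, v₃)`.
  In all cases apply `rainbow_pn` (for `e` use `Function.update` or nested `if`).
-/

namespace Pool.Agent.Lib.MP_94420a_co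

variable {V : Type} [DecidableEq V]

omit [DecidableEq V] in
private theorem r4_ne {ι : Type} {E : ι → Finset (Sym2 V)} {J : Finset ι}
    (hd : ∀ i ∈ J, ∀ j ∈ J, i ≠ j → Disjoint (E i) (E j)) {i j : ι} (hi : i ∈ J) (hj : j ∈ J)
    (hij : i ≠ j) {v a b : V} (ha : s(v, a) ∈ E i) (hb : s(v, b) ∈ E j) : a ≠ b := by
  rintro rfl
  exact Finset.disjoint_left.1 (hd i hi j hj hij) ha hb

private theorem r4_nb {E : Finset (Sym2 V)} {W : Finset V} {v a : V} (h : NB E W v a) :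
    s(a, v) ∈ E ∧ PN (E.erase s(v, a)) 1 ∧ PN (E.erase s(a, v)) 1 := by
  refine ⟨?_, h.2.pn, ?_⟩
  · rw [Sym2.eq_swap]
    exact h.1
  · rw [Sym2.eq_swap]
    exact h.2.pn

private theorem r4_one {ι : Type} [DecidableEq ι] (E : ι → Finset (Sym2 V)) {j₁ : ι}
    {e₁ : Sym2 V} (h₁ : e₁ ∈ E j₁) (p₁ : PN ((E j₁).erase e₁) 1) {r : List V}
    (hr : r.Nodup) (hle : le r = {e₁}) :
    PN (({j₁} : Finset ι).biUnion E) (({j₁} : Finset ι).card + 1) := by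
  refine rainbow_pn E {j₁} ?_ (fun _ => e₁) ?_ ?_ hr ?_
  · intro i hi j hj hij
    rw [Finset.mem_singleton] at hi hj
    exact absurd (hi.trans hj.symm) hij
  · intro i hi
    rw [Finset.mem_singleton] at hi
    rw [hi]
    exact h₁
  · intro i hi
    rw [Finset.mem_singleton] at hi
    rw [hi]
    exact p₁
  · rw [Finset.image_singleton]
    exact hle

private theorem r4_two {ι : Type} [DecidableEq ι] (E : ι → Finset (Sym2 V)) {j₁ j₂ : ι}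
    (h12 : j₂ ≠ j₁)
    (hd : ∀ i ∈ ({j₁, j₂} : Finset ι), ∀ j ∈ ({j₁, j₂} : Finset ι), i ≠ j → Disjoint (E i) (E j))
    {e₁ e₂ : Sym2 V} (h₁ : e₁ ∈ E j₁) (h₂ : e₂ ∈ E j₂)
    (p₁ : PN ((E j₁).erase e₁) 1) (p₂ : PN ((E j₂).erase e₂) 1) {r : List V}
    (hr : r.Nodup) (hle : le r = {e₁, e₂}) :
    PN (({j₁, j₂} : Finset ι).biUnion E) (({j₁, j₂} : Finset ι).card + 1) := by
  refine rainbow_pn E {j₁, j₂} hd (fun i => if i = j₁ then e₁ else e₂) ?_ ?_ hr ?_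
  · intro i hi
    rw [Finset.mem_insert, Finset.mem_singleton] at hi
    rcases hi with rfl | rfl
    · rw [if_pos rfl]
      exact h₁
    · rw [if_neg h12]
      exact h₂
  · intro i hi
    rw [Finset.mem_insert, Finset.mem_singleton] at hi
    rcases hi with rfl | rfl
    · rw [if_pos rfl]
      exact p₁
    · rw [if_neg h12]
      exact p₂
  · rw [Finset.image_insert, Finset.image_singleton, if_pos rfl, if_neg h12]
    exact hle

private theorem r4_three {ι : Type} [DecidableEq ι] (E : ι → Finset (Sym2 V)) {j₁ j₂ j₃ : ι}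
    (h12 : j₂ ≠ j₁) (h13 : j₃ ≠ j₁) (h23 : j₃ ≠ j₂)
    (hd : ∀ i ∈ ({j₁, j₂, j₃} : Finset ι), ∀ j ∈ ({j₁, j₂, j₃} : Finset ι), i ≠ j →
      Disjoint (E i) (E j))
    {e₁ e₂ e₃ : Sym2 V} (h₁ : e₁ ∈ E j₁) (h₂ : e₂ ∈ E j₂) (h₃ : e₃ ∈ E j₃)
    (p₁ : PN ((E j₁).erase e₁) 1) (p₂ : PN ((E j₂).erase e₂) 1)
    (p₃ : PN ((E j₃).erase e₃) 1) {r : List V}
    (hr : r.Nodup) (hle : le r = {e₁, e₂, e₃}) :
    PN (({j₁, j₂, j₃} : Finset ι).biUnion E) (({j₁, j₂, j₃} : Finset ι).card + 1) := by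
  refine rainbow_pn E {j₁, j₂, j₃} hd
    (fun i => if i = j₁ then e₁ else if i = j₂ then e₂ else e₃) ?_ ?_ hr ?_
  · intro i hi
    rw [Finset.mem_insert, Finset.mem_insert, Finset.mem_singleton] at hi
    rcases hi with rfl | rfl | rfl
    · rw [if_pos rfl]
      exact h₁
    · rw [if_neg h12, if_pos rfl]
      exact h₂
    · rw [if_neg h13, if_neg h23]
      exact h₃
  · intro i hi
    rw [Finset.mem_insert, Finset.mem_insert, Finset.mem_singleton] at hi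
    rcases hi with rfl | rfl | rfl
    · rw [if_pos rfl]
      exact p₁
    · rw [if_neg h12, if_pos rfl]
      exact p₂
    · rw [if_neg h13, if_neg h23]
      exact p₃
  · rw [Finset.image_insert, Finset.image_insert, Finset.image_singleton, if_pos rfl, if_neg h12,
      if_pos rfl, if_neg h13, if_neg h23]
    exact hle

private theorem r4_four {ι : Type} [DecidableEq ι] (E : ι → Finset (Sym2 V)) {j₁ j₂ j₃ d : ι}
    (h12 : j₂ ≠ j₁) (h13 : j₃ ≠ j₁) (h23 : j₃ ≠ j₂) (h14 : d ≠ j₁) (h24 : d ≠ j₂) (h34 : d ≠ j₃)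
    (hd : ∀ i ∈ ({j₁, j₂, j₃, d} : Finset ι), ∀ j ∈ ({j₁, j₂, j₃, d} : Finset ι), i ≠ j →
      Disjoint (E i) (E j))
    {e₁ e₂ e₃ e₄ : Sym2 V} (h₁ : e₁ ∈ E j₁) (h₂ : e₂ ∈ E j₂) (h₃ : e₃ ∈ E j₃) (h₄ : e₄ ∈ E d)
    (p₁ : PN ((E j₁).erase e₁) 1) (p₂ : PN ((E j₂).erase e₂) 1)
    (p₃ : PN ((E j₃).erase e₃) 1) (p₄ : PN ((E d).erase e₄) 1) {r : List V}
    (hr : r.Nodup) (hle : le r = {e₁, e₂, e₃, e₄}) :
    PN (({j₁, j₂, j₃, d} : Finset ι).biUnion E) (({j₁, j₂, j₃, d} : Finset ι).card + 1) := by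
  refine rainbow_pn E {j₁, j₂, j₃, d} hd
    (fun i => if i = j₁ then e₁ else if i = j₂ then e₂ else if i = j₃ then e₃ else e₄) ?_ ?_ hr ?_
  · intro i hi
    rw [Finset.mem_insert, Finset.mem_insert, Finset.mem_insert, Finset.mem_singleton] at hi
    rcases hi with rfl | rfl | rfl | rfl
    · rw [if_pos rfl]
      exact h₁
    · rw [if_neg h12, if_pos rfl]
      exact h₂
    · rw [if_neg h13, if_neg h23, if_pos rfl]
      exact h₃
    · rw [if_neg h14, if_neg h24, if_neg h34]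
      exact h₄
  · intro i hi
    rw [Finset.mem_insert, Finset.mem_insert, Finset.mem_insert, Finset.mem_singleton] at hi
    rcases hi with rfl | rfl | rfl | rfl
    · rw [if_pos rfl]
      exact p₁
    · rw [if_neg h12, if_pos rfl]
      exact p₂
    · rw [if_neg h13, if_neg h23, if_pos rfl]
      exact p₃
    · rw [if_neg h14, if_neg h24, if_neg h34]
      exact p₄
  · rw [Finset.image_insert, Finset.image_insert, Finset.image_insert, Finset.image_singleton,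
      if_pos rfl, if_neg h12, if_pos rfl, if_neg h13, if_neg h23, if_pos rfl, if_neg h14,
      if_neg h24, if_neg h34]
    exact hle

theorem rain4 {ι : Type} [DecidableEq ι] (E : ι → Finset (Sym2 V)) (W : ι → Finset V)
    (J : Finset ι) (x : V) (hc : ∀ i ∈ J, Cyc (E i) (W i))
    (hd : ∀ i ∈ J, ∀ j ∈ J, i ≠ j → Disjoint (E i) (E j)) (hx : ∀ i ∈ J, x ∈ W i)
    (hJ : J.Nonempty) :
    (∃ P ⊆ J, P.Nonempty ∧ PN (P.biUnion E) P.card) ∨
      ∃ P ⊆ J, P.card = min J.card 4 ∧ PN (P.biUnion E) (P.card + 1) := by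
  by_cases hno : ∃ P ⊆ J, P.Nonempty ∧ PN (P.biUnion E) P.card
  · exact Or.inl hno
  right
  have hno' : ∀ P ⊆ J, P.Nonempty → ¬PN (P.biUnion E) P.card := fun P h1 h2 h3 =>
    hno ⟨P, h1, h2, h3⟩
  have hsink : ∀ J' ⊆ J, J'.Nonempty → ∀ v, ∃ i ∈ J', ∀ a, NB (E i) (W i) v a → ∀ j ∈ J', a ∈ W j :=
    fun J' h h' v => sink J' h' E W (fun i hi j hj => hd i (h hi) j (h hj))
      (fun P hP => hno' P (hP.trans h)) v
  have hdP : ∀ P ⊆ J, ∀ i ∈ P, ∀ j ∈ P, i ≠ j → Disjoint (E i) (E j) := fun P h i hi j hj =>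
    hd i (h hi) j (h hj)
  have hpos := Finset.card_pos.2 hJ
  obtain ⟨j₁, hj₁, hs₁⟩ := hsink J (Finset.Subset.refl _) hJ x
  obtain ⟨v₁, -, -, hn₁, -⟩ := hc j₁ hj₁ x (hx j₁ hj₁)
  have hv1x : v₁ ≠ x := (hc j₁ hj₁).ne (hx j₁ hj₁) hn₁
  have hW₁ : ∀ j ∈ J, v₁ ∈ W j := hs₁ v₁ hn₁
  obtain ⟨q₁, q₁', q₁''⟩ := r4_nb hn₁
  by_cases hc1 : J.card = 1
  · refine ⟨{j₁}, Finset.singleton_subset_iff.2 hj₁, ?_, ?_⟩
    · rw [hc1]
      rfl
    · exact r4_one E q₁ q₁'' (r := [v₁, x]) (by simp [hv1x]) rfl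
  have hJ1s : J.erase j₁ ⊆ J := Finset.erase_subset _ _
  have hc1' : (J.erase j₁).card = J.card - 1 := Finset.card_erase_of_mem hj₁
  have hJ1 : (J.erase j₁).Nonempty := by
    rw [← Finset.card_pos, hc1']
    omega
  obtain ⟨j₂, hj₂, hs₂⟩ := hsink (J.erase j₁) hJ1s hJ1 v₁
  have hj₂J : j₂ ∈ J := hJ1s hj₂
  have h21 : j₂ ≠ j₁ := Finset.ne_of_mem_erase hj₂
  obtain ⟨v₂, w, hvw, hn₂, hm₂⟩ := hc j₂ hj₂J v₁ (hW₁ j₂ hj₂J)
  have hv21 : v₂ ≠ v₁ := (hc j₂ hj₂J).ne (hW₁ j₂ hj₂J) hn₂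
  have hw1 : w ≠ v₁ := (hc j₂ hj₂J).ne (hW₁ j₂ hj₂J) hm₂
  have hv2x : v₂ ≠ x := r4_ne hd hj₂J hj₁ h21 hn₂.1 q₁
  have hwx : w ≠ x := r4_ne hd hj₂J hj₁ h21 hm₂.1 q₁
  have hW₂ : ∀ j ∈ J.erase j₁, v₂ ∈ W j := hs₂ v₂ hn₂
  obtain ⟨q₂, q₂', q₂''⟩ := r4_nb hn₂
  by_cases hc2 : J.card = 2
  · have hP : ({j₁, j₂} : Finset ι) ⊆ J := by
      intro i hi
      rw [Finset.mem_insert, Finset.mem_singleton] at hi
      rcases hi with rfl | rfl
      · exact hj₁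
      · exact hj₂J
    refine ⟨{j₁, j₂}, hP, ?_, ?_⟩
    · rw [hc2, Finset.card_pair h21.symm]
      rfl
    · refine r4_two E h21 (hdP _ hP) q₁ q₂ q₁'' q₂'' (r := [v₂, v₁, x]) ?_ ?_
      · simp [hv1x, hv21, hv2x]
      · show insert s(v₂, v₁) (insert s(v₁, x) ∅) = _
        ext e
        simp only [Finset.mem_insert, Finset.mem_singleton, Finset.notMem_empty]
        tauto
  have hJ2s : (J.erase j₁).erase j₂ ⊆ J := (Finset.erase_subset _ _).trans hJ1s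
  have hc2' : ((J.erase j₁).erase j₂).card = J.card - 1 - 1 := by
    rw [Finset.card_erase_of_mem hj₂, hc1']
  have hJ2 : ((J.erase j₁).erase j₂).Nonempty := by
    rw [← Finset.card_pos, hc2']
    omega
  obtain ⟨j₃, hj₃, hs₃⟩ := hsink ((J.erase j₁).erase j₂) hJ2s hJ2 v₂
  have hj₃J : j₃ ∈ J := hJ2s hj₃
  have h32 : j₃ ≠ j₂ := Finset.ne_of_mem_erase hj₃
  have hj₃' : j₃ ∈ J.erase j₁ := Finset.mem_of_mem_erase hj₃
  have h31 : j₃ ≠ j₁ := Finset.ne_of_mem_erase hj₃'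
  have hex : ∃ v₃, NB (E j₃) (W j₃) v₂ v₃ ∧ v₃ ≠ x := by
    obtain ⟨a, a', haa, hna, hna'⟩ := hc j₃ hj₃J v₂ (hW₂ j₃ hj₃')
    by_cases hax : a = x
    · exact ⟨a', hna', fun h => haa (hax.trans h.symm)⟩
    · exact ⟨a, hna, hax⟩
  obtain ⟨v₃, hn₃, hv3x⟩ := hex
  have hv32 : v₃ ≠ v₂ := (hc j₃ hj₃J).ne (hW₂ j₃ hj₃') hn₃
  have hv31 : v₃ ≠ v₁ := r4_ne hd hj₃J hj₂J h32 hn₃.1 q₂
  have hW₃ : ∀ j ∈ (J.erase j₁).erase j₂, v₃ ∈ W j := hs₃ v₃ hn₃
  obtain ⟨q₃, q₃', q₃''⟩ := r4_nb hn₃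
  by_cases hc3 : J.card = 3
  · have hP : ({j₁, j₂, j₃} : Finset ι) ⊆ J := by
      intro i hi
      rw [Finset.mem_insert, Finset.mem_insert, Finset.mem_singleton] at hi
      rcases hi with rfl | rfl | rfl
      · exact hj₁
      · exact hj₂J
      · exact hj₃J
    refine ⟨{j₁, j₂, j₃}, hP, ?_, ?_⟩
    · rw [hc3, Finset.card_insert_of_notMem (by simp [h21.symm, h31.symm]),
        Finset.card_pair h32.symm]
      rfl
    · refine r4_three E h21 h31 h32 (hdP _ hP) q₁ q₂ q₃ q₁'' q₂'' q₃''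
        (r := [v₃, v₂, v₁, x]) ?_ ?_
      · simp [hv1x, hv21, hv2x, hv3x, hv32, hv31]
      · show insert s(v₃, v₂) (insert s(v₂, v₁) (insert s(v₁, x) ∅)) = _
        ext e
        simp only [Finset.mem_insert, Finset.mem_singleton, Finset.notMem_empty]
        tauto
  have hc3' : (((J.erase j₁).erase j₂).erase j₃).card = J.card - 1 - 1 - 1 := by
    rw [Finset.card_erase_of_mem hj₃, hc2']
  have hJ3 : (((J.erase j₁).erase j₂).erase j₃).Nonempty := by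
    rw [← Finset.card_pos, hc3']
    omega
  obtain ⟨d, hd₀⟩ := hJ3
  have hd3 : d ≠ j₃ := Finset.ne_of_mem_erase hd₀
  have hd₁ : d ∈ (J.erase j₁).erase j₂ := Finset.mem_of_mem_erase hd₀
  have hd2 : d ≠ j₂ := Finset.ne_of_mem_erase hd₁
  have hd₂ : d ∈ J.erase j₁ := Finset.mem_of_mem_erase hd₁
  have hd1 : d ≠ j₁ := Finset.ne_of_mem_erase hd₂
  have hdJ : d ∈ J := hJ1s hd₂
  have hP : ({j₁, j₂, j₃, d} : Finset ι) ⊆ J := by
    intro i hi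
    rw [Finset.mem_insert, Finset.mem_insert, Finset.mem_insert, Finset.mem_singleton] at hi
    rcases hi with rfl | rfl | rfl | rfl
    · exact hj₁
    · exact hj₂J
    · exact hj₃J
    · exact hdJ
  have hcard : ({j₁, j₂, j₃, d} : Finset ι).card = 4 := by
    rw [Finset.card_insert_of_notMem (by simp [h21.symm, h31.symm, hd1.symm]),
      Finset.card_insert_of_notMem (by simp [h32.symm, hd2.symm]), Finset.card_pair hd3.symm]
  refine ⟨{j₁, j₂, j₃, d}, hP, ?_, ?_⟩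
  · rw [hcard]
    omega
  obtain ⟨a, a', haa, hna, hna'⟩ := hc d hdJ v₃ (hW₃ d hd₁)
  have key : ∀ a, NB (E d) (W d) v₃ a → a ≠ x → a ≠ v₁ →
      PN (({j₁, j₂, j₃, d} : Finset ι).biUnion E) (({j₁, j₂, j₃, d} : Finset ι).card + 1) := by
    intro a hna hax ha1
    have ha3 : a ≠ v₃ := (hc d hdJ).ne (hW₃ d hd₁) hna
    have ha2 : a ≠ v₂ := r4_ne hd hdJ hj₃J hd3 hna.1 q₃
    obtain ⟨p, p', p''⟩ := r4_nb hna
    refine r4_four E h21 h31 h32 hd1 hd2 hd3 (hdP _ hP) q₁ q₂ q₃ p q₁'' q₂'' q₃'' p''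
      (r := [a, v₃, v₂, v₁, x]) ?_ ?_
    · simp [hv1x, hv21, hv2x, hv3x, hv32, hv31, hax, ha1, ha2, ha3]
    · show insert s(a, v₃) (insert s(v₃, v₂) (insert s(v₂, v₁) (insert s(v₁, x) ∅))) = _
      ext e
      simp only [Finset.mem_insert, Finset.mem_singleton, Finset.notMem_empty]
      tauto
  have key2 : NB (E d) (W d) v₃ x → NB (E d) (W d) v₃ v₁ →
      PN (({j₁, j₂, j₃, d} : Finset ι).biUnion E) (({j₁, j₂, j₃, d} : Finset ι).card + 1) := by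
    intro hnx hn1
    obtain ⟨p, p', p''⟩ := r4_nb hnx
    obtain ⟨s, s', s''⟩ := r4_nb hn1
    obtain ⟨t, t', t''⟩ := r4_nb hm₂
    have hw3 : w ≠ v₃ := r4_ne hd hj₂J hdJ hd2.symm hm₂.1 s
    have hq₃ : s(v₃, v₂) ∈ E j₃ := q₃
    refine r4_four E h21 h31 h32 hd1 hd2 hd3 (hdP _ hP) q₁ t q₃ p q₁'' t'' q₃'' p''
      (r := [w, v₁, x, v₃, v₂]) ?_ ?_
    · simp [hv1x, hv21.symm, hv2x.symm, hv3x.symm, hv32, hv31.symm, hw1, hwx, hw3, hvw.symm]
    · show insert s(w, v₁) (insert s(v₁, x) (insert s(x, v₃) (insert s(v₃, v₂) ∅))) = _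
      ext e
      simp only [Finset.mem_insert, Finset.mem_singleton, Finset.notMem_empty]
      tauto
  by_cases hax : a = x
  · by_cases ha'1 : a' = v₁
    · subst hax
      subst ha'1
      exact key2 hna hna'
    · exact key a' hna' (fun h => haa (hax.trans h.symm)) ha'1
  · by_cases ha1 : a = v₁
    · by_cases ha'x : a' = x
      · subst ha1
        subst ha'x
        exact key2 hna' hna
      · exact key a' hna' ha'x (fun h => haa (ha1.trans h.symm))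
    · exact key a hna hax ha1

end Pool.Agent.Lib.MP_94420a_co
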