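import Pool.Agent.Lib.MP_94420a_co.Conv
import Pool.Agent.Lib.MP_94420a_co.CycA

/-!
# Rainbow paths

`rainbow_pn`: `P.biUnion E` is the disjoint union of `le r` and of the sets `(E i).erase (e i)`, `i ∈ P`.
`PN_of_finset` for the latter (disjointness from `hd`), `PN_le`, `PN_union`, `1 + P.card`.
(`le r = P.image e` is disjoint from `(E i).erase (e i)`: `e j ∈ E i` only for `j = i`.)
-/

namespace Pool.Agent.Lib.MP_94420a_co

variable {V : Type} [DecidableEq V]

theorem rainbow_pn {ι : Type} [DecidableEq ι] (E : ι → Finset (Sym2 V)) (P : Finset ι)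
    (hd : ∀ i ∈ P, ∀ j ∈ P, i ≠ j → Disjoint (E i) (E j)) (e : ι → Sym2 V)
    (he : ∀ i ∈ P, e i ∈ E i) (hp : ∀ i ∈ P, PN ((E i).erase (e i)) 1) {r : List V}
    (hr : r.Nodup) (hle : le r = P.image e) : PN (P.biUnion E) (P.card + 1) := by
  have h1 : PN (P.biUnion fun i => (E i).erase (e i)) (∑ _i ∈ P, 1) :=
    PN_biUnion P (fun i => (E i).erase (e i)) (fun _ => 1)
      (fun i hi j hj hij => (hd i hi j hj hij).mono (Finset.erase_subset _ _)
        (Finset.erase_subset _ _)) hp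
  rw [← Finset.card_eq_sum_ones] at h1
  have h2 : Disjoint (P.biUnion fun i => (E i).erase (e i)) (le r) := by
    rw [hle, Finset.disjoint_left]
    intro x hx hx'
    obtain ⟨i, hi, hxi⟩ := Finset.mem_biUnion.1 hx
    obtain ⟨j, hj, rfl⟩ := Finset.mem_image.1 hx'
    obtain ⟨hne, hmem⟩ := Finset.mem_erase.1 hxi
    by_cases hij : i = j
    · subst hij
      exact hne rfl
    · exact Finset.disjoint_left.1 (hd i hi j hj hij) hmem (he j hj)
  have h3 : P.biUnion E = (P.biUnion fun i => (E i).erase (e i)) ∪ le r := by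
    rw [hle]
    ext x
    constructor
    · intro hx
      obtain ⟨i, hi, hxi⟩ := Finset.mem_biUnion.1 hx
      by_cases hxe : x = e i
      · exact Finset.mem_union_right _ (Finset.mem_image.2 ⟨i, hi, hxe.symm⟩)
      · exact Finset.mem_union_left _ (Finset.mem_biUnion.2 ⟨i, hi,
          Finset.mem_erase.2 ⟨hxe, hxi⟩⟩)
    · intro hx
      rcases Finset.mem_union.1 hx with hx | hx
      · obtain ⟨i, hi, hxi⟩ := Finset.mem_biUnion.1 hx
        exact Finset.mem_biUnion.2 ⟨i, hi, Finset.mem_of_mem_erase hxi⟩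
      · obtain ⟨j, hj, rfl⟩ := Finset.mem_image.1 hx
        exact Finset.mem_biUnion.2 ⟨j, hj, he j hj⟩
  rw [h3]
  exact PN_union h1 (PN_le hr) h2

theorem sink {ι : Type} [DecidableEq ι] (J : Finset ι) (hJ : J.Nonempty)
    (E : ι → Finset (Sym2 V)) (W : ι → Finset V)
    (hd : ∀ i ∈ J, ∀ j ∈ J, i ≠ j → Disjoint (E i) (E j))
    (hno : ∀ P ⊆ J, P.Nonempty → ¬PN (P.biUnion E) P.card) (v : V) :
    ∃ i ∈ J, ∀ a, NB (E i) (W i) v a → ∀ j ∈ J, a ∈ W j := by
  by_contra hcon
  push Not at hcon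
  obtain ⟨P, hP, hP1, hP2⟩ := conv J hJ E W hd v hcon
  exact hno P hP hP1 hP2

end Pool.Agent.Lib.MP_94420a_co
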