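import Pool.Agent.Lib.MP_94420a_co_T.Gd

/-!
# Suppressing a vertex of degree two with non-adjacent neighbours

`sup E x a b = insert s(a, b) ((E.erase s(x, a)).erase s(x, b))`, where `nb E x = {a, b}`, `a ≠ b`, `s(a, b) ∉ E`.

`sup_nb`: membership: `s(v, w) ∈ sup E x a b ↔ s(v, w) = s(a, b) ∨ (s(v, w) ∈ E ∧ v ≠ x ∧ w ≠ x)`.
`sup_dg`: `dg` of `x` becomes `0`; `dg` of every other vertex does not change (`nb (sup ..) a = insert b ((nb E a).erase x)`,
`card_nb`).
`sup_card`: two edges are removed and one is added.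
`sup_pn`: let `f` be a family of `N` lists for `sup E x a b`; `s(a, b)` is in exactly one `le (f i)`; write
`f i = l₁ ++ p :: q :: l₂` with `{p, q} = {a, b}` and replace it by `l₁ ++ p :: x :: q :: l₂` (`x` is not on any list of
length at least two containing it in an edge; but `x` can be a one-vertex list: first replace lists `[x]`
... simpler: `x ∉ f i`, because `x ∈ f i`, and `f i` has at least two vertices, would give an edge at `x`, but
`dg (sup E x a b) x = 0`).  New edge set `(le (f i)).erase s(a, b) ∪ {s(x, a), s(x, b)}`.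
-/

namespace Pool.Agent.Lib.MP_94420a_co

variable {V : Type} [DecidableEq V] [Fintype V]

/-- The vertex `x` with the neighbours `a`, `b` is suppressed. -/
def sup (E : Finset (Sym2 V)) (x a b : V) : Finset (Sym2 V) :=
  insert s(a, b) ((E.erase s(x, a)).erase s(x, b))

theorem sup_Ll {E : Finset (Sym2 V)} (hE : Ll E) {x a b : V} (hab : a ≠ b) :
    Ll (sup E x a b) := by
  intro e he
  rcases Finset.mem_insert.1 he with rfl | h
  · rw [Sym2.mk_isDiag_iff]
    exact hab
  · exact hE e (Finset.mem_of_mem_erase (Finset.mem_of_mem_erase h))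

private theorem Supp_a {E : Finset (Sym2 V)} {x a b : V} (hx : nb E x = {a, b}) :
    a ∈ nb E x := by
  rw [hx]
  exact Finset.mem_insert_self _ _

private theorem Supp_b {E : Finset (Sym2 V)} {x a b : V} (hx : nb E x = {a, b}) :
    b ∈ nb E x := by
  rw [hx]
  exact Finset.mem_insert_of_mem (Finset.mem_singleton_self _)

private theorem Supp_ax {E : Finset (Sym2 V)} (hE : Ll E) {x a b : V} (hx : nb E x = {a, b}) :
    a ≠ x := fun h => not_mem_nb_self hE x (by
  have h1 := Supp_a hx
  rwa [h] at h1)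

private theorem Supp_bx {E : Finset (Sym2 V)} (hE : Ll E) {x a b : V} (hx : nb E x = {a, b}) :
    b ≠ x := fun h => not_mem_nb_self hE x (by
  have h1 := Supp_b hx
  rwa [h] at h1)

private theorem Supp_nb {E : Finset (Sym2 V)} {x a b w : V} (hx : nb E x = {a, b})
    (h : s(x, w) ∈ E) : w = a ∨ w = b := by
  have h1 := mem_nb.2 h
  rw [hx] at h1
  rcases Finset.mem_insert.1 h1 with h2 | h2
  · exact Or.inl h2
  · exact Or.inr (Finset.mem_singleton.1 h2)

theorem sup_mem {E : Finset (Sym2 V)} (hE : Ll E) {x a b : V} (hx : nb E x = {a, b}) (hab : a ≠ b)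
    {v w : V} : s(v, w) ∈ sup E x a b ↔ s(v, w) = s(a, b) ∨ (s(v, w) ∈ E ∧ v ≠ x ∧ w ≠ x) := by
  unfold sup
  rw [Finset.mem_insert, Finset.mem_erase, Finset.mem_erase]
  refine or_congr Iff.rfl ⟨?_, ?_⟩
  · rintro ⟨h1, h2, h3⟩
    refine ⟨h3, ?_, ?_⟩
    · rintro rfl
      rcases Supp_nb hx h3 with rfl | rfl
      · exact h2 rfl
      · exact h1 rfl
    · rintro rfl
      have h4 : s(w, v) ∈ E := by
        rw [Sym2.eq_swap]
        exact h3
      rcases Supp_nb hx h4 with rfl | rfl
      · exact h2 Sym2.eq_swap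
      · exact h1 Sym2.eq_swap
  · rintro ⟨h1, h2, h3⟩
    refine ⟨fun h => ?_, fun h => ?_, h1⟩
    · rcases Sym2.eq_iff.1 h with ⟨h4, -⟩ | ⟨-, h4⟩
      · exact h2 h4
      · exact h3 h4
    · rcases Sym2.eq_iff.1 h with ⟨h4, -⟩ | ⟨-, h4⟩
      · exact h2 h4
      · exact h3 h4

theorem sup_dg_self {E : Finset (Sym2 V)} (hE : Ll E) {x a b : V} (hx : nb E x = {a, b})
    (hab : a ≠ b) (hE' : s(a, b) ∉ E) : dg (sup E x a b) x = 0 := by
  rw [← card_nb (sup_Ll hE hab), Finset.card_eq_zero, Finset.eq_empty_iff_forall_notMem]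
  intro w hw
  rcases (sup_mem hE hx hab).1 (mem_nb.1 hw) with h | h
  · rcases Sym2.eq_iff.1 h with ⟨h4, -⟩ | ⟨h4, -⟩
    · exact Supp_ax hE hx h4.symm
    · exact Supp_bx hE hx h4.symm
  · exact h.2.1 rfl

private theorem Supp_dg {E : Finset (Sym2 V)} {x a b : V} (hE' : s(a, b) ∉ E)
    (hxa : x ∈ nb E a) : (insert b ((nb E a).erase x)).card = (nb E a).card := by
  rw [Finset.card_insert_of_notMem, Finset.card_erase_add_one hxa]
  intro h
  exact hE' (mem_nb.1 (Finset.mem_of_mem_erase h))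

theorem sup_dg {E : Finset (Sym2 V)} (hE : Ll E) {x a b : V} (hx : nb E x = {a, b})
    (hab : a ≠ b) (hE' : s(a, b) ∉ E) {v : V} (hv : v ≠ x) : dg (sup E x a b) v = dg E v := by
  rw [← card_nb (sup_Ll hE hab), ← card_nb hE]
  by_cases h1 : v = a
  · subst h1
    rw [← Supp_dg hE' (mem_nb_comm (Supp_a hx))]
    congr 1
    ext w
    rw [mem_nb, sup_mem hE hx hab, Finset.mem_insert, Finset.mem_erase, mem_nb]
    constructor
    · rintro (h | ⟨h, -, h'⟩)
      · rcases Sym2.eq_iff.1 h with ⟨-, h4⟩ | ⟨h4, -⟩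
        · exact Or.inl h4
        · exact absurd h4 hab
      · exact Or.inr ⟨h', h⟩
    · rintro (rfl | ⟨h', h⟩)
      · exact Or.inl rfl
      · exact Or.inr ⟨h, hv, h'⟩
  · by_cases h2 : v = b
    · subst h2
      have hE2 : s(v, a) ∉ E := by
        rw [Sym2.eq_swap]
        exact hE'
      rw [← Supp_dg hE2 (mem_nb_comm (Supp_b hx))]
      congr 1
      ext w
      rw [mem_nb, sup_mem hE hx hab, Finset.mem_insert, Finset.mem_erase, mem_nb]
      constructor
      · rintro (h | ⟨h, -, h'⟩)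
        · rcases Sym2.eq_iff.1 h with ⟨h4, -⟩ | ⟨-, h4⟩
          · exact absurd h4 h1
          · exact Or.inl h4
        · exact Or.inr ⟨h', h⟩
      · rintro (rfl | ⟨h', h⟩)
        · exact Or.inl Sym2.eq_swap
        · exact Or.inr ⟨h, hv, h'⟩
    · congr 1
      ext w
      rw [mem_nb, sup_mem hE hx hab, mem_nb]
      constructor
      · rintro (h | ⟨h, -, h'⟩)
        · rcases Sym2.eq_iff.1 h with ⟨h4, -⟩ | ⟨h4, -⟩
          · exact absurd h4 h1
          · exact absurd h4 h2
        · exact h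
      · intro h
        refine Or.inr ⟨h, hv, ?_⟩
        rintro rfl
        rw [Sym2.eq_swap] at h
        rcases Supp_nb hx h with h4 | h4
        · exact h1 h4
        · exact h2 h4

theorem sup_card {E : Finset (Sym2 V)} (hE : Ll E) {x a b : V} (hx : nb E x = {a, b})
    (hab : a ≠ b) (hE' : s(a, b) ∉ E) : (sup E x a b).card < E.card := by
  have h1 : s(x, a) ∈ E := mem_nb.1 (Supp_a hx)
  have h2 : s(x, b) ∈ E.erase s(x, a) := by
    refine Finset.mem_erase.2 ⟨fun h => ?_, mem_nb.1 (Supp_b hx)⟩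
    rcases Sym2.eq_iff.1 h with ⟨-, h4⟩ | ⟨-, h4⟩
    · exact hab h4.symm
    · exact Supp_bx hE hx h4
  have h3 := Finset.card_erase_add_one h1
  have h4 := Finset.card_erase_add_one h2
  have h5 := Finset.card_insert_le s(a, b) ((E.erase s(x, a)).erase s(x, b))
  unfold sup
  omega

end Pool.Agent.Lib.MP_94420a_co
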